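import Pool.Agent.Lib.MP_f11a48_ag.SH.Defs

/-!
# MP_f11a48_ag, PROJECT S0: the interface between the parts

Every part proves its `Spec` (a theorem `specXXX : SpecXXX`); the assembly uses only these.
-/

set_option autoImplicit false

open Matrix
open Pool.Agent.Lib.MPf11a48.CM hiding OmegaM
open Pool.Agent.Lib.MPf11a48.GL2T
open Pool.Agent.Lib.MPf11a48.U
open Pool.Agent.Lib.MPf11a48.CMS

namespace Pool.Agent.Lib.MPf11a48.SH

/-! ## The family -/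

/-- Part EX: existence of the coefficient `c` (signs), of `ξ` (signs) and of a symplectic basis. -/
def SpecEX : Prop :=
  ∀ (K : Type) [Field K] [NumberField K] (T : Type) [Fintype T] [DecidableEq T] (n : ℕ)
    (bar : K ≃+* K) (sg : T ⊕ Fin n → K →+* ℂ) (t0 : T),
    (∀ (s : K →+* ℂ) (x : K), s (bar x) = (starRingEnd ℂ) (s x)) → Function.Injective sg →
    (∀ v w, sg v ≠ (starRingEnd ℂ).comp (sg w)) →
    (∀ s : K →+* ℂ, ∃ v, s = sg v ∨ s = (starRingEnd ℂ).comp (sg v)) →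
    ∃ F : Fam K T n, F.bar = bar ∧ F.sg = sg ∧ F.t0 = t0

/-- Part B: the quotient by a congruence subgroup is compact. -/
def SpecCOC : Prop :=
  ∀ (K : Type) [Field K] [NumberField K] (T : Type) [Fintype T] [DecidableEq T] (n : ℕ)
    (F : Fam K T n) (M : ℕ), 0 < M → ∃ C : Set (Fin n → ℂ), IsCompact C ∧ C ⊆ F.X ∧
      ∀ z ∈ F.X, ∃ g : F.Gam M, g.act z ∈ C

/-- Part B: the CM points are dense. -/
def SpecDEN : Prop :=
  ∀ (K : Type) [Field K] [NumberField K] (T : Type) [Fintype T] [DecidableEq T] (n : ℕ)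
    (F : Fam K T n) (s : Set (Fin n)), F.X ⊆ closure (F.P s)

/-- Part TH / TRF: the period matrices are in the Siegel space. -/
def SpecSIE : Prop :=
  ∀ (K : Type) [Field K] [NumberField K] (T : Type) [Fintype T] [DecidableEq T] (n : ℕ)
    (F : Fam K T n), ∀ z ∈ F.X, IsUnit (F.Ome z).det ∧ (F.tau z)ᵀ = F.tau z ∧
      (F.tau z : CI T n → CI T n → ℂ) ∈ TH.HH (CI T n)

/-- Part TH / TRF: the forms are analytic. -/
def SpecANA : Prop :=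
  ∀ (K : Type) [Field K] [NumberField K] (T : Type) [Fintype T] [DecidableEq T] (n : ℕ)
    (F : Fam K T n) (u v : K × K),
    AnalyticOnNhd ℂ (fun z => F.Kl z u) F.X ∧ AnalyticOnNhd ℂ (fun z => F.HD z u v) F.X

/-- Part TRF: the forms have the same automorphy factor, whose absolute value is a coboundary. -/
def SpecTRF : Prop :=
  ∀ (K : Type) [Field K] [NumberField K] (T : Type) [Fintype T] [DecidableEq T] (n : ℕ)
    (F : Fam K T n), ∃ Nrm : (Fin n → ℂ) → ℝ, ContinuousOn Nrm F.X ∧ (∀ z ∈ F.X, 0 < Nrm z) ∧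
      ∀ m : ℕ, 0 < m → ∃ M : ℕ, 0 < M ∧ ∀ (g : F.Gam M), ∀ z ∈ F.X, g.act z ∈ F.X →
        ∃ c : ℂ, ‖c‖ * Nrm z = Nrm (g.act z) ∧
          (∀ u : K × K, (m : ℚ) • u ∈ F.Lam → F.Kl (g.act z) u = c * F.Kl z u) ∧
          ∀ u v : K × K, (m : ℚ) • u ∈ F.Lam → (m : ℚ) • v ∈ F.Lam →
            F.HD (g.act z) u v = c ^ 2 * F.HD z u v

/-- Part NDG: non-degeneracy. -/
def SpecNDG : Prop :=
  ∀ (K : Type) [Field K] [NumberField K] (T : Type) [Fintype T] [DecidableEq T] (n : ℕ)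
    (F : Fam K T n), ∀ z ∈ F.X, (∃ u, F.Kl z u ≠ 0) ∧ (∃ u v, F.HD z u v ≠ 0) ∧
      ∀ u₀, F.Kl z u₀ ≠ 0 → ∀ v : Fin n → ℂ,
        (∀ u, F.Kl z u₀ * fderiv ℂ (fun y => F.Kl y u) z v =
          F.Kl z u * fderiv ℂ (fun y => F.Kl y u₀) z v) → v = 0

/-! ## Values at the CM points -/

/-- Part E: the theorem on theta functions of abelian varieties isogenous to a factor of a power
of `A`. -/
def SpecEP : Prop :=
  ∀ (L : IntermediateField ℚ ℂ) (g N : ℕ) (A : AbData g N), L ≤ Qbar → A.IsAbVar L →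
    ∀ (ι : Type) [Fintype ι] [DecidableEq ι] (ω : ι ⊕ ι → ι → ℂ) (a : ι ⊕ ι → (ι → ℂ) →ₗ[ℂ] ℂ)
      (Θ : (ι → ℂ) → ℂ), PTh ω a Θ →
    ∀ (k : Type) [Fintype k] (P : k → Matrix (Fin g) ι ℂ) (B : k → Matrix (ι ⊕ ι) (Ix g) ℚ)
      (w : k → ℚ), (∀ j r s, P j r s ∈ Qbar) → (∀ j, 0 < w j) →
      (∀ j l, P j *ᵥ ω l = ∑ l', ((B j l l' : ℚ) : ℂ) • A.lat l') →
      (∑ j, w j • (B j * A.E.map (fun x => (x : ℚ)) * (B j)ᵀ) = Matrix.fromBlocks 0 1 (-1) 0) →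
      ∃ Om : ℂ, Om ≠ 0 ∧ ∀ x : ι ⊕ ι → ℚ, TT ω a Θ x 0 / Om ∈ Qbar ∧
        ∀ v : ι → ℂ, (∀ j, v j ∈ Qbar) → fderiv ℂ (TT ω a Θ x) 0 v / Om ∈ Qbar

/-- Part POL: a CM part with its polarisation replaced by `Tr (ξ' z \bar w)`. -/
def SpecPOL : Prop :=
  ∀ (L : IntermediateField ℚ ℂ) (g N : ℕ) (A : AbData g N), L ≤ Qbar → A.IsAbVar L →
    ∀ (K : Type) [Field K] [NumberField K] (bar : K ≃+* K) (V : Type) [Fintype V] [DecidableEq V]
      (φ : V → K →+* ℂ) (p : V → ℂ) (ξ : K),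
      (∀ (s : K →+* ℂ) (x : K), s (bar x) = (starRingEnd ℂ) (s x)) → Function.Injective φ →
      (∀ v w, φ v ≠ (starRingEnd ℂ).comp (φ w)) →
      (∀ s : K →+* ℂ, ∃ v, s = φ v ∨ s = (starRingEnd ℂ).comp (φ v)) →
      CMPiece A φ p → bar ξ = -ξ → (∀ v, 0 < (φ v ξ).im) →
      ∃ (k : ℕ) (P : Fin k → Matrix (Fin g) V ℂ) (β : Fin k → K →ₗ[ℚ] (Ix g → ℚ)) (w : Fin k → ℚ),
        (∀ j r s, P j r s ∈ Qbar) ∧ (∀ j, 0 < w j) ∧
        (∀ j z, P j *ᵥ (fun v => p v * φ v z) = ∑ l, ((β j z l : ℚ) : ℂ) • A.lat l) ∧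
        ∀ z z' : K, ∑ j, w j * (β j z ⬝ᵥ (A.E.map (fun x => (x : ℚ)) *ᵥ β j z')) =
          Algebra.trace ℚ K (ξ * (z * bar z'))

/-- Part VAL: values of the forms at the CM points. -/
def SpecVAL : Prop :=
  ∀ (L : IntermediateField ℚ ℂ) (g N : ℕ) (A : AbData g N), L ≤ Qbar → A.IsAbVar L →
    ∀ (K : Type) [Field K] [NumberField K] (T : Type) [Fintype T] [DecidableEq T] (n : ℕ)
      (F : Fam K T n) (s : Set (Fin n)) (p q : T ⊕ Fin n → ℂ),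
      CMPiece A (F.typ s) p → CMPiece A (F.typ sᶜ) q →
      ∀ z ∈ F.P s, ∃ Om : ℂ, Om ≠ 0 ∧ (∀ u, F.Kl z u / Om ∈ Qbar) ∧
        ∀ u v, F.HD z u v / (Om ^ 2 * (p (Sum.inl F.t0) * q (Sum.inl F.t0))) ∈ Qbar

/-- The relation between the periods of four CM types. -/
def SpecFACE : Prop :=
  ∀ (L : IntermediateField ℚ ℂ) (g N : ℕ) (A : AbData g N), L ≤ Qbar → A.IsAbVar L →
    ∀ (K : Type) [Field K] [NumberField K] (T : Type) [Fintype T] [DecidableEq T] (n : ℕ)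
      (F : Fam K T n) (s : Set (Fin n)) (p₁ p₂ p₃ p₄ : T ⊕ Fin n → ℂ),
      CMPiece A (F.typ ∅) p₁ → CMPiece A (F.typ Set.univ) p₂ →
      CMPiece A (F.typ s) p₃ → CMPiece A (F.typ sᶜ) p₄ →
      p₁ (Sum.inl F.t0) * p₂ (Sum.inl F.t0) / (p₃ (Sum.inl F.t0) * p₄ (Sum.inl F.t0)) ∈ Qbar

/-! ## The periods of an abelian variety -/

/-- `p s` is the period of the eigenspace `s`. -/
structure IsPer {g N : ℕ} (A : AbData g N) (c : GL (Ix g) ℂ) (p : EmbC c.1 → ℂ) : Prop where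
  ne : ∀ s, p s ≠ 0
  per : ∀ s, ¬ IsBar A.psi s s → ∀ v : Ix g → ℂ, (∀ i, v i ∈ Qbar) → Eig s v →
    ∀ i, (v ᵥ* c.1) i / p s ∈ Qbar

/-- Part RED: existence of the periods. -/
def SpecPER : Prop :=
  ∀ (L : IntermediateField ℚ ℂ) (g N : ℕ) (A : AbData g N) (c : GL (Ix g) ℂ), 0 < g → L ≤ Qbar →
    A.IsAbVar L → c.1 = A.per →
    GL2Like c.1 A.psi → ∃ p, IsPer A c p

/-- Part RED: Legendre's relation. -/
def SpecLEG : Prop :=
  ∀ (L : IntermediateField ℚ ℂ) (g N : ℕ) (A : AbData g N) (c : GL (Ix g) ℂ), 0 < g → L ≤ Qbar →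
    A.IsAbVar L → c.1 = A.per →
    GL2Like c.1 A.psi → ∀ p, IsPer A c p → ∀ s s', ¬ IsBar A.psi s s → IsBar A.psi s s' →
      p s * p s' / (2 * Real.pi * Complex.I) ∈ Qbar

open scoped Classical in
/-- Part RED (from FACE, EX): the relation between four embeddings of the centre. -/
def SpecREL : Prop :=
  ∀ (L : IntermediateField ℚ ℂ) (g N : ℕ) (A : AbData g N) (c : GL (Ix g) ℂ), 0 < g → L ≤ Qbar →
    A.IsAbVar L → c.1 = A.per →
    GL2Like c.1 A.psi → ∀ p, IsPer A c p → ∀ s : Fin 4 → EmbC c.1,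
      (∀ i, ¬ IsBar A.psi (s i) (s i)) → (∀ i, s i ∈ Tan A c.1) →
      (∀ γ : CMS.GalQ, ((if CMS.act γ (s 0) ∈ Tan A c.1 then 1 else 0) +
          (if CMS.act γ (s 1) ∈ Tan A c.1 then 1 else 0) : ℕ) =
        (if CMS.act γ (s 2) ∈ Tan A c.1 then 1 else 0) +
          (if CMS.act γ (s 3) ∈ Tan A c.1 then 1 else 0)) →
      p (s 0) * p (s 1) / (p (s 2) * p (s 3)) ∈ Qbar

/-- Part (a) (from REL, LEG): all Hodge relations. -/
def SpecHOD : Prop :=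
  ∀ (L : IntermediateField ℚ ℂ) (g N : ℕ) (A : AbData g N) (c : GL (Ix g) ℂ), 0 < g → L ≤ Qbar →
    A.IsAbVar L → c.1 = A.per →
    GL2Like c.1 A.psi → ∀ E : Sub, FiniteDimensional ℚ E → AllTypes A c.1 E →
    ∀ p, IsPer A c p → ∀ χ : EmbC c.1 → ℤ, HodgeRel A.psi (Tan A c.1) χ →
      ∏ s : EmbC c.1, p s ^ χ s ∈ Qbar

/-- Part CLS: the classes. -/
def SpecCLS : Prop :=
  ∀ (L : IntermediateField ℚ ℂ) (g N : ℕ) (A : AbData g N) (c : GL (Ix g) ℂ), 0 < g → L ≤ Qbar →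
    A.IsAbVar L → c.1 = A.per →
    GL2Like c.1 A.psi → ∀ p, IsPer A c p →
    (∀ χ : EmbC c.1 → ℤ, HodgeRel A.psi (Tan A c.1) χ → ∏ s : EmbC c.1, p s ^ χ s ∈ Qbar) →
    ∃ S₀ : Set (TPair Qbar (Ix g)), (∀ α ∈ S₀, Fixes c α) ∧
      ∀ f ∈ OmegaS S₀, ∃ y ∈ MT A c, f = y.1 * c

/-- The final theorem of the project. -/
def SpecS0 : Prop :=
  ∀ (L : IntermediateField ℚ ℂ) (g N : ℕ) (A : AbData g N) (c : GL (Ix g) ℂ), 0 < g → L ≤ Qbar →
    A.IsAbVar L → c.1 = A.per →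
    GL2Like c.1 A.psi → ∀ E : Sub, FiniteDimensional ℚ E → AllTypes A c.1 E →
    ∃ S₀ : Set (TPair Qbar (Ix g)), (∀ α ∈ S₀, Fixes c α) ∧
      ∀ f ∈ OmegaS S₀, ∃ y ∈ MT A c, f = y.1 * c

theorem s0_of (hPER : SpecPER) (hHOD : SpecHOD) (hCLS : SpecCLS) : SpecS0 := by
  intro L g N A c hg hL hA hc hGL E hE hall
  obtain ⟨p, hp⟩ := hPER L g N A c hg hL hA hc hGL
  exact hCLS L g N A c hg hL hA hc hGL p hp (hHOD L g N A c hg hL hA hc hGL E hE hall p hp)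

end Pool.Agent.Lib.MPf11a48.SH
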