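import Pool.Agent.Lib.MP_f11a48_ag.CMM.DefsS
import Pool.Agent.Lib.MP_f11a48_ag.SH.D.Defs
import Pool.Agent.Lib.MP_f11a48_ag.SH.TH.Defs

/-!
# MP_f11a48_ag, PROJECT S0: Shimura's period relations. Common definitions.

* `TH.th`, `TH.Kl`, `KD1`: Riemann's theta function, its normalised values at the point `τ p + q`,
  and the normalised first derivatives.
* `Fam`: a CM field `K`, a hermitian form `h(l, m) = l_1 \bar m_1 - c l_2 \bar m_2` on `K ^ 2` which is
  definite at the places `T` and indefinite at the places `Fin n`, the form `E = Tr (ξ h)` and a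
  symplectic `ℚ`-basis. `F.X` is the product of discs which parametrises the complex tori with
  lattice `F.Lam`, period map `F.per z`.
* `F.Kl z u`, `F.HD z u v`: the forms; `F.Gam M`, `F.act γ z`: the arithmetic group; `F.P s`: the CM
  points.
* `LQ A`, `CMPiece`: the rational points of an abelian variety, and its CM parts.
-/

set_option autoImplicit false

open Matrix
open Pool.Agent.Lib.MPf11a48.CM hiding OmegaM
open Pool.Agent.Lib.MPf11a48.GL2T
open Pool.Agent.Lib.MPf11a48.U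
open Pool.Agent.Lib.MPf11a48.CMS

namespace Pool.Agent.Lib.MPf11a48.SH

/-! ## Riemann's theta function (see also `SH/TH/Defs.lean`) -/

/-- The normalised derivative of the theta function in the direction `w` (`TH.Kl` with the factor
`2 π i (m + p).w` in the sum). -/
noncomputable def KD1 {ι : Type} [Fintype ι] (τ : ι → ι → ℂ) (p q : ι → ℝ) (w : ι → ℂ) : ℂ :=
  Complex.exp (-(Real.pi * Complex.I * ∑ i, (p i : ℂ) * (q i : ℂ))) *
    ∑' m : ι → ℤ, TH.L (TH.ic m + TH.rc p) (0, w) *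
      Complex.exp (TH.L (TH.ic m + TH.rc p) (τ, TH.rc q))

/-! ## The family -/

/-- the form `Tr (ξ (l_1 \bar m_1 - c l_2 \bar m_2))` -/
noncomputable def EE {K : Type} [Field K] [NumberField K] (bar : K ≃+* K) (c ξ : K)
    (l m : K × K) : ℚ :=
  Algebra.trace ℚ K (ξ * (l.1 * bar m.1 - c * l.2 * bar m.2))

/-- The data of the family. -/
structure Fam (K : Type) [Field K] [NumberField K] (T : Type) [Fintype T] [DecidableEq T]
    (n : ℕ) where
  /-- complex conjugation -/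
  bar : K ≃+* K
  conj : ∀ (s : K →+* ℂ) (x : K), s (bar x) = (starRingEnd ℂ) (s x)
  /-- the places, with a choice of one of two conjugate embeddings -/
  sg : T ⊕ Fin n → K →+* ℂ
  sg_inj : Function.Injective sg
  sg_ne : ∀ v w, sg v ≠ (starRingEnd ℂ).comp (sg w)
  sg_all : ∀ s : K →+* ℂ, ∃ v, s = sg v ∨ s = (starRingEnd ℂ).comp (sg v)
  /-- a definite place -/
  t0 : T
  /-- the coefficient of the hermitian form -/
  c : K
  c_int : IsIntegral ℤ c
  c_bar : bar c = c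
  c_T : ∀ t, (sg (Sum.inl t) c).re < 0
  c_D : ∀ d, 0 < (sg (Sum.inr d) c).re
  ξ : K
  ξ_bar : bar ξ = -ξ
  ξ_pos : ∀ v, 0 < (sg v ξ).im
  /-- a symplectic basis; `inl i` is `e_i`, `inr i` is `f_i` -/
  b : Module.Basis (((T ⊕ Fin n) × Fin 2) ⊕ ((T ⊕ Fin n) × Fin 2)) ℚ (K × K)
  b_ee : ∀ i j, EE bar c ξ (b (Sum.inl i)) (b (Sum.inl j)) = 0
  b_ff : ∀ i j, EE bar c ξ (b (Sum.inr i)) (b (Sum.inr j)) = 0
  b_ef : ∀ i j, EE bar c ξ (b (Sum.inl i)) (b (Sum.inr j)) = if i = j then 1 else 0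

/-- the index set of the complex coordinates -/
abbrev CI (T : Type) (n : ℕ) : Type := (T ⊕ Fin n) × Fin 2

namespace Fam

variable {K : Type} [Field K] [NumberField K] {T : Type} [Fintype T] [DecidableEq T] {n : ℕ}
  (F : Fam K T n)

/-- the alternating form -/
noncomputable def E (l m : K × K) : ℚ := EE F.bar F.c F.ξ l m

/-- the product of discs `|z_d|² < c` -/
def X : Set (Fin n → ℂ) := {z | ∀ d, ‖z d‖ ^ 2 < (F.sg (Sum.inr d) F.c).re}

/-- the embedding of `K²` in `ℂ^I`: `(v, 0) ↦ sg_v l_1`, `(v, 1) ↦ sg_v l_2` -/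
def emb (l : K × K) : CI T n → ℂ := fun i => F.sg i.1 (if i.2 = 0 then l.1 else l.2)

/-- the period map, on real vectors (given by their coordinates as for `emb`) -/
noncomputable def perR (z : Fin n → ℂ) (y : CI T n → ℂ) : CI T n → ℂ := fun i =>
  match i with
  | (Sum.inl t, j) => y (Sum.inl t, j)
  | (Sum.inr d, j) => if j = 0 then y (Sum.inr d, 0) - z d * y (Sum.inr d, 1) else
      F.sg (Sum.inr d) F.c * (starRingEnd ℂ) (y (Sum.inr d, 1)) -
        z d * (starRingEnd ℂ) (y (Sum.inr d, 0))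

/-- the period map -/
noncomputable def per (z : Fin n → ℂ) (l : K × K) : CI T n → ℂ := F.perR z (F.emb l)

/-- the matrix with columns `per z e_j` -/
noncomputable def Ome (z : Fin n → ℂ) : Matrix (CI T n) (CI T n) ℂ :=
  Matrix.of fun i j => F.per z (F.b (Sum.inl j)) i

/-- the matrix with columns `per z f_j` -/
noncomputable def Omf (z : Fin n → ℂ) : Matrix (CI T n) (CI T n) ℂ :=
  Matrix.of fun i j => F.per z (F.b (Sum.inr j)) i

/-- the point of the Siegel space -/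
noncomputable def tau (z : Fin n → ℂ) : Matrix (CI T n) (CI T n) ℂ := (F.Ome z)⁻¹ * F.Omf z

/-- the coordinates of `u = ∑ p_i f_i + q_i e_i` -/
noncomputable def pc (u : K × K) : CI T n → ℝ := fun i => (F.b.repr u (Sum.inr i) : ℚ)

noncomputable def qc (u : K × K) : CI T n → ℝ := fun i => (F.b.repr u (Sum.inl i) : ℚ)

/-- the theta constants -/
noncomputable def Kl (z : Fin n → ℂ) (u : K × K) : ℂ := TH.Kl (F.tau z) (F.pc u) (F.qc u)

/-- the first derivatives, in the direction of the vector `w` of the universal cover -/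
noncomputable def KD (z : Fin n → ℂ) (u : K × K) (w : CI T n → ℂ) : ℂ :=
  KD1 (F.tau z) (F.pc u) (F.qc u) ((F.Ome z)⁻¹ *ᵥ w)

/-- The determinant of the derivatives of two theta functions in the two directions at the place
`t0`. -/
noncomputable def HD (z : Fin n → ℂ) (u v : K × K) : ℂ :=
  F.KD z u (Pi.single (Sum.inl F.t0, 0) 1) * F.KD z v (Pi.single (Sum.inl F.t0, 1) 1) -
    F.KD z u (Pi.single (Sum.inl F.t0, 1) 1) * F.KD z v (Pi.single (Sum.inl F.t0, 0) 1)

/-- the lattice -/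
def Lam : Set (K × K) := {u | ∀ i, ∃ x : ℤ, F.b.repr u i = x}

/-- the congruence subgroup of level `M` of the group of the isometries of `h` of determinant `1`:
`g = [[a, c \bar b], [b, \bar a]]` -/
structure Gam (M : ℕ) where
  a : K
  b : K
  a_mod : ∃ x : K, IsIntegral ℤ x ∧ a = 1 + M * x
  b_mod : ∃ x : K, IsIntegral ℤ x ∧ b = M * x
  eq : a * F.bar a - F.c * b * F.bar b = 1

variable {F} in
/-- the action on `K²` -/
def Gam.mul {M : ℕ} (g : F.Gam M) (l : K × K) : K × K :=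
  (g.a * l.1 + F.c * F.bar g.b * l.2, g.b * l.1 + F.bar g.a * l.2)

variable {F} in
/-- the action on `X` -/
noncomputable def Gam.act {M : ℕ} (g : F.Gam M) (z : Fin n → ℂ) : Fin n → ℂ := fun d =>
  (F.sg (Sum.inr d) g.a * z d + F.sg (Sum.inr d) F.c * (starRingEnd ℂ) (F.sg (Sum.inr d) g.b)) /
    (F.sg (Sum.inr d) g.b * z d + (starRingEnd ℂ) (F.sg (Sum.inr d) g.a))

/-- The CM points of type `s`: the decomposition `K² = K (c, \bar e) + K (e, 1)`. -/
def P (s : Set (Fin n)) : Set (Fin n → ℂ) :=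
  {z | z ∈ F.X ∧ ∃ e : K, (∀ d ∉ s, z d = F.sg (Sum.inr d) e) ∧
    ∀ d ∈ s, F.sg (Sum.inr d) e ≠ 0 ∧
      z d = F.sg (Sum.inr d) F.c / (starRingEnd ℂ) (F.sg (Sum.inr d) e)}

open scoped Classical in
/-- The CM type of `K (c, \bar e)` at the points of `P s` (for `K (e, 1)` take `sᶜ`). -/
noncomputable def typ (s : Set (Fin n)) : T ⊕ Fin n → K →+* ℂ := fun v =>
  match v with
  | Sum.inl t => F.sg (Sum.inl t)
  | Sum.inr d => if d ∈ s then (starRingEnd ℂ).comp (F.sg (Sum.inr d)) else F.sg (Sum.inr d)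

end Fam

/-! ## Abelian varieties -/

section Ab

variable {g N : ℕ}

/-- the rational multiples of the periods -/
def LQ (A : AbData g N) : Set (Fin g → ℂ) :=
  {w | ∃ x : Ix g → ℚ, w = ∑ l, ((x l : ℚ) : ℂ) • A.lat l}

/-- `A` contains a part with complex multiplication by `K`, with CM type `φ` (a family of
embeddings) and periods `p`. -/
def CMPiece (A : AbData g N) {K : Type} [Field K] {V : Type} [Fintype V] (φ : V → K →+* ℂ)
    (p : V → ℂ) : Prop :=
  (∀ v, p v ≠ 0) ∧ ∃ y : V → Fin g → ℂ, (∀ v, y v ≠ 0) ∧ (∀ v j, y v j ∈ Qbar) ∧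
    ∀ z : K, ∑ v, (p v * φ v z) • y v ∈ LQ A

end Ab

/-- the vector of a lattice with basis `ω` -/
noncomputable def vecR {ι Λ : Type} [Fintype Λ] (ω : Λ → ι → ℂ) (x : Λ → ℚ) : ι → ℂ :=
  ∑ l, ((x l : ℚ) : ℂ) • ω l

/-- linear combination of linear forms -/
noncomputable def linR {ι Λ : Type} [Fintype Λ] (a : Λ → (ι → ℂ) →ₗ[ℂ] ℂ) (x : Λ → ℚ) :
    (ι → ℂ) →ₗ[ℂ] ℂ :=
  ∑ l, ((x l : ℚ) : ℂ) • a l

/-- the normalised translate of `Θ` -/
noncomputable def TT {ι Λ : Type} [Fintype Λ] (ω : Λ → ι → ℂ) (a : Λ → (ι → ℂ) →ₗ[ℂ] ℂ)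
    (Θ : (ι → ℂ) → ℂ) (x : Λ → ℚ) (z : ι → ℂ) : ℂ :=
  Complex.exp (-(linR a x z) - linR a x (vecR ω x) / 2) * Θ (z + vecR ω x)

/-- `Θ` is a theta function for the lattice with basis `ω` and the linear forms `a`, with
multiplier of finite order, and with Riemann form the standard symplectic form. -/
structure PTh {ι : Type} [Fintype ι] [DecidableEq ι] (ω : ι ⊕ ι → ι → ℂ)
    (a : ι ⊕ ι → (ι → ℂ) →ₗ[ℂ] ℂ) (Θ : (ι → ℂ) → ℂ) : Prop where
  indep : LinearIndependent ℝ ω
  diff : Differentiable ℂ Θ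
  ne : ∃ z, Θ z ≠ 0
  aut : ∃ (M : ℕ) (χ : (ι ⊕ ι → ℤ) → ℂ), 0 < M ∧ (∀ x, χ x ^ M = 1) ∧
    ∀ (x : ι ⊕ ι → ℤ) (z : ι → ℂ), Θ (z + vecR ω (fun l => (x l : ℚ))) =
      χ x * Complex.exp (linR a (fun l => (x l : ℚ)) z +
        linR a (fun l => (x l : ℚ)) (vecR ω (fun l => (x l : ℚ))) / 2) * Θ z
  riemann : ∀ i j, a i (ω j) - a j (ω i) = 2 * Real.pi * Complex.I *
    (Matrix.fromBlocks 0 1 (-1) 0 : Matrix (ι ⊕ ι) (ι ⊕ ι) ℂ) i j

end Pool.Agent.Lib.MPf11a48.SH
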