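import Pool.Agent.Lib.MP_f11a48_ag.SH.EFqa
import Pool.Agent.Lib.MP_f11a48_ag.U.Orb

/-!
# MP_f11a48_ag, project S0, part (e): module APP (the algebraicity principle; helper4)
-/

set_option autoImplicit false

open MvPolynomial Pool.Agent.Lib.MPf11a48.CM Filter Topology
open Pool.Agent.Lib.MPf11a48.AS Pool.Agent.Lib.MPf11a48.U.ConjM

namespace Pool.Agent.Lib.MPf11a48.SH

namespace APPM

variable {β : ℕ} {I Λ : Type} [Fintype I] [Fintype Λ]

/-- the identity theorem on `V'` -/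
theorem ident (D : QD β I Λ) (hD : D.Good) (P : MvPolynomial I ℂ) {γ : Fin β → ℂ}
    (hγ : D.th D.o γ ≠ 0) (h : ∀ᶠ z in 𝓝 γ, eval (D.fv z) P = 0) (z : Fin β → ℂ)
    (hz : D.th D.o z ≠ 0) : eval (D.fv z) P = 0 := by
  have hw : Differentiable ℂ (D.th D.o) := hD.good.diff D.o
  have h0 : Ent (D.th D.o) (fun z => MvPolynomial.eval (fun i => D.f i z) P) := by
    refine Ent.eval hw (fun i => ?_) P
    refine ⟨1, D.th i, hD.good.diff i, fun z hz => ?_⟩
    unfold TH.f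
    field_simp
  obtain ⟨M, H, h1, h2⟩ := h0
  have h3 : AnalyticOnNhd ℂ H Set.univ := fun x _ =>
    Pool.Agent.Lib.MPf11a48.U.Osgood.analyticAt_of_differentiable h1 x
  have h4 : H =ᶠ[𝓝 γ] 0 := by
    filter_upwards [h, (hw.continuous.continuousAt (x := γ)).eventually_ne hγ] with x hx hwx
    rw [h2 x hwx]
    have hx' : MvPolynomial.eval (fun i => D.f i x) P = 0 := hx
    beta_reduce
    rw [hx', mul_zero]
    rfl
  have h5 := h3.eqOn_zero_of_preconnected_of_eventuallyEq_zero isPreconnected_univ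
    (Set.mem_univ γ) h4 (Set.mem_univ z)
  rw [h2 z hz] at h5
  exact (mul_eq_zero.1 h5).resolve_left (pow_ne_zero _ hz)

theorem an_eval (D : QD β I Λ) (hD : D.Good) (P : MvPolynomial I ℂ) {γ : Fin β → ℂ}
    (hγ : D.th D.o γ ≠ 0) : AnalyticAt ℂ (fun z => eval (D.fv z) P) γ := by
  induction P using MvPolynomial.induction_on with
  | C a =>
    simp only [eval_C]
    exact analyticAt_const
  | add p q hp hq =>
    simp only [map_add]
    exact hp.add hq
  | mul_X p i hp =>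
    simp only [_root_.map_mul, eval_X]
    exact hp.mul (FQAM.analytic_f D hD i hγ)

/-- the ring of germs is a domain -/
theorem germ_mul {F G : (Fin β → ℂ) → ℂ} {γ : Fin β → ℂ} (hF : AnalyticAt ℂ F γ)
    (hG : AnalyticAt ℂ G γ) (h : ∀ᶠ z in 𝓝 γ, F z * G z = 0) :
    (∀ᶠ z in 𝓝 γ, F z = 0) ∨ ∀ᶠ z in 𝓝 γ, G z = 0 := by
  obtain ⟨r, hr, hU⟩ := Metric.eventually_nhds_iff_ball.1
    ((hF.eventually_analyticAt.and hG.eventually_analyticAt).and h)
  have hb : Metric.ball γ r ∈ 𝓝 γ := Metric.ball_mem_nhds γ hr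
  rcases U.OrbM.loc_mul (convex_ball γ r) (fun z hz => (hU z hz).1.1)
    (fun z hz => (hU z hz).1.2) (fun z hz => (hU z hz).2) with h1 | h1
  · exact Or.inl (Filter.mem_of_superset hb h1)
  · exact Or.inr (Filter.mem_of_superset hb h1)

theorem cj_eval (D : QD β I Λ) (hD : D.Good) (hA : D.Alg) {τ : ℂ ≃+* ℂ} (hτ : FixQ τ)
    {γ : Fin β → ℂ} (hγ : AlgPt D.toTH γ) (P : MvPolynomial I ℂ) :
    CJ τ γ (fun z => eval (D.fv z) P)
      (fun z => eval (D.fv z) (MvPolynomial.map τ.toRingHom P)) := fun n =>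
  Cj.eval (FQAM.cj_f D hD hA hτ hγ n) P

theorem ev_shift {γ : Fin β → ℂ} {p : (Fin β → ℂ) → Prop} :
    (∀ᶠ z in 𝓝 (0 : Fin β → ℂ), p (γ + z)) ↔ ∀ᶠ z in 𝓝 γ, p z := by
  constructor
  · intro h
    have hc : Tendsto (fun z : Fin β → ℂ => z - γ) (𝓝 γ) (𝓝 0) := by
      have h1 : ContinuousAt (fun z : Fin β → ℂ => z - γ) γ := by fun_prop
      have h2 : (fun z : Fin β → ℂ => z - γ) γ = 0 := sub_self γ
      rw [← h2]
      exact h1
    filter_upwards [hc.eventually h] with z hz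
    simpa using hz
  · intro h
    have hc : Tendsto (fun z : Fin β → ℂ => γ + z) (𝓝 0) (𝓝 γ) := by
      have h1 : ContinuousAt (fun z : Fin β → ℂ => γ + z) 0 := by fun_prop
      have h2 : (fun z : Fin β → ℂ => γ + z) 0 = γ := add_zero γ
      unfold ContinuousAt at h1
      rw [h2] at h1
      exact h1
    exact hc.eventually h

end APPM

open APPM in
/-- **APP**, with DIV only. -/
theorem specAPP' (hDIV : SpecDIV) : SpecAPP := by
  intro β I Λ _ _ D hD hA γ₀ γ hγ₀ hγ F a b ha hF₀ hF hQ hFa τ hτ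
  set a' := MvPolynomial.map τ.toRingHom a with ha'
  set b' := MvPolynomial.map τ.toRingHom b with hb'
  -- near `γ₀`
  have h1 : ∀ᶠ z in 𝓝 γ₀, F z * eval (D.fv z) a' + (-1) * eval (D.fv z) b' = 0 := by
    rw [← ev_shift]
    refine eventually_zero (τ := τ) fun n => ?_
    have h2 := ((hQ τ hτ n).mul (cj_eval D hD hA hτ hγ₀ a n)).add
      ((Cj.const (τ := τ) n (-1)).mul (cj_eval D hD hA hτ hγ₀ b n))
    have h3 : τ (-1) = -1 := by rw [map_neg, map_one]
    rw [h3] at h2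
    refine Cj.congr ?_ (Filter.EventuallyEq.refl _ _) h2
    have h4 : ∀ᶠ z in 𝓝 (0 : Fin β → ℂ), F (γ₀ + z) * eval (D.fv (γ₀ + z)) a =
      eval (D.fv (γ₀ + z)) b := ev_shift.2 hF₀
    filter_upwards [h4] with z hz
    rw [hz]
    ring
  -- the relation
  have h5 : ∀ z, D.th D.o z ≠ 0 → eval (D.fv z) (a * b' - b * a') = 0 := by
    refine ident D hD _ hγ₀.1 ?_
    filter_upwards [h1, hF₀] with z hz kz
    rw [map_sub, _root_.map_mul, _root_.map_mul, ← kz]
    linear_combination (-(eval (D.fv z) a)) * hz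
  have hev : ∀ᶠ z in 𝓝 γ, D.th D.o z ≠ 0 :=
    ((hD.good.diff D.o).continuous.continuousAt (x := γ)).eventually_ne hγ.1
  -- near `γ`
  have hne : ¬ ∀ᶠ z in 𝓝 γ, eval (D.fv z) a = 0 := fun h => ha (ident D hD a hγ.1 h)
  have h6 : ∀ᶠ z in 𝓝 γ, eval (D.fv z) a * (F z * eval (D.fv z) a' - eval (D.fv z) b') = 0 := by
    filter_upwards [hF, hev] with z hz hz'
    have h7 := h5 z hz'
    rw [map_sub, _root_.map_mul, _root_.map_mul] at h7
    linear_combination (eval (D.fv z) a') * hz - h7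
  have h8 : ∀ᶠ z in 𝓝 γ, F z * eval (D.fv z) a' = eval (D.fv z) b' := by
    have h9 := (germ_mul (an_eval D hD a hγ.1)
      ((hFa.mul (an_eval D hD a' hγ.1)).sub (an_eval D hD b' hγ.1)) h6).resolve_left hne
    filter_upwards [h9] with z hz
    exact sub_eq_zero.1 hz
  exact hDIV.1 τ γ F F _ _ _ _ hFa hFa (cj_eval D hD hA hτ hγ a) (cj_eval D hD hA hτ hγ b) hne hF h8

end Pool.Agent.Lib.MPf11a48.SH
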