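import Pool.Agent.Lib.MP_f11a48_ag.SH.ESpec

/-!
# Module DIV (MP_f11a48_ag, folder SH): division of conjugate germs
-/

set_option autoImplicit false

open MvPolynomial Filter Topology
open Pool.Agent.Lib.MPf11a48.U.ConjM

namespace Pool.Agent.Lib.MPf11a48.SH

namespace DIVM

variable {g : ℕ}

/-- the derivative in the direction `v` -/
noncomputable def Dv (v : Fin g → ℂ) (F : (Fin g → ℂ) → ℂ) : (Fin g → ℂ) → ℂ :=
  fun z => fderiv ℂ F z v

theorem Dv_an (v : Fin g → ℂ) {F : (Fin g → ℂ) → ℂ} (h : AnalyticAt ℂ F 0) :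
    AnalyticAt ℂ (Dv v F) 0 :=
  ((ContinuousLinearMap.apply ℂ ℂ v).analyticAt _).comp h.fderiv

theorem iter_an (v : Fin g → ℂ) : ∀ (n : ℕ) (F : (Fin g → ℂ) → ℂ), AnalyticAt ℂ F 0 →
    AnalyticAt ℂ ((Dv v)^[n] F) 0 := by
  intro n
  induction n with
  | zero => intro F h; exact h
  | succ n ih => intro F h; rw [Function.iterate_succ_apply]; exact ih _ (Dv_an v h)

theorem Dv_congr (v : Fin g → ℂ) {F G : (Fin g → ℂ) → ℂ} (h : F =ᶠ[𝓝 0] G) :
    Dv v F =ᶠ[𝓝 0] Dv v G := by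
  filter_upwards [h.fderiv (𝕜 := ℂ)] with z hz
  show fderiv ℂ F z v = fderiv ℂ G z v
  rw [hz]

theorem iter_congr (v : Fin g → ℂ) : ∀ (n : ℕ) {F G : (Fin g → ℂ) → ℂ}, F =ᶠ[𝓝 0] G →
    (Dv v)^[n] F =ᶠ[𝓝 0] (Dv v)^[n] G := by
  intro n
  induction n with
  | zero => intro F G h; exact h
  | succ n ih =>
    intro F G h
    rw [Function.iterate_succ_apply, Function.iterate_succ_apply]
    exact ih (Dv_congr v h)

theorem Dv_add (v : Fin g → ℂ) {F G : (Fin g → ℂ) → ℂ} (hF : AnalyticAt ℂ F 0)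
    (hG : AnalyticAt ℂ G 0) : Dv v (fun z => F z + G z) =ᶠ[𝓝 0] fun z => Dv v F z + Dv v G z := by
  filter_upwards [ev_diff hF, ev_diff hG] with z hz kz
  show fderiv ℂ (fun z => F z + G z) z v = _
  rw [fderiv_fun_add hz kz]
  rfl

theorem Dv_mul (v : Fin g → ℂ) {F G : (Fin g → ℂ) → ℂ} (hF : AnalyticAt ℂ F 0)
    (hG : AnalyticAt ℂ G 0) : Dv v (fun z => F z * G z) =ᶠ[𝓝 0]
      fun z => Dv v F z * G z + F z * Dv v G z := by
  filter_upwards [ev_diff hF, ev_diff hG] with z hz kz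
  show fderiv ℂ (fun z => F z * G z) z v = _
  rw [fderiv_fun_mul hz kz]
  simp only [_root_.add_apply, _root_.smul_apply, smul_eq_mul]
  show F z * Dv v G z + G z * Dv v F z = _
  ring

theorem iter_add (v : Fin g → ℂ) : ∀ (n : ℕ) {F G : (Fin g → ℂ) → ℂ}, AnalyticAt ℂ F 0 →
    AnalyticAt ℂ G 0 → (Dv v)^[n] (fun z => F z + G z) 0 =
      (Dv v)^[n] F 0 + (Dv v)^[n] G 0 := by
  intro n
  induction n with
  | zero => intro F G _ _; rfl
  | succ n ih =>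
    intro F G hF hG
    rw [Function.iterate_succ_apply, Function.iterate_succ_apply, Function.iterate_succ_apply,
      (iter_congr v n (Dv_add v hF hG)).self_of_nhds]
    exact ih (Dv_an v hF) (Dv_an v hG)

/-- Leibniz' rule at the order of vanishing -/
theorem iter_mul (v : Fin g → ℂ) : ∀ (n : ℕ) {F A : (Fin g → ℂ) → ℂ}, AnalyticAt ℂ F 0 →
    AnalyticAt ℂ A 0 → (∀ i < n, (Dv v)^[i] A 0 = 0) →
      (Dv v)^[n] (fun z => F z * A z) 0 = F 0 * (Dv v)^[n] A 0 := by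
  intro n
  induction n with
  | zero => intro F A _ _ _; rfl
  | succ n ih =>
    intro F A hF hA h0
    rw [Function.iterate_succ_apply, (iter_congr v n (Dv_mul v hF hA)).self_of_nhds]
    have a1 : AnalyticAt ℂ (fun z => Dv v F z * A z) 0 := (Dv_an v hF).mul hA
    have a2 : AnalyticAt ℂ (fun z => F z * Dv v A z) 0 := hF.mul (Dv_an v hA)
    rw [iter_add v n a1 a2]
    rw [ih (Dv_an v hF) hA (fun i hi => h0 i (by omega)),
      ih hF (Dv_an v hA) (fun i hi => by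
        rw [← Function.iterate_succ_apply]; exact h0 (i + 1) (by omega)),
      h0 n (by omega), mul_zero, zero_add, ← Function.iterate_succ_apply]

theorem iter_eq (v : Fin g → ℂ) : ∀ (n : ℕ) (F : (Fin g → ℂ) → ℂ), AnalyticAt ℂ F 0 →
    iteratedFDeriv ℂ n F 0 (fun _ => v) = (Dv v)^[n] F 0 := by
  intro n
  induction n with
  | zero => intro F _; rw [iteratedFDeriv_zero_apply]; rfl
  | succ n ih =>
    intro F hF
    rw [iteratedFDeriv_succ_apply_right, Function.iterate_succ_apply, ← ih _ (Dv_an v hF)]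
    have h4 : Dv v F = (ContinuousLinearMap.apply ℂ ℂ v) ∘ fun z => fderiv ℂ F z := rfl
    have h5 : ContDiffAt ℂ n (fun z => fderiv ℂ F z) 0 := hF.fderiv.contDiffAt
    rw [h4, ContinuousLinearMap.iteratedFDeriv_comp_left _ h5 le_rfl]
    rfl

/-- a germ which is not `0` has a derivative which is not `0` -/
theorem exists_ne {F : (Fin g → ℂ) → ℂ} (hF : AnalyticAt ℂ F 0)
    (h : ¬ ∀ᶠ z in 𝓝 (0 : Fin g → ℂ), F z = 0) : ∃ (v : Fin g → ℂ) (k : ℕ),
      (Dv v)^[k] F 0 ≠ 0 ∧ ∀ i < k, (Dv v)^[i] F 0 = 0 := by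
  classical
  by_contra hc
  apply h
  have h0 : ∀ (v : Fin g → ℂ) (n : ℕ), (Dv v)^[n] F 0 = 0 := by
    intro v
    by_contra hn
    push Not at hn
    obtain ⟨n, hn⟩ := hn
    have hex : ∃ n, (Dv v)^[n] F 0 ≠ 0 := ⟨n, hn⟩
    exact hc ⟨v, Nat.find hex, Nat.find_spec hex, fun i hi => by
      by_contra h1
      exact Nat.find_min hex hi h1⟩
  obtain ⟨p, r, hp⟩ := hF
  filter_upwards [Metric.eball_mem_nhds (0 : Fin g → ℂ) hp.r_pos] with z hz
  have h1 := hp.hasSum_iteratedFDeriv hz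
  rw [zero_add] at h1
  have h2 : (fun n : ℕ => ((n.factorial : ℂ)⁻¹ • iteratedFDeriv ℂ n F 0 fun _ => z)) =
      fun _ => 0 := by
    funext n
    rw [iter_eq z n F ⟨p, r, hp⟩, h0 z n, smul_zero]
  rw [h2] at h1
  exact h1.unique hasSum_zero

variable {τ : ℂ ≃+* ℂ}

theorem cj_Dv {F F' : (Fin g → ℂ) → ℂ} (h : ∀ n, Cj τ n F F') (v : Fin g → ℂ) :
    ∀ n, Cj τ n (Dv v F) (Dv (fun i => τ (v i)) F') := fun n => (h (n + 1)).2 v

theorem cj_iter (v : Fin g → ℂ) : ∀ (n : ℕ) {F F' : (Fin g → ℂ) → ℂ}, (∀ n, Cj τ n F F') →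
    (Dv (fun i => τ (v i)))^[n] F' 0 = τ ((Dv v)^[n] F 0) := by
  intro n
  induction n with
  | zero => intro F F' h; exact (h 0).2.2
  | succ n ih =>
    intro F F' h
    rw [Function.iterate_succ_apply, Function.iterate_succ_apply]
    exact ih (cj_Dv h v)

/-- the value of a quotient -/
theorem val {G G' A A' B B' : (Fin g → ℂ) → ℂ} (hG : AnalyticAt ℂ G 0)
    (hG' : AnalyticAt ℂ G' 0) (hA : ∀ n, Cj τ n A A') (hB : ∀ n, Cj τ n B B')
    (h0 : ¬ ∀ᶠ z in 𝓝 (0 : Fin g → ℂ), A z = 0)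
    (h : ∀ᶠ z in 𝓝 (0 : Fin g → ℂ), G z * A z = B z)
    (h' : ∀ᶠ z in 𝓝 (0 : Fin g → ℂ), G' z * A' z = B' z) : G' 0 = τ (G 0) := by
  obtain ⟨v, k, hk, hi⟩ := exists_ne (hA 0).1 h0
  have h1 : (Dv v)^[k] B 0 = G 0 * (Dv v)^[k] A 0 := by
    rw [← iter_mul v k hG (hA 0).1 hi]
    exact (iter_congr v k (F := fun z => G z * A z) (G := B) h).self_of_nhds.symm
  have hi' : ∀ i < k, (Dv (fun i => τ (v i)))^[i] A' 0 = 0 := fun i hik => by
    rw [cj_iter v i hA, hi i hik, map_zero]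
  have h2 : (Dv (fun i => τ (v i)))^[k] B' 0 = G' 0 * (Dv (fun i => τ (v i)))^[k] A' 0 := by
    rw [← iter_mul _ k hG' (hA 0).2.1 hi']
    exact (iter_congr _ k (F := fun z => G' z * A' z) (G := B') h').self_of_nhds.symm
  rw [cj_iter v k hA, cj_iter v k hB, h1, _root_.map_mul] at h2
  have h3 : τ ((Dv v)^[k] A 0) ≠ 0 := by
    rw [Ne, map_eq_zero_iff τ τ.injective]
    exact hk
  exact (mul_right_cancel₀ h3 h2).symm

/-- division at the origin -/
theorem div0 : ∀ (n : ℕ) {G G' A A' B B' : (Fin g → ℂ) → ℂ}, AnalyticAt ℂ G 0 →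
    AnalyticAt ℂ G' 0 → (∀ n, Cj τ n A A') → (∀ n, Cj τ n B B') →
    (¬ ∀ᶠ z in 𝓝 (0 : Fin g → ℂ), A z = 0) →
    (∀ᶠ z in 𝓝 (0 : Fin g → ℂ), G z * A z = B z) →
    (∀ᶠ z in 𝓝 (0 : Fin g → ℂ), G' z * A' z = B' z) → Cj τ n G G' := by
  intro n
  induction n with
  | zero =>
    intro G G' A A' B B' hG hG' hA hB h0 h h'
    exact ⟨hG, hG', val hG hG' hA hB h0 h h'⟩
  | succ n ih =>
    intro G G' A A' B B' hG hG' hA hB h0 h h'
    refine ⟨⟨hG, hG', val hG hG' hA hB h0 h h'⟩, fun v => ?_⟩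
    have key : ∀ (w : Fin g → ℂ) {G A B : (Fin g → ℂ) → ℂ}, AnalyticAt ℂ G 0 →
        AnalyticAt ℂ A 0 → (∀ᶠ z in 𝓝 (0 : Fin g → ℂ), G z * A z = B z) →
        ∀ᶠ z in 𝓝 (0 : Fin g → ℂ), Dv w G z * (A z * A z) =
          Dv w B z * A z + (-1) * (B z * Dv w A z) := by
      intro w G A B hG hA h
      have h1 := Dv_congr w (F := fun z => G z * A z) (G := B) h
      filter_upwards [h, h1, Dv_mul w hG hA] with z hz h1z h2z
      have h3 : Dv w B z = Dv w G z * A z + G z * Dv w A z := by rw [← h1z, h2z]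
      rw [h3, ← hz]
      ring
    have hm : ∀ n, Cj τ n (fun _ : Fin g → ℂ => (-1 : ℂ)) (fun _ => (-1 : ℂ)) := by
      intro n
      have h := Cj.const (τ := τ) (g := g) n (-1 : ℂ)
      rw [map_neg, map_one] at h
      exact h
    refine ih (Dv_an v hG) (Dv_an _ hG') (A := fun z => A z * A z) (A' := fun z => A' z * A' z)
      (fun n => (hA n).mul (hA n))
      (fun n => ((cj_Dv hB v n).mul (hA n)).add ((hm n).mul ((hB n).mul (cj_Dv hA v n))))
      (fun hc => h0 (hc.mono fun z hz => mul_self_eq_zero.1 hz))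
      (key v hG (hA 0).1 h) (key _ hG' (hA 0).2.1 h')

theorem tend (γ : Fin g → ℂ) : Tendsto (fun z => γ + z) (𝓝 (0 : Fin g → ℂ)) (𝓝 γ) := by
  have h : Continuous fun z : Fin g → ℂ => γ + z := continuous_const.add continuous_id
  have h1 := h.tendsto 0
  rwa [add_zero] at h1

theorem tend' (γ : Fin g → ℂ) : Tendsto (fun z => z - γ) (𝓝 γ) (𝓝 (0 : Fin g → ℂ)) := by
  have h : Continuous fun z : Fin g → ℂ => z - γ := continuous_id.sub continuous_const
  have h1 := h.tendsto γ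
  rwa [sub_self] at h1

theorem an (γ : Fin g → ℂ) {F : (Fin g → ℂ) → ℂ} (h : AnalyticAt ℂ F γ) :
    AnalyticAt ℂ (fun z => F (γ + z)) 0 := by
  have h1 : AnalyticAt ℂ (fun z : Fin g → ℂ => γ + z) 0 := analyticAt_const.add analyticAt_id
  have h2 : AnalyticAt ℂ F ((fun z : Fin g → ℂ => γ + z) 0) := by
    show AnalyticAt ℂ F (γ + 0)
    rwa [add_zero]
  exact h2.comp h1

theorem an' (γ : Fin g → ℂ) {F : (Fin g → ℂ) → ℂ} (h : AnalyticAt ℂ (fun z => F (γ + z)) 0) :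
    AnalyticAt ℂ F γ := by
  have h1 : AnalyticAt ℂ (fun z : Fin g → ℂ => z - γ) γ := analyticAt_id.sub analyticAt_const
  have h2 : AnalyticAt ℂ (fun z => F (γ + z)) ((fun z : Fin g → ℂ => z - γ) γ) := by
    show AnalyticAt ℂ (fun z => F (γ + z)) (γ - γ)
    rwa [sub_self]
  have h3 := AnalyticAt.comp (g := fun z => F (γ + z)) (f := fun z : Fin g → ℂ => z - γ) h2 h1
  have h4 : ((fun z => F (γ + z)) ∘ fun z : Fin g → ℂ => z - γ) = F := by
    funext z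
    show F (γ + (z - γ)) = F z
    rw [add_sub_cancel]
  rwa [h4] at h3

end DIVM

/-- **DIV**. -/
theorem specDIV (hQAC : SpecQAC) : SpecDIV := by
  have main : ∀ {β : ℕ} (τ : ℂ ≃+* ℂ) (γ : Fin β → ℂ) (G G' α α' b b' : (Fin β → ℂ) → ℂ),
      AnalyticAt ℂ G γ → AnalyticAt ℂ G' γ → CJ τ γ α α' → CJ τ γ b b' →
      (¬ ∀ᶠ z in 𝓝 γ, α z = 0) → (∀ᶠ z in 𝓝 γ, G z * α z = b z) →
      (∀ᶠ z in 𝓝 γ, G' z * α' z = b' z) → CJ τ γ G G' := by
    intro β τ γ G G' α α' b b' hG hG' hα hb h0 h h' n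
    refine DIVM.div0 n (DIVM.an γ hG) (DIVM.an γ hG') hα hb ?_
      ((DIVM.tend γ).eventually h) ((DIVM.tend γ).eventually h')
    intro hc
    apply h0
    have h1 := (DIVM.tend' γ).eventually hc
    filter_upwards [h1] with z hz
    rwa [add_sub_cancel] at hz
  refine ⟨main, ?_⟩
  intro β γ F hF h0 τ hτ
  have hFan : AnalyticAt ℂ F γ := DIVM.an' γ (hF τ hτ 0).1
  have hinv : AnalyticAt ℂ (fun z => (F z)⁻¹) γ := hFan.inv h0
  have hone : CJ τ γ (fun _ => (1 : ℂ)) (fun _ => (1 : ℂ)) := by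
    intro n
    have h := Cj.const (τ := τ) (g := β) n (1 : ℂ)
    rw [map_one] at h
    exact h
  have hne : ∀ᶠ z in 𝓝 γ, F z ≠ 0 := hFan.continuousAt.eventually_ne h0
  have he : ∀ᶠ z in 𝓝 γ, (F z)⁻¹ * F z = 1 := by
    filter_upwards [hne] with z hz
    exact inv_mul_cancel₀ hz
  exact main τ γ _ _ F F _ _ hinv hinv (hF τ hτ) hone (fun hc => h0 hc.self_of_nhds) he he

end Pool.Agent.Lib.MPf11a48.SH
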