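import Pool.Agent.Lib.MP_f11a48_ag.SH.EBSpec
import Pool.Agent.Lib.MP_f11a48_ag.SH.H4.EigAbs

/-!
# Project S0, part (e), module EIG: an eigenfunction
-/

set_option autoImplicit false

open MvPolynomial Pool.Agent.Lib.MPf11a48.CM Filter Topology
open Pool.Agent.Lib.MPf11a48.AS Pool.Agent.Lib.MPf11a48.U.ConjM

namespace Pool.Agent.Lib.MPf11a48.SH

namespace EIGM

variable {Z I Λ : Type} [Fintype Λ] (D : TH Z I Λ)

/-- `UU` as a linear map -/
noncomputable def UL (t : Λ → ℚ) : ((Z → ℂ) → ℂ) →ₗ[ℂ] ((Z → ℂ) → ℂ) where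
  toFun := UU D t
  map_add' F G := by
    funext z
    show _ * (F _ + G _) = _ * F _ + _ * G _
    ring
  map_smul' r F := by
    funext z
    show _ * (r * F _) = r * (_ * F _)
    ring

theorem UL_apply (t : Λ → ℚ) (F : (Z → ℂ) → ℂ) : UL D t F = UU D t F := rfl

/-- the operators `V_k` -/
noncomputable def VL (r : ℂ) (t : Λ → ℚ) : ((Z → ℂ) → ℂ) →ₗ[ℂ] ((Z → ℂ) → ℂ) := r • UL D t

theorem VL_apply (r : ℂ) (t : Λ → ℚ) (F : (Z → ℂ) → ℂ) : VL D r t F = r • UU D t F := rfl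

theorem UU_comm (hU : SpecUOP) (t s : Λ → ℚ) (F : (Z → ℂ) → ℂ) :
    UU D t (UU D s F) = Complex.exp (2 * pr D t s) • UU D s (UU D t F) := by
  obtain ⟨h1, -, h3⟩ := hU.1 D
  funext z
  rw [h1, Pi.smul_apply, h1, smul_eq_mul, ← mul_assoc, ← Complex.exp_add, (h3 t s s 1).2.2,
    add_comm s t]
  congr 2
  ring

theorem pr_self (hU : SpecUOP) (t : Λ → ℚ) : pr D t t = 0 := by
  have h := ((hU.1 D).2.2 t t t 1).2.2
  have h2 : pr D t t + pr D t t = 0 := by
    nth_rewrite 1 [h]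
    ring
  have h3 : (2 : ℂ) * pr D t t = 0 := by rw [two_mul]; exact h2
  simpa using h3

theorem VL_pow (hU : SpecUOP) (r : ℂ) (t : Λ → ℚ) (m : ℕ) (F : (Z → ℂ) → ℂ) :
    (VL D r t ^ (m + 1)) F = r ^ (m + 1) • UU D (((m + 1 : ℕ) : ℚ) • t) F := by
  obtain ⟨h1, -, h3⟩ := hU.1 D
  induction m with
  | zero => simp [VL_apply]
  | succ m ih =>
    rw [pow_succ' (VL D r t)]
    show VL D r t ((VL D r t ^ (m + 1)) F) = _
    rw [ih, map_smul, VL_apply, smul_smul, ← pow_succ]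
    congr 1
    funext z
    rw [h1, (h3 t t t ((m + 1 : ℕ) : ℚ)).2.1, pr_self D hU, mul_zero, Complex.exp_zero, one_mul]
    congr 1
    push_cast
    rw [add_smul ((m : ℚ) + 1) 1 t, one_smul, add_comm]

theorem QQ_zero : QQ D 0 := by
  have h : QQ D fun z => (0 : ℂ) * UU D 0 (D.th D.o) z := QQ.smul 0 _ Qbar.zero_mem (QQ.tr 0)
  have e : (fun z => (0 : ℂ) * UU D 0 (D.th D.o) z) = 0 := by
    funext z
    simp
  rw [← e]
  exact h

theorem pr_sum (hU : SpecUOP) (t : Λ → ℚ) {κ : Type} (S : Finset κ) (x : κ → ℚ) (b : κ → Λ → ℚ) :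
    pr D t (∑ k ∈ S, x k • b k) = ∑ k ∈ S, (x k : ℂ) * pr D t (b k) := by
  classical
  obtain ⟨-, -, h3⟩ := hU.1 D
  induction S using Finset.induction_on with
  | empty =>
    have := (h3 t 0 0 0).2.1
    simpa using this
  | insert a S ha ih =>
    rw [Finset.sum_insert ha, Finset.sum_insert ha, (h3 t (x a • b a) _ 1).1, ih,
      (h3 t (b a) 0 (x a)).2.1]

end EIGM

open EIGM EigAbsM in
/-- **EIG.** -/
theorem specEIG (hU : SpecUOP) : SpecEIG := by
  intro β I Λ _ _ D hD b hb c M hM hc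
  classical
  obtain ⟨hspan, hexp, hQQ⟩ := hU.2.2 D hD b hb
  obtain ⟨h1, h2, h3⟩ := hU.1 D
  have hc0 : ∀ k, c k ≠ 0 := fun k h => by
    have h4 := hc k
    rw [h, zero_pow (by omega)] at h4
    exact zero_ne_one h4
  have hcQ : ∀ k, (c k)⁻¹ ∈ Qbar := fun k => Qbar.inv_mem (root_mem hM (hc k))
  let V : Fin β ⊕ Fin β → ((Fin β → ℂ) → ℂ) →ₗ[ℂ] ((Fin β → ℂ) → ℂ) :=
    fun k => VL D (c k)⁻¹ (b k)
  -- commutation
  have hcomm : ∀ k k' F, V k (V k' F) = V k' (V k F) := by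
    intro k k' F
    have e1 : V k (V k' F) = ((c k)⁻¹ * (c k')⁻¹) • UU D (b k) (UU D (b k') F) := by
      show VL D (c k)⁻¹ (b k) (VL D (c k')⁻¹ (b k') F) = _
      rw [VL_apply D (c k')⁻¹, map_smul, VL_apply, smul_smul, mul_comm]
    have e2 : V k' (V k F) = ((c k)⁻¹ * (c k')⁻¹) • UU D (b k') (UU D (b k) F) := by
      show VL D (c k')⁻¹ (b k') (VL D (c k)⁻¹ (b k) F) = _
      rw [VL_apply D (c k)⁻¹, map_smul, VL_apply, smul_smul]
    rw [e1, e2, UU_comm D hU]
    have e3 : Complex.exp (2 * pr D (b k) (b k')) = 1 := by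
      rw [hb, Complex.exp_eq_one_iff]
      exact ⟨sy k k', by ring⟩
    rw [e3, one_smul]
  -- the order
  let d : ℕ := ∏ p : (Fin β ⊕ Fin β) × Λ, (b p.1 p.2).den
  have hd : 1 ≤ d := Finset.prod_pos fun (p : (Fin β ⊕ Fin β) × Λ) _ => (b p.1 p.2).den_pos
  have hdi : ∀ k l, ∃ x : ℤ, (d : ℚ) * b k l = x := by
    intro k l
    obtain ⟨e, he⟩ : (b k l).den ∣ d := Finset.dvd_prod_of_mem
      (fun p : (Fin β ⊕ Fin β) × Λ => (b p.1 p.2).den) (Finset.mem_univ (k, l))
    refine ⟨e * (b k l).num, ?_⟩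
    rw [he]
    push_cast
    have h4 : ((b k l).den : ℚ) * b k l = (b k l).num := by
      rw [mul_comm]
      exact Rat.mul_den_eq_num (b k l)
    rw [mul_comm ((b k l).den : ℚ), mul_assoc, h4]
  let n : ℕ := M * d
  have hn : 1 ≤ n := Nat.mul_pos hM hd
  have hni : ∀ k, IntV ((n : ℚ) • b k) := by
    intro k
    choose x hx using hdi k
    refine ⟨fun l => M * x l, fun l => ?_⟩
    rw [Pi.smul_apply, smul_eq_mul]
    show ((M * d : ℕ) : ℚ) * b k l = _
    push_cast
    rw [mul_assoc, hx]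
  have hTn : ∀ k, (V k ^ n) (D.th D.o) = D.th D.o := by
    intro k
    obtain ⟨m, hm⟩ : ∃ m, n = m + 1 := ⟨n - 1, by omega⟩
    rw [hm]
    show (VL D (c k)⁻¹ (b k) ^ (m + 1)) _ = _
    rw [VL_pow D hU, ← hm, inv_pow]
    have e1 : c k ^ n = 1 := by
      show c k ^ (M * d) = 1
      rw [pow_mul, hc, one_pow]
    rw [e1, inv_one, one_smul]
    funext z
    exact hU.2.1 D hD _ (hni k) z
  have hTQ : QQ D (D.th D.o) := by
    have e : UU D 0 (D.th D.o) = D.th D.o := by
      funext z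
      exact hU.2.1 D hD 0 ⟨0, fun l => by simp⟩ z
    rw [← e]
    exact QQ.tr 0
  have hT0 : D.th D.o ≠ 0 := fun h => hD.zero (congrFun h 0)
  obtain ⟨F, hF0, hFQ, -, hF⟩ := eig_abs V hcomm (QQ D) (QQ_zero D)
    (fun F G hF hG => QQ.add F G hF hG) (fun c hc F hF => QQ.smul c F hc hF)
    (fun k F hF => QQ.smul _ _ (hcQ k) ((hQQ F hF).2 (b k))) hn (D.th D.o) hTQ hT0 hTn
    Finset.univ
  choose ζ hζ hζF using fun k => hF k (Finset.mem_univ k)
  -- exponents
  have hη := Complex.isPrimitiveRoot_exp n (by omega)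
  have hm : ∀ k, ∃ m : ℕ, Complex.exp (2 * Real.pi * Complex.I * (m / n)) = ζ k := by
    intro k
    have : NeZero n := ⟨by omega⟩
    obtain ⟨i, -, hi⟩ := hη.eq_pow_of_pow_eq_one (hζ k)
    refine ⟨i, ?_⟩
    rw [← hi, ← Complex.exp_nat_mul]
    congr 1
    ring
  choose m hm using hm
  -- the translation
  let x : Fin β ⊕ Fin β → ℚ := Sum.elim (fun i => (m (Sum.inr i) : ℚ) / n)
    fun i => -((m (Sum.inl i) : ℚ) / n)
  let t : Λ → ℚ := ∑ k, x k • b k
  have hnC : (n : ℂ) ≠ 0 := by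
    have : n ≠ 0 := by omega
    exact_mod_cast this
  have hpt : ∀ k, pr D (b k) t = -(Real.pi * Complex.I * (m k / n)) := by
    intro k
    show pr D (b k) (∑ k, x k • b k) = _
    rw [pr_sum D hU]
    simp only [hb]
    rw [Fintype.sum_sum_type]
    rcases k with j | j
    · have e1 : ∀ i, ((x (Sum.inl i) : ℚ) : ℂ) * (Real.pi * Complex.I *
          ((sy (Sum.inl j) (Sum.inl i) : ℤ) : ℂ)) = 0 := by
        intro i
        simp [sy]
      have e2 : ∀ i, ((x (Sum.inr i) : ℚ) : ℂ) * (Real.pi * Complex.I *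
          ((sy (Sum.inl j) (Sum.inr i) : ℤ) : ℂ)) =
          if j = i then -(Real.pi * Complex.I * (m (Sum.inl i) / n)) else 0 := by
        intro i
        simp only [sy, x, Sum.elim_inr]
        split_ifs with h
        · push_cast
          ring
        · simp
      simp only [e1, e2]
      simp
    · have e1 : ∀ i, ((x (Sum.inr i) : ℚ) : ℂ) * (Real.pi * Complex.I *
          ((sy (Sum.inr j) (Sum.inr i) : ℤ) : ℂ)) = 0 := by
        intro i
        simp [sy]
      have e2 : ∀ i, ((x (Sum.inl i) : ℚ) : ℂ) * (Real.pi * Complex.I *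
          ((sy (Sum.inr j) (Sum.inl i) : ℤ) : ℂ)) =
          if j = i then -(Real.pi * Complex.I * (m (Sum.inr i) / n)) else 0 := by
        intro i
        simp only [sy, x, Sum.elim_inl]
        split_ifs with h
        · push_cast
          ring
        · simp
      simp only [e1, e2]
      simp
  refine ⟨UU D t F, (hQQ F hFQ).2 t, ?_, ?_⟩
  · by_contra hcon
    push Not at hcon
    apply hF0
    funext z
    exact h2 t F hcon z
  · intro k z
    have e1 : UU D (b k) F = (c k * ζ k) • F := by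
      have e2 := hζF k
      have e3 : V k F = (c k)⁻¹ • UU D (b k) F := rfl
      rw [e3] at e2
      rw [mul_smul, ← e2, smul_smul, mul_inv_cancel₀ (hc0 k), one_smul]
    have e2 : UU D (b k) (UU D t F) = c k • UU D t F := by
      rw [UU_comm D hU, e1]
      have e3 : UU D t ((c k * ζ k) • F) = (c k * ζ k) • UU D t F := (UL D t).map_smul _ _
      rw [e3, smul_smul]
      congr 1
      rw [hpt, ← hm, mul_comm (c k), ← mul_assoc, ← Complex.exp_add]
      have e4 : 2 * -(Real.pi * Complex.I * ((m k : ℂ) / n)) +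
          2 * Real.pi * Complex.I * ((m k : ℂ) / n) = 0 := by ring
      rw [e4, Complex.exp_zero, one_mul]
    have e3 := congrFun e2 z
    have e4 : UU D (b k) (UU D t F) z = Complex.exp (-(aq D (b k) z) -
        aq D (b k) (vq D (b k)) / 2) * UU D t F (z + vq D (b k)) := rfl
    rw [e4] at e3
    have e5 : (c k • UU D t F) z = c k * UU D t F z := rfl
    rw [e5] at e3
    have e6 : UU D t F (z + vq D (b k)) = Complex.exp (aq D (b k) z +
        aq D (b k) (vq D (b k)) / 2) * (Complex.exp (-(aq D (b k) z) -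
        aq D (b k) (vq D (b k)) / 2) * UU D t F (z + vq D (b k))) := by
      rw [← mul_assoc, ← Complex.exp_add]
      have e7 : aq D (b k) z + aq D (b k) (vq D (b k)) / 2 + (-(aq D (b k) z) -
        aq D (b k) (vq D (b k)) / 2) = 0 := by ring
      rw [e7, Complex.exp_zero, one_mul]
    rw [e6, e3]
    ring

end Pool.Agent.Lib.MPf11a48.SH
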