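import Pool.Agent.Lib.MP_f11a48_ag.SH.EBSpec
import Pool.Agent.Lib.MP_f11a48_ag.SH.H4.BaseI

/-!
# Project S0, part (e), module THF: THEOREM E' for an abelian variety
-/

set_option autoImplicit false

open Matrix MvPolynomial Pool.Agent.Lib.MPf11a48.CM Filter Topology
open Pool.Agent.Lib.MPf11a48.AS

namespace Pool.Agent.Lib.MPf11a48.SH

namespace THFM

theorem sy_eq {ι : Type} [DecidableEq ι] (k l : ι ⊕ ι) : BaseIM.sy ι k l = ((sy k l : ℤ) : ℚ) := by
  rcases k with i | i <;> rcases l with j | j <;>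
    simp [BaseIM.sy, sy, Matrix.one_apply, apply_ite]

theorem sy_map {ι κ : Type} [DecidableEq ι] [DecidableEq κ] (e : ι → κ)
    (he : Function.Injective e) (k l : ι ⊕ ι) : sy (Sum.map e e k) (Sum.map e e l) = sy k l := by
  rcases k with i | i <;> rcases l with j | j <;> simp [sy, he.eq_iff]

/-- complex independence -/
theorem c_indep {g N : ℕ} {ι κ : Type} [Fintype ι] [DecidableEq ι] [Fintype κ]
    {K : IntermediateField ℚ ℂ} (A : U.AbData g N) (hA : A.IsAbVar K)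
    (B : κ → Matrix (Fin g) ι ℂ) (w : κ → ℚ) (hw : ∀ k, 0 < w k)
    (om : ι ⊕ ι → ι → ℂ) (X : κ → ι ⊕ ι → U.Ix g → ℚ)
    (hX : ∀ k l, (B k).mulVec (om l) = ∑ m, (X k l m : ℂ) • A.lat m)
    (hE : ∀ l l', ∑ k, w k * ∑ m, ∑ m', X k l m * (A.E m m' : ℚ) * X k l' m' = (sy l l' : ℤ))
    (hom : LinearIndependent ℝ om) : LinearIndependent ℂ fun i => om (Sum.inl i) := by
  rw [Fintype.linearIndependent_iff]
  intro z hz
  -- real and imaginary parts
  let x : κ → U.Ix g → ℝ := fun k m => ∑ i, (z i).im * (X k (Sum.inl i) m : ℝ)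
  let y : κ → U.Ix g → ℝ := fun k m => -∑ i, (z i).re * (X k (Sum.inl i) m : ℝ)
  have hx : ∀ k, ∑ m, (x k m : ℂ) • A.lat m =
      (B k).mulVec (∑ i, ((z i).im : ℂ) • om (Sum.inl i)) := by
    intro k
    rw [Matrix.mulVec_sum]
    simp only [Matrix.mulVec_smul, hX, Finset.smul_sum, smul_smul]
    rw [Finset.sum_comm]
    refine Finset.sum_congr rfl fun m _ => ?_
    rw [← Finset.sum_smul]
    congr 1
    simp only [x]
    push_cast
    rfl
  have hy : ∀ k, ∑ m, (y k m : ℂ) • A.lat m =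
      -(B k).mulVec (∑ i, ((z i).re : ℂ) • om (Sum.inl i)) := by
    intro k
    rw [Matrix.mulVec_sum]
    simp only [Matrix.mulVec_smul, hX, Finset.smul_sum, smul_smul]
    rw [Finset.sum_comm, ← Finset.sum_neg_distrib]
    refine Finset.sum_congr rfl fun m _ => ?_
    rw [← Finset.sum_smul, ← neg_smul]
    congr 1
    simp only [y]
    push_cast
    rfl
  have hxy : ∀ k, ∑ m, (y k m : ℂ) • A.lat m = Complex.I • ∑ m, (x k m : ℂ) • A.lat m := by
    intro k
    rw [hx, hy, ← Matrix.mulVec_smul, ← Matrix.mulVec_neg]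
    congr 1
    have h1 : ∑ i, ((z i).re : ℂ) • om (Sum.inl i) +
        Complex.I • ∑ i, ((z i).im : ℂ) • om (Sum.inl i) = 0 := by
      rw [← hz, Finset.smul_sum, ← Finset.sum_add_distrib]
      refine Finset.sum_congr rfl fun i _ => ?_
      rw [smul_smul, ← add_smul]
      congr 1
      rw [mul_comm]
      exact Complex.re_add_im (z i)
    exact neg_eq_of_add_eq_zero_right h1
  let ER : Matrix (U.Ix g) (U.Ix g) ℝ := A.E.map fun x => (x : ℝ)
  have hbil : ∀ u v : U.Ix g → ℝ, u ⬝ᵥ (ER *ᵥ v) = ∑ m, ∑ m', u m * (A.E m m' : ℝ) * v m' := by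
    intro u v
    simp only [dotProduct, Matrix.mulVec, Finset.mul_sum, ER, Matrix.map_apply]
    exact Finset.sum_congr rfl fun m _ => Finset.sum_congr rfl fun m' _ => by ring
  let XR : κ → ι ⊕ ι → U.Ix g → ℝ := fun k l m => (X k l m : ℝ)
  have hER : ∀ l l', ∑ k, (w k : ℝ) * (XR k l ⬝ᵥ (ER *ᵥ XR k l')) = ((sy l l' : ℤ) : ℝ) := by
    intro l l'
    have h2 := congrArg (fun q : ℚ => (q : ℝ)) (hE l l')
    push_cast at h2
    rw [← h2]
    refine Finset.sum_congr rfl fun k _ => ?_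
    rw [hbil]
  have hx' : ∀ k, x k = ∑ i, (z i).im • XR k (Sum.inl i) := by
    intro k
    funext m
    simp [x, XR, Finset.sum_apply]
  have hy' : ∀ k, y k = ∑ i, (-(z i).re) • XR k (Sum.inl i) := by
    intro k
    funext m
    simp only [y, XR, Finset.sum_apply, Pi.smul_apply, smul_eq_mul]
    rw [← Finset.sum_neg_distrib]
    exact Finset.sum_congr rfl fun i _ => by ring
  have hsum : ∀ (l' : ι ⊕ ι), ∑ k, (w k : ℝ) * (x k ⬝ᵥ (ER *ᵥ XR k l')) =
        ∑ i, (z i).im * ((sy (Sum.inl i) l' : ℤ) : ℝ) := by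
    intro l'
    simp only [hx', sum_dotProduct, smul_dotProduct, smul_eq_mul, Finset.mul_sum]
    rw [Finset.sum_comm]
    refine Finset.sum_congr rfl fun i _ => ?_
    rw [← hER, Finset.mul_sum]
    exact Finset.sum_congr rfl fun k _ => by ring
  have hsum2 : ∑ k, (w k : ℝ) * (x k ⬝ᵥ (ER *ᵥ y k)) = 0 := by
    have h1 : ∀ k, x k ⬝ᵥ (ER *ᵥ y k) = ∑ j, (-(z j).re) * (x k ⬝ᵥ (ER *ᵥ XR k (Sum.inl j))) := by
      intro k
      rw [hy', Matrix.mulVec_sum, dotProduct_sum]
      refine Finset.sum_congr rfl fun j _ => ?_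
      rw [Matrix.mulVec_smul, dotProduct_smul, smul_eq_mul]
    simp only [h1, Finset.mul_sum]
    rw [Finset.sum_comm]
    refine Finset.sum_eq_zero fun j _ => ?_
    have h2 := hsum (Sum.inl j)
    have h3 : ∑ i, (z i).im * ((sy (Sum.inl i) (Sum.inl j) : ℤ) : ℝ) = 0 := by
      refine Finset.sum_eq_zero fun i _ => ?_
      simp [sy]
    rw [h3] at h2
    have h4 : ∑ k, (w k : ℝ) * (-(z j).re * (x k ⬝ᵥ (ER *ᵥ XR k (Sum.inl j)))) =
        -(z j).re * ∑ k, (w k : ℝ) * (x k ⬝ᵥ (ER *ᵥ XR k (Sum.inl j))) := by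
      rw [Finset.mul_sum]
      exact Finset.sum_congr rfl fun k _ => by ring
    rw [h4, h2, mul_zero]
  -- positivity
  have hpos : ∀ k, x k ≠ 0 → 0 < x k ⬝ᵥ (ER *ᵥ y k) := by
    intro k hk
    rw [hbil]
    exact hA.pos (x k) (y k) hk (hxy k)
  have hwR : ∀ k, (0 : ℝ) < w k := fun k => by exact_mod_cast hw k
  have hx0 : ∀ k, x k = 0 := by
    by_contra hcon
    push Not at hcon
    obtain ⟨k0, hk0⟩ := hcon
    have h1 : 0 < ∑ k, (w k : ℝ) * (x k ⬝ᵥ (ER *ᵥ y k)) := by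
      refine Finset.sum_pos' (fun k _ => ?_) ⟨k0, Finset.mem_univ _, mul_pos (hwR k0) (hpos k0 hk0)⟩
      by_cases hk : x k = 0
      · rw [hk, zero_dotProduct, mul_zero]
      · exact (mul_pos (hwR k) (hpos k hk)).le
    exact absurd hsum2 h1.ne'
  have him : ∀ j, (z j).im = 0 := by
    intro j
    have h1 := hsum (Sum.inr j)
    have h2 : ∑ k, (w k : ℝ) * (x k ⬝ᵥ (ER *ᵥ XR k (Sum.inr j))) = 0 := by
      refine Finset.sum_eq_zero fun k _ => ?_
      rw [hx0 k, zero_dotProduct, mul_zero]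
    rw [h2] at h1
    simpa [sy] using h1.symm
  have hre : ∀ j, (z j).re = 0 := by
    have h1 : ∑ l, (Sum.elim (fun i => (z i).re) (fun _ => 0) l : ℝ) • om l = 0 := by
      rw [Fintype.sum_sum_type]
      simp only [Sum.elim_inl, Sum.elim_inr, zero_smul, Finset.sum_const_zero, add_zero]
      rw [← hz]
      refine Finset.sum_congr rfl fun i _ => ?_
      rw [← Complex.coe_smul]
      congr 1
      apply Complex.ext
      · simp
      · simp [him i]
    have h2 := Fintype.linearIndependent_iff.1 hom _ h1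
    intro j
    exact h2 (Sum.inl j)
  intro i
  exact Complex.ext (hre i) (him i)

theorem vq_sum {Z I Λ κ : Type} [Fintype Λ] (D : TH Z I Λ) (S : Finset κ) (x : κ → ℚ)
    (b : κ → Λ → ℚ) : vq D (∑ k ∈ S, x k • b k) = ∑ k ∈ S, ((x k : ℚ) : ℂ) • vq D (b k) := by
  unfold vq
  simp only [Finset.smul_sum, smul_smul]
  rw [Finset.sum_comm]
  refine Finset.sum_congr rfl fun l _ => ?_
  rw [← Finset.sum_smul]
  congr 1
  simp only [Finset.sum_apply, Pi.smul_apply, smul_eq_mul]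
  push_cast
  rfl

theorem aq_sum {Z I Λ κ : Type} [Fintype Λ] (D : TH Z I Λ) (S : Finset κ) (x : κ → ℚ)
    (b : κ → Λ → ℚ) : aq D (∑ k ∈ S, x k • b k) = ∑ k ∈ S, ((x k : ℚ) : ℂ) • aq D (b k) := by
  unfold aq
  simp only [Finset.smul_sum, smul_smul]
  rw [Finset.sum_comm]
  refine Finset.sum_congr rfl fun l _ => ?_
  rw [← Finset.sum_smul]
  congr 1
  simp only [Finset.sum_apply, Pi.smul_apply, smul_eq_mul]
  push_cast
  rfl

/-- bilinearity of `pr` -/
theorem pr_sum2 {Z I Λ κ : Type} [Fintype Λ] [Fintype κ] (D : TH Z I Λ) (x y : κ → ℚ)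
    (b : κ → Λ → ℚ) : pr D (∑ k, x k • b k) (∑ k, y k • b k) =
      ∑ k, ∑ l, ((x k : ℚ) : ℂ) * ((y l : ℚ) : ℂ) * pr D (b k) (b l) := by
  have h1 : ∀ x y : κ → ℚ, aq D (∑ k, x k • b k) (vq D (∑ k, y k • b k)) =
      ∑ k, ∑ l, ((x k : ℚ) : ℂ) * ((y l : ℚ) : ℂ) * aq D (b k) (vq D (b l)) := by
    intro x y
    rw [aq_sum, vq_sum, LinearMap.sum_apply]
    refine Finset.sum_congr rfl fun k _ => ?_
    rw [LinearMap.smul_apply, map_sum, smul_eq_mul, Finset.mul_sum]
    refine Finset.sum_congr rfl fun l _ => ?_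
    rw [map_smul, smul_eq_mul]
    ring
  unfold pr
  rw [h1, h1]
  have h2 : ∑ k, ∑ l, ((y k : ℚ) : ℂ) * ((x l : ℚ) : ℂ) * aq D (b k) (vq D (b l)) =
      ∑ k, ∑ l, ((x k : ℚ) : ℂ) * ((y l : ℚ) : ℂ) * aq D (b l) (vq D (b k)) := by
    rw [Finset.sum_comm]
    refine Finset.sum_congr rfl fun k _ => Finset.sum_congr rfl fun l _ => ?_
    ring
  rw [h2, ← Finset.sum_sub_distrib, Finset.sum_div]
  refine Finset.sum_congr rfl fun k _ => ?_
  rw [← Finset.sum_sub_distrib, Finset.sum_div]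
  refine Finset.sum_congr rfl fun l _ => ?_
  ring

/-- the `b k` are independent -/
theorem b_indep {Z I Λ ι : Type} [Fintype Λ] [Fintype ι] [DecidableEq ι] (D : TH Z I Λ)
    (b : ι ⊕ ι → Λ → ℚ) (hb : ∀ k l, pr D (b k) (b l) = Real.pi * Complex.I * (sy k l : ℤ)) :
    LinearIndependent ℚ b := by
  rw [Fintype.linearIndependent_iff]
  intro x hx
  have hpi : (Real.pi : ℂ) * Complex.I ≠ 0 :=
    mul_ne_zero (by exact_mod_cast Real.pi_ne_zero) Complex.I_ne_zero
  have h1 : ∀ y : ι ⊕ ι → ℚ, ∑ k, ∑ l, ((x k : ℚ) : ℂ) * ((y l : ℚ) : ℂ) *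
      (Real.pi * Complex.I * ((sy k l : ℤ) : ℂ)) = 0 := by
    intro y
    have h2 := pr_sum2 D x y b
    simp only [hb] at h2
    rw [← h2, hx]
    simp [pr, aq, vq]
  have h3 : ∀ l, ∑ k, x k * ((sy k l : ℤ) : ℚ) = 0 := by
    intro l
    have h4 := h1 (Pi.single l 1)
    have h5 : ∀ k, ∑ l', ((x k : ℚ) : ℂ) * (((Pi.single l 1 : ι ⊕ ι → ℚ) l' : ℚ) : ℂ) *
        (Real.pi * Complex.I * ((sy k l' : ℤ) : ℂ)) =
        (Real.pi * Complex.I) * ((x k * ((sy k l : ℤ) : ℚ) : ℚ) : ℂ) := by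
      intro k
      rw [Finset.sum_eq_single l]
      · rw [Pi.single_eq_same]
        push_cast
        ring
      · intro l' _ hl'
        rw [Pi.single_eq_of_ne hl']
        simp
      · intro h
        exact absurd (Finset.mem_univ _) h
    simp only [h5] at h4
    rw [← Finset.mul_sum] at h4
    rcases mul_eq_zero.1 h4 with h | h
    · exact absurd h hpi
    · exact_mod_cast h
  intro k
  rcases k with i | i
  · have h4 := h3 (Sum.inr i)
    simpa [sy] using h4
  · have h4 := h3 (Sum.inl i)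
    simpa [sy] using h4

end THFM

open THFM in
/-- **THF.** -/
theorem specTHF (hTHE : SpecTHE) (hUOP : SpecUOP) : SpecTHF := by
  intro K g N A hK hA ι κ _ _ _ B hB w hw om X hX hE a ha c M hM hc Theta hTd hT0 hTa
  classical
  -- base data
  obtain ⟨hom, I, Λ, _, _, D, hD, hDA, hDL, t, htv, -, htp⟩ := baseI hK A hA om B hB
    (fun l k => X k l) (fun l k => hX k l) w hw (fun l m => by rw [sy_eq, ← hE])
  have hcom := c_indep A hA B w hw om X hX hE hom
  let e := Fintype.equivFin ι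
  let σ : Fin (Fintype.card ι) ⊕ Fin (Fintype.card ι) → ι ⊕ ι := Sum.map e.symm e.symm
  let σ' : ι ⊕ ι ≃ Fin (Fintype.card ι) ⊕ Fin (Fintype.card ι) := Equiv.sumCongr e e
  have hσσ : ∀ k, σ' (σ k) = k := by
    intro k
    rcases k with i | i <;> simp [σ, σ']
  have hσσ' : ∀ k, σ (σ' k) = k := by
    intro k
    rcases k with i | i <;> simp [σ, σ']
  let b : Fin (Fintype.card ι) ⊕ Fin (Fintype.card ι) → Λ → ℚ := fun k => t (σ k)
  have hbv : ∀ k, vq D.toTH (b k) = BaseIM.Re ι (om (σ k)) := fun k => htv _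
  have hbp : ∀ k l, pr D.toTH (b k) (b l) = Real.pi * Complex.I * (sy k l : ℤ) := by
    intro k l
    show pr D.toTH (t (σ k)) (t (σ l)) = _
    rw [htp, sy_eq]
    have h1 : sy (σ k) (σ l) = sy k l := sy_map e.symm e.symm.injective k l
    rw [h1]
    push_cast
    rfl
  have hbi := b_indep D.toTH b hbp
  obtain ⟨hspan, -, -⟩ := hUOP.2.2 D.toTH hD.good b hbp
  have htop : ⊤ ≤ Submodule.span ℚ (Set.range b) := by
    intro s _
    obtain ⟨x, hx⟩ := hspan s
    rw [hx]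
    exact Submodule.sum_mem _ fun k _ =>
      Submodule.smul_mem _ _ (Submodule.subset_span ⟨k, rfl⟩)
  let Bb : Module.Basis (Fin (Fintype.card ι) ⊕ Fin (Fintype.card ι)) ℚ (Λ → ℚ) :=
    Module.Basis.mk hbi htop
  have hBb : ∀ k, Bb k = b k := fun k => by
    show Module.Basis.mk hbi htop k = _
    rw [Module.Basis.mk_apply]
  have hrep : ∀ s : Λ → ℚ, s = ∑ k, Bb.repr s k • b k := by
    intro s
    conv_lhs => rw [← Bb.sum_repr s]
    exact Finset.sum_congr rfl fun k _ => by rw [hBb]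
  -- the linear forms
  let a0 : Fin (Fintype.card ι) ⊕ Fin (Fintype.card ι) → (Fin (Fintype.card ι) → ℂ) →ₗ[ℂ] ℂ :=
    fun k => a (σ k) ∘ₗ (BaseIM.Re ι).symm.toLinearMap
  let a' : (Λ → ℚ) → ((Fin (Fintype.card ι) → ℂ) →ₗ[ℂ] ℂ) :=
    fun s => ∑ k, ((Bb.repr s k : ℚ) : ℂ) • a0 k
  have hsum : ∀ x : Fin (Fintype.card ι) ⊕ Fin (Fintype.card ι) → ℚ,
      a' (∑ k, x k • b k) = ∑ k, ((x k : ℚ) : ℂ) • a0 k := by
    intro x
    have h1 : ∀ k, Bb.repr (∑ k, x k • b k) k = x k := by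
      intro k
      have h2 : ∑ k, x k • b k = ∑ k, x k • Bb k :=
        Finset.sum_congr rfl fun k _ => by rw [hBb]
      rw [h2, Bb.repr_sum_self]
    show ∑ k, ((Bb.repr (∑ k, x k • b k) k : ℚ) : ℂ) • a0 k = _
    exact Finset.sum_congr rfl fun k _ => by rw [h1]
  have hab : ∀ k, a' (b k) = a0 k := by
    intro k
    have h1 : b k = ∑ l, (Pi.single k 1 : _ → ℚ) l • b l := by
      rw [Finset.sum_eq_single k]
      · simp
      · intro l _ hl
        rw [Pi.single_eq_of_ne hl, zero_smul]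
      · intro h
        exact absurd (Finset.mem_univ _) h
    conv_lhs => rw [h1]
    rw [hsum, Finset.sum_eq_single k]
    · simp
    · intro l _ hl
      rw [Pi.single_eq_of_ne hl]
      simp
    · intro h
      exact absurd (Finset.mem_univ _) h
  have ha1 : ∀ s s', a' (s + s') = a' s + a' s' := by
    intro s s'
    show ∑ k, ((Bb.repr (s + s') k : ℚ) : ℂ) • a0 k = _
    rw [map_add, ← Finset.sum_add_distrib]
    refine Finset.sum_congr rfl fun k _ => ?_
    rw [← add_smul, Finsupp.add_apply]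
    push_cast
    rfl
  have ha2 : ∀ (q : ℚ) s, a' (q • s) = (q : ℂ) • a' s := by
    intro q s
    show ∑ k, ((Bb.repr (q • s) k : ℚ) : ℂ) • a0 k = _
    rw [map_smul, Finset.smul_sum]
    refine Finset.sum_congr rfl fun k _ => ?_
    rw [smul_smul, Finsupp.smul_apply, smul_eq_mul]
    push_cast
    rfl
  have ha0 : ∀ k l, a0 k (vq D.toTH (b l)) - a0 l (vq D.toTH (b k)) =
      2 * pr D.toTH (b k) (b l) := by
    intro k l
    have h1 : ∀ k l, a0 k (vq D.toTH (b l)) = a (σ k) (om (σ l)) := by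
      intro k l
      show a (σ k) ((BaseIM.Re ι).symm (vq D.toTH (b l))) = _
      rw [hbv, LinearEquiv.symm_apply_apply]
    rw [h1, h1, ha, hbp]
    have h2 : sy (σ k) (σ l) = sy k l := sy_map e.symm e.symm.injective k l
    rw [h2]
    ring
  have ha3 : ∀ s s', (a' s (vq D.toTH s') - a' s' (vq D.toTH s)) / 2 = pr D.toTH s s' := by
    intro s s'
    have h1 : ∀ x y : Fin (Fintype.card ι) ⊕ Fin (Fintype.card ι) → ℚ,
        a' (∑ k, x k • b k) (vq D.toTH (∑ k, y k • b k)) =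
        ∑ k, ∑ l, ((x k : ℚ) : ℂ) * ((y l : ℚ) : ℂ) * a0 k (vq D.toTH (b l)) := by
      intro x y
      rw [hsum, vq_sum, LinearMap.sum_apply]
      refine Finset.sum_congr rfl fun k _ => ?_
      rw [LinearMap.smul_apply, map_sum, smul_eq_mul, Finset.mul_sum]
      refine Finset.sum_congr rfl fun l _ => ?_
      rw [map_smul, smul_eq_mul]
      ring
    rw [hrep s, hrep s', h1, h1, pr_sum2]
    have h2 : ∑ k, ∑ l, ((Bb.repr s' k : ℚ) : ℂ) * ((Bb.repr s l : ℚ) : ℂ) *
        a0 k (vq D.toTH (b l)) = ∑ k, ∑ l, ((Bb.repr s k : ℚ) : ℂ) * ((Bb.repr s' l : ℚ) : ℂ) *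
        a0 l (vq D.toTH (b k)) := by
      rw [Finset.sum_comm]
      refine Finset.sum_congr rfl fun k _ => Finset.sum_congr rfl fun l _ => ?_
      ring
    rw [h2, ← Finset.sum_sub_distrib, Finset.sum_div]
    refine Finset.sum_congr rfl fun k _ => ?_
    rw [← Finset.sum_sub_distrib, Finset.sum_div]
    refine Finset.sum_congr rfl fun l _ => ?_
    rw [← mul_sub, ha0]
    ring
  -- the theta function
  let RC : (ι → ℂ) ≃L[ℂ] (Fin (Fintype.card ι) → ℂ) := (BaseIM.Re ι).toContinuousLinearEquiv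
  have hRC : ∀ z, RC z = BaseIM.Re ι z := fun _ => rfl
  have hRCs : ∀ z, RC.symm z = (BaseIM.Re ι).symm z := fun _ => rfl
  let Th' : (Fin (Fintype.card ι) → ℂ) → ℂ := fun y => Theta (RC.symm y)
  have hTd' : Differentiable ℂ Th' := hTd.comp RC.symm.differentiable
  have hT0' : ∃ z, Th' z ≠ 0 := by
    obtain ⟨z, hz⟩ := hT0
    refine ⟨RC z, ?_⟩
    show Theta (RC.symm (RC z)) ≠ 0
    rw [ContinuousLinearEquiv.symm_apply_apply]
    exact hz
  have hTa' : ∀ k z, Th' (z + vq D.toTH (b k)) = c (σ k) *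
      Complex.exp (a' (b k) z + a' (b k) (vq D.toTH (b k)) / 2) * Th' z := by
    intro k z
    show Theta (RC.symm (z + vq D.toTH (b k))) = _
    rw [map_add, hbv, hRCs (BaseIM.Re ι (om (σ k))), LinearEquiv.symm_apply_apply, hTa, hab]
    have h1 : a0 k (BaseIM.Re ι (om (σ k))) = a (σ k) (om (σ k)) := by
      show a (σ k) ((BaseIM.Re ι).symm (BaseIM.Re ι (om (σ k)))) = _
      rw [LinearEquiv.symm_apply_apply]
    rw [h1]
    rfl
  have hci : LinearIndependent ℂ fun i => vq D.toTH (b (Sum.inl i)) := by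
    have h1 : LinearIndependent ℂ fun i : Fin (Fintype.card ι) => om (Sum.inl (e.symm i)) :=
      hcom.comp _ e.symm.injective
    have h2 := h1.map' (BaseIM.Re ι).toLinearMap (by
      rw [LinearMap.ker_eq_bot]
      exact (BaseIM.Re ι).injective)
    have h3 : (fun i => vq D.toTH (b (Sum.inl i))) =
        ((BaseIM.Re ι).toLinearMap ∘ fun i : Fin (Fintype.card ι) => om (Sum.inl (e.symm i))) := by
      funext i
      rw [hbv]
      rfl
    rw [h3]
    exact h2
  obtain ⟨Om, hOm, hmain⟩ := hTHE D hD hDA hDL b hbp hci a' ha1 ha2 ha3 (fun k => c (σ k)) M hM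
    (fun k => hc _) Th' hTd' hT0' hTa'
  refine ⟨Om, hOm, ?_⟩
  intro x ot ft hot hft
  let s : Λ → ℚ := ∑ k, x (σ k) • b k
  have hvs : vq D.toTH s = BaseIM.Re ι ot := by
    show vq D.toTH (∑ k, x (σ k) • b k) = _
    rw [vq_sum, hot, map_sum]
    simp only [hbv, map_smul]
    rw [← Equiv.sum_comp σ' (fun k => ((x (σ k) : ℚ) : ℂ) • BaseIM.Re ι (om (σ k)))]
    exact Finset.sum_congr rfl fun k _ => by rw [hσσ']
  have has : ∀ z, a' s z = ft ((BaseIM.Re ι).symm z) := by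
    intro z
    show a' (∑ k, x (σ k) • b k) z = _
    rw [hsum, hft, LinearMap.sum_apply, LinearMap.sum_apply]
    rw [← Equiv.sum_comp σ' (fun k => (((x (σ k) : ℚ) : ℂ) • a0 k) z)]
    refine Finset.sum_congr rfl fun k _ => ?_
    show ((x (σ (σ' k)) : ℚ) : ℂ) • (a (σ (σ' k))) ((BaseIM.Re ι).symm z) = _
    rw [hσσ']
    rfl
  have hss : a' s (vq D.toTH s) = ft ot := by
    rw [has, hvs, LinearEquiv.symm_apply_apply]
  obtain ⟨h1, h2⟩ := hmain s
  constructor
  · rw [hss] at h1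
    have h3 : Th' (vq D.toTH s) = Theta ot := by
      show Theta (RC.symm (vq D.toTH s)) = _
      rw [hvs, hRCs, LinearEquiv.symm_apply_apply]
    rw [h3] at h1
    exact h1
  · intro v hv
    have h3 := h2 (RC v) (fun j => hv _)
    have h4 : (fun z => Complex.exp (-(ft z) - ft ot / 2) * Theta (z + ot)) =
        (fun z => Complex.exp (-(a' s z) - a' s (vq D.toTH s) / 2) *
          Th' (z + vq D.toTH s)) ∘ RC := by
      funext z
      show _ = Complex.exp (-(a' s (RC z)) - a' s (vq D.toTH s) / 2) *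
          Theta (RC.symm (RC z + vq D.toTH s))
      rw [hss, has, map_add, ContinuousLinearEquiv.symm_apply_apply, hvs, hRCs,
        LinearEquiv.symm_apply_apply, hRC, LinearEquiv.symm_apply_apply]
    rw [h4, ContinuousLinearEquiv.comp_right_fderiv]
    show fderiv ℂ (fun z => Complex.exp (-(a' s z) - a' s (vq D.toTH s) / 2) *
          Th' (z + vq D.toTH s)) (RC 0) (RC v) / Om ∈ Qbar
    rw [map_zero]
    exact h3

end Pool.Agent.Lib.MPf11a48.SH
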