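import Pool.Agent.Lib.MP_f11a48_ag.SH.Spec
import Pool.Agent.Lib.MP_f11a48_ag.SH.EThf

/-!
# Project S0, part (e): `SpecEP` from `SpecTHF`
-/

set_option autoImplicit false

open Matrix
open Pool.Agent.Lib.MPf11a48.CM hiding OmegaM
open Pool.Agent.Lib.MPf11a48.GL2T
open Pool.Agent.Lib.MPf11a48.U
open Pool.Agent.Lib.MPf11a48.CMS

namespace Pool.Agent.Lib.MPf11a48.SH

namespace EPM

theorem syC {ι : Type} [DecidableEq ι] (k l : ι ⊕ ι) :
    (Matrix.fromBlocks 0 1 (-1) 0 : Matrix (ι ⊕ ι) (ι ⊕ ι) ℂ) k l = ((sy k l : ℤ) : ℂ) := by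
  rcases k with i | i <;> rcases l with j | j <;>
    simp [sy, Matrix.one_apply, apply_ite]

theorem syQ {ι : Type} [DecidableEq ι] (k l : ι ⊕ ι) :
    (Matrix.fromBlocks 0 1 (-1) 0 : Matrix (ι ⊕ ι) (ι ⊕ ι) ℚ) k l = ((sy k l : ℤ) : ℚ) := by
  rcases k with i | i <;> rcases l with j | j <;>
    simp [sy, Matrix.one_apply, apply_ite]

theorem vecR_single {ι Λ : Type} [Fintype Λ] [DecidableEq Λ] (ω : Λ → ι → ℂ) (l : Λ) :
    vecR ω (fun l' => ((Pi.single l 1 : Λ → ℤ) l' : ℚ)) = ω l := by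
  unfold vecR
  rw [Finset.sum_eq_single l]
  · simp
  · intro b _ hb
    simp [Pi.single_eq_of_ne hb]
  · intro h
    exact absurd (Finset.mem_univ _) h

theorem linR_single {ι Λ : Type} [Fintype Λ] [DecidableEq Λ] (a : Λ → (ι → ℂ) →ₗ[ℂ] ℂ) (l : Λ) :
    linR a (fun l' => ((Pi.single l 1 : Λ → ℤ) l' : ℚ)) = a l := by
  unfold linR
  rw [Finset.sum_eq_single l]
  · simp
  · intro b _ hb
    simp [Pi.single_eq_of_ne hb]
  · intro h
    exact absurd (Finset.mem_univ _) h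

end EPM

open EPM in
/-- **EP.** -/
theorem specEP_of (hTHF : SpecTHF) : SpecEP := by
  intro L g N A hL hA ι _ _ ω a Θ hΘ k _ P B w hP hw hPB hE
  classical
  obtain ⟨M, χ, hM, hχ, haut⟩ := hΘ.aut
  obtain ⟨Om, hOm, h⟩ := hTHF L A hL hA (κ := k) P (fun j r s => hP j r s) w hw ω
    (fun j l m => B j l m) (fun j l => hPB j l) (fun l l' => by
      have h1 := congrFun (congrFun hE l) l'
      rw [syQ] at h1
      rw [← h1, Matrix.sum_apply]
      refine Finset.sum_congr rfl fun j _ => ?_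
      rw [Matrix.smul_apply, smul_eq_mul]
      congr 1
      simp only [Matrix.mul_apply, Matrix.transpose_apply, Matrix.map_apply, Finset.sum_mul]
      rw [Finset.sum_comm]) a
    (fun l l' => by rw [hΘ.riemann, syC]) (fun l => χ (Pi.single l 1)) M hM (fun l => hχ _) Θ
    hΘ.diff hΘ.ne (fun l z => by
      have h1 := haut (Pi.single l 1) z
      rw [vecR_single, linR_single] at h1
      exact h1)
  refine ⟨Om, hOm, fun x => ?_⟩
  obtain ⟨h1, h2⟩ := h x (vecR ω x) (linR a x) rfl rfl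
  constructor
  · have h3 : TT ω a Θ x 0 =
        Complex.exp (-((linR a x) (vecR ω x)) / 2) * Θ (vecR ω x) := by
      unfold TT
      rw [map_zero, zero_add]
      congr 2
      ring
    rw [h3]
    exact h1
  · intro v hv
    exact h2 v hv

end Pool.Agent.Lib.MPf11a48.SH
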