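import Pool.Agent.Lib.MP_f11a48_ag.SH.EBSpec
import Pool.Agent.Lib.MP_f11a48_ag.SH.TH.Uni

/-!
# MP_f11a48_ag, project S0, part (e), module FOU (helper12)

Fourier series: an entire function with the automorphy factor of a principal lattice is zero if its
integral over the real torus is zero. The tools are those of `SH/TH`.
-/

set_option autoImplicit false

open Filter Topology Metric Complex Finset MeasureTheory

open scoped Real

namespace Pool.Agent.Lib.MPf11a48.SH

namespace FOUM

variable {ι : Type} [Fintype ι]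

/-- the average is the integral over the closed unit cube -/
theorem A_zero_eq (F : (ι → ℂ) → ℂ) :
    TH.A F 0 = ∫ x in Set.Icc (0 : ι → ℝ) 1, F (fun i => (x i : ℂ)) := by
  have h1 : (TH.box ι) = Set.pi Set.univ fun i => Set.Ioc ((0 : ι → ℝ) i) ((1 : ι → ℝ) i) := by
    ext x
    simp [TH.box]
  have h2 : (TH.box ι) =ᵐ[volume] Set.Icc (0 : ι → ℝ) 1 := by
    rw [h1, volume_pi]
    exact Measure.univ_pi_Ioc_ae_eq_Icc
  rw [TH.A, TH.av, setIntegral_congr_set h2]
  refine integral_congr_ae (Eventually.of_forall fun x => ?_)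
  show F (TH.rc x + 0) = F (TH.rc x)
  rw [add_zero]

/-- integral vectors are periods -/
theorem period [DecidableEq ι] (F : (ι → ℂ) → ℂ) (hp : ∀ i w, F (w + Pi.single i 1) = F w)
    (w : ι → ℂ) (b : ι → ℤ) : F (w + TH.ic b) = F w := by
  let S : AddSubgroup (ι → ℂ) :=
    { carrier := {v | ∀ w, F (w + v) = F w}
      add_mem' := by
        intro a b ha hb w
        rw [← add_assoc, hb, ha]
      zero_mem' := by
        intro w
        rw [add_zero]
      neg_mem' := by
        intro a ha w
        rw [← ha (w + -a), neg_add_cancel_right] }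
  have h1 : TH.ic b ∈ S := by
    have h2 : (TH.ic b : ι → ℂ) = ∑ i, b i • Pi.single i (1 : ℂ) := by
      funext j
      simp [TH.ic, Finset.sum_apply, Pi.single_apply]
    rw [h2]
    exact sum_mem fun i _ => zsmul_mem (show (Pi.single i 1 : ι → ℂ) ∈ S from hp i) _
  exact h1 w

/-- the factors of automorphy of the integral combinations -/
theorem factors [DecidableEq ι] (F : (ι → ℂ) → ℂ) (τ : ι → ι → ℂ) (c : ι → ℂ) (hc : ∀ j, c j ≠ 0)
    (hF : ∀ j w, F (w + τ j) = c j * cexp (-(2 * π * I * w j)) * F w) (n : ι → ℤ) :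
    ∃ (v : ι → ℂ) (C : ℂ), C ≠ 0 ∧
      ∀ w, F (w + v) = C * cexp (-(2 * π * I * ∑ i, (n i : ℂ) * w i)) * F w := by
  let S : AddSubgroup (ι → ℤ) :=
    { carrier := {n | ∃ (v : ι → ℂ) (C : ℂ), C ≠ 0 ∧
        ∀ w, F (w + v) = C * cexp (-(2 * π * I * ∑ i, (n i : ℂ) * w i)) * F w}
      add_mem' := by
        rintro n n' ⟨v, C, hC, h⟩ ⟨v', C', hC', h'⟩
        refine ⟨v + v', C * C' * cexp (-(2 * π * I * ∑ i, (n' i : ℂ) * v i)),
          mul_ne_zero (mul_ne_zero hC hC') (Complex.exp_ne_zero _), fun w => ?_⟩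
        rw [← add_assoc, h', h]
        have h1 : -(2 * π * I * ∑ i, (n' i : ℂ) * (w + v) i) =
            -(2 * π * I * ∑ i, (n' i : ℂ) * w i) + -(2 * π * I * ∑ i, (n' i : ℂ) * v i) := by
          have : ∑ i, (n' i : ℂ) * (w + v) i = ∑ i, (n' i : ℂ) * w i + ∑ i, (n' i : ℂ) * v i := by
            rw [← Finset.sum_add_distrib]
            refine Finset.sum_congr rfl fun i _ => ?_
            rw [Pi.add_apply]
            ring
          rw [this]
          ring
        have h2 : -(2 * π * I * ∑ i, ((n + n') i : ℂ) * w i) =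
            -(2 * π * I * ∑ i, (n i : ℂ) * w i) + -(2 * π * I * ∑ i, (n' i : ℂ) * w i) := by
          have : ∑ i, ((n + n') i : ℂ) * w i = ∑ i, (n i : ℂ) * w i + ∑ i, (n' i : ℂ) * w i := by
            rw [← Finset.sum_add_distrib]
            refine Finset.sum_congr rfl fun i _ => ?_
            rw [Pi.add_apply]
            push_cast
            ring
          rw [this]
          ring
        rw [h1, h2, Complex.exp_add, Complex.exp_add]
        ring
      zero_mem' := by
        refine ⟨0, 1, one_ne_zero, fun w => ?_⟩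
        simp
      neg_mem' := by
        rintro n ⟨v, C, hC, h⟩
        refine ⟨-v, C⁻¹ * cexp (-(2 * π * I * ∑ i, (n i : ℂ) * v i)),
          mul_ne_zero (inv_ne_zero hC) (Complex.exp_ne_zero _), fun w => ?_⟩
        have h1 := h (w + -v)
        rw [neg_add_cancel_right] at h1
        have h2 : -(2 * π * I * ∑ i, (n i : ℂ) * (w + -v) i) =
            -(2 * π * I * ∑ i, (n i : ℂ) * w i) + (2 * π * I * ∑ i, (n i : ℂ) * v i) := by
          have : ∑ i, (n i : ℂ) * (w + -v) i = ∑ i, (n i : ℂ) * w i - ∑ i, (n i : ℂ) * v i := by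
            rw [← Finset.sum_sub_distrib]
            refine Finset.sum_congr rfl fun i _ => ?_
            rw [Pi.add_apply, Pi.neg_apply]
            ring
          rw [this]
          ring
        have h3 : -(2 * π * I * ∑ i, ((-n) i : ℂ) * w i) =
            (2 * π * I * ∑ i, (n i : ℂ) * w i) := by
          have : ∑ i, ((-n) i : ℂ) * w i = -∑ i, (n i : ℂ) * w i := by
            rw [← Finset.sum_neg_distrib]
            refine Finset.sum_congr rfl fun i _ => ?_
            rw [Pi.neg_apply]
            push_cast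
            ring
          rw [this]
          ring
        rw [h1, h2, h3, Complex.exp_add, Complex.exp_neg, Complex.exp_neg]
        have h4 := Complex.exp_ne_zero (2 * π * I * ∑ i, (n i : ℂ) * w i)
        have h5 := Complex.exp_ne_zero (2 * π * I * ∑ i, (n i : ℂ) * v i)
        field_simp }
  have h1 : n ∈ S := by
    have h2 : n = ∑ i, n i • Pi.single i (1 : ℤ) := by
      funext j
      simp [Finset.sum_apply, Pi.single_apply]
    rw [h2]
    refine sum_mem fun j _ => zsmul_mem ?_ _
    refine ⟨τ j, c j, hc j, fun w => ?_⟩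
    rw [hF]
    congr 3
    simp [Pi.single_apply]
  exact h1

end FOUM

open FOUM in
/-- **FOU.** -/
theorem specFOU : SpecFOU := by
  intro ι _ _ F hF hper τ c hc hτ h0 u
  have hp : ∀ (w : ι → ℂ) (b : ι → ℤ), F (w + TH.ic b) = F w := period F hper
  have hA0 : TH.A F 0 = 0 := by rw [A_zero_eq, h0]
  let H : (ι → ℤ) → (ι → ℂ) → ℂ := fun n w => cexp (2 * π * I * ∑ i, (n i : ℂ) * w i) * F w
  have hHd : ∀ n, Differentiable ℂ (H n) := by
    intro n
    have : Differentiable ℂ fun w : ι → ℂ => 2 * π * I * ∑ i, (n i : ℂ) * w i := by fun_prop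
    exact this.cexp.mul hF
  have hHp : ∀ n (w : ι → ℂ) (b : ι → ℤ), H n (w + TH.ic b) = H n w := by
    intro n w b
    show cexp _ * F (w + TH.ic b) = cexp _ * F w
    rw [hp]
    congr 1
    have h1 : 2 * π * I * ∑ i, (n i : ℂ) * (w + TH.ic b) i =
        2 * π * I * ∑ i, (n i : ℂ) * w i + ((∑ i, n i * b i : ℤ) : ℂ) * (2 * π * I) := by
      have h2 : ∑ i, (n i : ℂ) * (w + TH.ic b) i =
          ∑ i, (n i : ℂ) * w i + ((∑ i, n i * b i : ℤ) : ℂ) := by
        push_cast
        rw [← Finset.sum_add_distrib]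
        refine Finset.sum_congr rfl fun i _ => ?_
        simp only [Pi.add_apply, TH.ic]
        ring
      rw [h2]
      ring
    rw [h1, Complex.exp_add, Complex.exp_int_mul_two_pi_mul_I, mul_one]
  -- the coefficients at `0`
  have hcoef : ∀ n, TH.A (H n) 0 = 0 := by
    intro n
    obtain ⟨v, C, hC, hv⟩ := factors F τ c hc hτ (-n)
    have h1 : TH.A F v = 0 := by rw [TH.A_const hF hp, hA0]
    have h2 : TH.A F v = C * TH.A (H n) 0 := by
      rw [TH.A, TH.A, TH.av, TH.av, ← integral_const_mul]
      refine integral_congr_ae (Eventually.of_forall fun x => ?_)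
      show F (TH.rc x + v) = C *
        (cexp (2 * π * I * ∑ i, (n i : ℂ) * (TH.rc x + 0 : ι → ℂ) i) * F (TH.rc x + 0))
      rw [hv, add_zero, ← mul_assoc]
      congr 3
      have h3 : ∑ i, ((-n) i : ℂ) * (TH.rc x : ι → ℂ) i = -∑ i, (n i : ℂ) * (TH.rc x : ι → ℂ) i := by
        rw [← Finset.sum_neg_distrib]
        refine Finset.sum_congr rfl fun i _ => ?_
        rw [Pi.neg_apply]
        push_cast
        ring
      rw [h3]
      ring
    rw [h1] at h2
    exact (mul_eq_zero.1 h2.symm).resolve_left hC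
  have h3 := TH.zero_of_av (fun x => F (TH.rc x + u)) (hF.continuous.comp (TH.rc_cont.add
    continuous_const)) (fun x n => by rw [TH.rc_add_int, add_right_comm, hp]) (fun n => by
      have h4 : TH.A (H n) u = 0 := by rw [TH.A_const (hHd n) (hHp n), hcoef]
      have h5 : TH.A (H n) u = cexp (2 * π * I * ∑ i, (n i : ℂ) * u i) *
          TH.av fun x => cexp (2 * π * I * ∑ i, (n i : ℂ) * (x i : ℂ)) * F (TH.rc x + u) := by
        rw [TH.A, TH.av, TH.av, ← integral_const_mul]
        refine integral_congr_ae (Eventually.of_forall fun x => ?_)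
        show cexp (2 * π * I * ∑ i, (n i : ℂ) * (TH.rc x + u) i) * F (TH.rc x + u) = _
        beta_reduce
        rw [← mul_assoc, ← Complex.exp_add]
        congr 2
        rw [← mul_add, ← Finset.sum_add_distrib]
        congr 1
        refine Finset.sum_congr rfl fun i _ => ?_
        simp only [Pi.add_apply, TH.rc]
        ring
      rw [h4] at h5
      exact (mul_eq_zero.1 h5.symm).resolve_left (Complex.exp_ne_zero _)) 0
  have h6 : (TH.rc 0 : ι → ℂ) + u = u := by
    funext i
    simp [TH.rc]
  rw [h6] at h3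
  exact h3

end Pool.Agent.Lib.MPf11a48.SH
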