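import Pool.Agent.Lib.MP_f11a48_ag.SH.ESpec

/-!
# MP_f11a48_ag, project S0, part (e): module FQA
-/

set_option autoImplicit false

open MvPolynomial Pool.Agent.Lib.MPf11a48.CM Filter Topology
open Pool.Agent.Lib.MPf11a48.AS Pool.Agent.Lib.MPf11a48.U.ConjM

namespace Pool.Agent.Lib.MPf11a48.SH

namespace FQAM

variable {β : ℕ} {I Λ : Type} [Fintype I] [Fintype Λ]

theorem analytic_f (D : QD β I Λ) (hD : D.Good) (i : I) {γ : Fin β → ℂ} (hγ : D.th D.o γ ≠ 0) :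
    AnalyticAt ℂ (D.f i) γ :=
  (Pool.Agent.Lib.MPf11a48.U.Osgood.analyticAt_of_differentiable (hD.good.diff i) γ).div
    (Pool.Agent.Lib.MPf11a48.U.Osgood.analyticAt_of_differentiable (hD.good.diff D.o) γ) hγ

theorem analytic_shift {F : (Fin β → ℂ) → ℂ} {γ : Fin β → ℂ} (h : AnalyticAt ℂ F γ) :
    AnalyticAt ℂ (fun z => F (γ + z)) 0 := by
  have h1 : AnalyticAt ℂ (fun z : Fin β → ℂ => γ + z) 0 := analyticAt_const.add analyticAt_id
  have h2 : AnalyticAt ℂ F (γ + 0) := by rwa [add_zero]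
  exact AnalyticAt.fun_comp (f := fun z : Fin β → ℂ => γ + z) (x := 0) h2 h1

theorem ev_ne (D : QD β I Λ) (hD : D.Good) {γ : Fin β → ℂ} (hγ : D.th D.o γ ≠ 0) :
    ∀ᶠ z in 𝓝 (0 : Fin β → ℂ), D.th D.o (γ + z) ≠ 0 := by
  have hc : Continuous fun z : Fin β → ℂ => D.th D.o (γ + z) :=
    (hD.good.diff D.o).continuous.comp (continuous_const.add continuous_id)
  refine hc.continuousAt.eventually_ne ?_
  rwa [add_zero]

theorem deriv_f (D : QD β I Λ) (hD : D.Good) (i : I) {γ : Fin β → ℂ} (hγ : D.th D.o γ ≠ 0)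
    (v : Fin β → ℂ) :
    (fun z => ∑ j, v j * eval (fun i => D.f i (γ + z)) (D.p i j)) =ᶠ[𝓝 0]
      fun z => fderiv ℂ (fun w => D.f i (γ + w)) z v := by
  filter_upwards [ev_ne D hD hγ] with z hz
  rw [fderiv_comp_add_left, CNJM.fderiv_f D hD i hz, CNJM.dv_X, map_sum]
  refine Finset.sum_congr rfl fun j _ => ?_
  rw [map_mul, eval_C]
  rfl

omit [Fintype I] in
theorem map_fix' {τ : ℂ ≃+* ℂ} (hτ : FixQ τ) (P : MvPolynomial I ℂ) (h : ∀ m, P.coeff m ∈ Qbar) :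
    MvPolynomial.map τ.toRingHom P = P :=
  CNJM.map_fix τ hτ P h

theorem cj_f (D : QD β I Λ) (hD : D.Good) (hA : D.Alg) {τ : ℂ ≃+* ℂ} (hτ : FixQ τ)
    {γ : Fin β → ℂ} (hγ : AlgPt D.toTH γ) (n : ℕ) :
    ∀ i, Cj τ n (fun z => D.f i (γ + z)) (fun z => D.f i (γ + z)) := by
  have h0 : ∀ i, AnalyticAt ℂ (fun z => D.f i (γ + z)) 0 ∧ AnalyticAt ℂ (fun z => D.f i (γ + z)) 0 ∧
      (fun z => D.f i (γ + z)) 0 = τ ((fun z => D.f i (γ + z)) 0) := by
    intro i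
    refine ⟨analytic_shift (analytic_f D hD i hγ.1), analytic_shift (analytic_f D hD i hγ.1), ?_⟩
    beta_reduce
    rw [add_zero]
    exact (hτ _ (hγ.2 i)).symm
  induction n with
  | zero => exact h0
  | succ n ih =>
    intro i
    refine ⟨h0 i, fun v => ?_⟩
    refine Cj.congr (deriv_f D hD i hγ.1 v) (deriv_f D hD i hγ.1 _) ?_
    refine Cj.sum _ fun j _ => ?_
    refine (Cj.const n (v j)).mul ?_
    have h := Cj.eval ih (D.p i j)
    rw [map_fix' hτ _ (hA.p_coeff i j)] at h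
    exact h

end FQAM

open FQAM in
theorem specFQA : SpecFQA := by
  intro β I Λ _ _ D hD hA γ hγ P hP τ hτ n
  have h := Cj.eval (cj_f D hD hA hτ hγ n) P
  rw [map_fix' hτ _ hP] at h
  exact h

end Pool.Agent.Lib.MPf11a48.SH
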