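import Pool.Agent.Lib.MP_f11a48_ag.SH.ESpec

/-!
# MP_f11a48_ag, project S0, part (e), module GEN: generic torsion points

The product of the translates of `th_o` is an entire function which is not `0` (`th_o(0) ≠ 0`), and the
points `vq s` are dense, as the lattice vectors are an `ℝ`-basis.
-/

set_option autoImplicit false

open MvPolynomial Pool.Agent.Lib.MPf11a48.CM Filter Topology
open Pool.Agent.Lib.MPf11a48.AS Pool.Agent.Lib.MPf11a48.U.ConjM

namespace Pool.Agent.Lib.MPf11a48.SH

namespace GENM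

section analytic

variable {E : Type} [NormedAddCommGroup E] [NormedSpace ℂ E]

/-- products of entire functions of one vector variable -/
theorem ent_mul [FiniteDimensional ℂ E] {F G : E → ℂ} (hF : Differentiable ℂ F)
    (hG : Differentiable ℂ G) (h : ∀ z, F z * G z = 0) : (∀ z, F z = 0) ∨ ∀ z, G z = 0 := by
  by_contra hc
  push Not at hc
  obtain ⟨⟨z₁, h₁⟩, z₂, h₂⟩ := hc
  let γ : ℂ → E := fun t => z₁ + t • (z₂ - z₁)
  have hγ : ∀ t, AnalyticAt ℂ γ t := by
    intro t
    exact analyticAt_const.add (analyticAt_id.smul analyticAt_const)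
  rcases AnalyticOnNhd.eq_zero_or_eq_zero_of_mul_eq_zero (U := Set.univ)
    (f := fun t => F (γ t)) (g := fun t => G (γ t))
    (fun t _ => (U.Osgood.analyticAt_of_differentiable hF (γ t)).comp (hγ t))
    (fun t _ => (U.Osgood.analyticAt_of_differentiable hG (γ t)).comp (hγ t))
    (fun t _ => h (γ t)) isPreconnected_univ with h5 | h5
  · apply h₁
    have h6 := h5 0 trivial
    have h7 : γ 0 = z₁ := by
      show z₁ + (0 : ℂ) • (z₂ - z₁) = z₁
      rw [zero_smul, add_zero]
    rw [h7] at h6
    exact h6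
  · apply h₂
    have h7 : γ 1 = z₂ := by
      show z₁ + (1 : ℂ) • (z₂ - z₁) = z₂
      rw [one_smul, add_sub_cancel]
    have h6 := h5 1 trivial
    rw [h7] at h6
    exact h6

theorem diff_prod {ι : Type} (s : Finset ι) (F : ι → E → ℂ) (hF : ∀ i, Differentiable ℂ (F i)) :
    Differentiable ℂ fun z => ∏ i ∈ s, F i z := by
  classical
  induction s using Finset.induction_on with
  | empty => simp
  | insert a s ha ih =>
    simp only [Finset.prod_insert ha]
    exact (hF a).mul ih

theorem ent_prod [FiniteDimensional ℂ E] {ι : Type} (s : Finset ι) (F : ι → E → ℂ)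
    (hF : ∀ i, Differentiable ℂ (F i)) (h : ∀ z, ∏ i ∈ s, F i z = 0) :
    ∃ i ∈ s, ∀ z, F i z = 0 := by
  classical
  induction s using Finset.induction_on with
  | empty => exact absurd (h 0) (by simp)
  | insert a s ha ih =>
    have hd : Differentiable ℂ fun z => ∏ i ∈ s, F i z := diff_prod s F hF
    rcases ent_mul (hF a) hd (fun z => by rw [← h z, Finset.prod_insert ha]) with h1 | h1
    · exact ⟨a, Finset.mem_insert_self _ _, h1⟩
    · obtain ⟨i, hi, h2⟩ := ih h1
      exact ⟨i, Finset.mem_insert_of_mem hi, h2⟩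

end analytic

section

variable {Z I Λ : Type} [Fintype Z] [Fintype I] [Fintype Λ] {D : TH Z I Λ}

omit [Fintype Z] [Fintype I] in
theorem vq_add (s t : Λ → ℚ) : vq D (s + t) = vq D s + vq D t := by
  unfold vq
  rw [← Finset.sum_add_distrib]
  refine Finset.sum_congr rfl fun l _ => ?_
  rw [Pi.add_apply, Rat.cast_add, add_smul]

/-- the point with the real coordinates `x` -/
noncomputable def pt (D : TH Z I Λ) (x : Λ → ℝ) : Z → ℂ := ∑ l, ((x l : ℝ) : ℂ) • D.lat l

omit [Fintype Z] [Fintype I] in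
theorem pt_rat (s : Λ → ℚ) : pt D (fun l => ((s l : ℚ) : ℝ)) = vq D s := by
  unfold pt vq
  refine Finset.sum_congr rfl fun l _ => ?_
  rw [Complex.ofReal_ratCast]

omit [Fintype Z] [Fintype I] in
theorem pt_cont : Continuous (pt D) := by
  unfold pt
  refine continuous_finsetSum _ fun l _ => ?_
  exact (Complex.continuous_ofReal.comp (continuous_apply l)).smul continuous_const

/-- every point has real coordinates -/
theorem pt_surj (hD : D.Good) (z : Z → ℂ) : ∃ x : Λ → ℝ, pt D x = z := by
  have hf : Fintype.card Λ = Module.finrank ℝ (Z → ℂ) := by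
    rw [hD.card, Module.finrank_pi_fintype]
    simp [Complex.finrank_real_complex, mul_comm]
  have h1 : z ∈ Submodule.span ℝ (Set.range D.lat) := by
    rw [hD.indep.span_eq_top_of_card_eq_finrank' hf]
    exact Submodule.mem_top
  obtain ⟨c, hc⟩ := (Submodule.mem_span_range_iff_exists_fun ℝ).1 h1
  refine ⟨c, ?_⟩
  rw [← hc]
  unfold pt
  refine Finset.sum_congr rfl fun l _ => ?_
  rw [Complex.coe_smul]

end

end GENM

open GENM in
/-- **GEN** -/
theorem specGEN : SpecGEN := by
  intro Z I Λ _ _ _ D hD T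
  -- the product is not identically zero
  have h1 : ∃ z, ∏ t ∈ T, D.th D.o (z + vq D t) ≠ 0 := by
    by_contra hc
    push Not at hc
    obtain ⟨t, -, ht⟩ := ent_prod T (fun t z => D.th D.o (z + vq D t))
      (fun t => (hD.diff D.o).comp (differentiable_id.add_const (vq D t))) hc
    have h2 := ht (-vq D t)
    beta_reduce at h2
    rw [neg_add_cancel] at h2
    exact hD.zero h2
  obtain ⟨z₁, hz₁⟩ := h1
  obtain ⟨x₁, hx₁⟩ := pt_surj hD z₁
  have hcont : Continuous fun x : Λ → ℝ => ∏ t ∈ T, D.th D.o (pt D x + vq D t) := by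
    refine continuous_finsetProd _ fun t _ => ?_
    exact (hD.diff D.o).continuous.comp (pt_cont.add continuous_const)
  have hopen : IsOpen {x : Λ → ℝ | ∏ t ∈ T, D.th D.o (pt D x + vq D t) ≠ 0} :=
    isOpen_ne.preimage hcont
  have hne : {x : Λ → ℝ | ∏ t ∈ T, D.th D.o (pt D x + vq D t) ≠ 0}.Nonempty :=
    ⟨x₁, by rw [Set.mem_ofPred_eq, hx₁]; exact hz₁⟩
  have hdense : DenseRange (Pi.map (fun (_ : Λ) (q : ℚ) => (q : ℝ))) :=
    DenseRange.piMap fun _ => Rat.denseRange_cast
  obtain ⟨s, hs⟩ := hdense.exists_mem_open hopen hne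
  refine ⟨s, fun t ht => ?_⟩
  have h3 : pt D (Pi.map (fun (_ : Λ) (q : ℚ) => (q : ℝ)) s) = vq D s := pt_rat s
  rw [Set.mem_ofPred_eq, h3] at hs
  rw [vq_add]
  exact (Finset.prod_ne_zero_iff.1 hs) t ht

end Pool.Agent.Lib.MPf11a48.SH
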