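import Pool.Agent.Lib.MP_f11a48_ag.SH.ESpec

/-!
# MP_f11a48_ag, project S0, part (e): the powers of `rho` (module GQA)
-/

set_option autoImplicit false

open MvPolynomial Pool.Agent.Lib.MPf11a48.CM Filter Topology
open Pool.Agent.Lib.MPf11a48.AS Pool.Agent.Lib.MPf11a48.U.ConjM

namespace Pool.Agent.Lib.MPf11a48.SH

namespace GQAM

section

variable {Z I Λ : Type} [Fintype Λ] (D : TH Z I Λ)

theorem vq_add (s t : Λ → ℚ) : vq D (s + t) = vq D s + vq D t := by
  simp only [vq, Pi.add_apply, Rat.cast_add, add_smul, Finset.sum_add_distrib]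

theorem vq_smul (k : ℕ) (t : Λ → ℚ) : vq D ((k : ℚ) • t) = (k : ℂ) • vq D t := by
  simp only [vq, Pi.smul_apply, smul_eq_mul, Rat.cast_mul, Rat.cast_natCast, Finset.smul_sum,
    mul_smul]

end

theorem diff_rho {β : ℕ} {I Λ : Type} [Fintype Λ] (D : TH (Fin β) I Λ)
    (hd : Differentiable ℂ (D.th D.o)) (t : Λ → ℚ) (z : Fin β → ℂ) (hz : D.th D.o z ≠ 0) :
    DifferentiableAt ℂ (rho D t) z := by
  have h1 : DifferentiableAt ℂ (fun z => aq D t z) z :=
    (LinearMap.toContinuousLinearMap (aq D t)).differentiableAt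
  have h2 : DifferentiableAt ℂ (fun z => D.th D.o (z + vq D t)) z :=
    (hd _).comp z ((differentiableAt_id).add_const _)
  have h3 : DifferentiableAt ℂ
      (fun z => Complex.exp (-(aq D t z) - aq D t (vq D t) / 2)) z :=
    ((h1.neg).sub_const _).cexp
  have h4 : DifferentiableAt ℂ (fun z => (D.th D.o z)⁻¹) z := (hd z).fun_inv hz
  have h5 := (h3.mul h2).mul h4
  have e : rho D t = ((fun z => Complex.exp (-(aq D t z) - aq D t (vq D t) / 2)) *
      fun z => D.th D.o (z + vq D t)) * fun z => (D.th D.o z)⁻¹ := by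
    funext z
    simp only [rho, Pi.mul_apply, div_eq_mul_inv]
  rw [e]
  exact h5

end GQAM

open GQAM in
theorem specGQA (hQAC : SpecQAC) (hAPP : SpecAPP) (hTOR : SpecTOR) (hGEN : SpecGEN)
    (hRHO : SpecRHO) (hLVT : SpecLVT) : SpecGQA := by
  classical
  intro β I Λ _ _ D hD hA hL s t hs n hn hnt
  set T := D.th D.o with hT
  have hDg := hD.good
  obtain ⟨-, -, -, -, r5, r6, r7, -⟩ := hRHO D.toTH hDg
  have hgS : D.toTH.IsS (fun z => rho D.toTH t z ^ n) := (r5 t n hn hnt).1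
  have hTd : Differentiable ℂ T := hDg.diff D.o
  have hTc : Continuous T := hTd.continuous
  have hgan : ∀ z, T z ≠ 0 → AnalyticAt ℂ (fun z => rho D.toTH t z ^ n) z := fun z hz =>
    (AllM.srg D.toTH hDg).2.2.2 _ hgS z hz
  obtain ⟨a, b, ha, hab⟩ := AllM.frc D.toTH hDg _ hgS
  -- the generic point
  obtain ⟨s₀, hs₀⟩ := hGEN D.toTH hDg ((Finset.range (n + 1)).image fun k : ℕ => (k : ℚ) • t)
  have hk : ∀ k : ℕ, k ≤ n → T (vq D.toTH s₀ + (k : ℂ) • vq D.toTH t) ≠ 0 := by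
    intro k hk
    have := hs₀ ((k : ℚ) • t) (Finset.mem_image.mpr ⟨k, Finset.mem_range.mpr (by omega), rfl⟩)
    rwa [vq_add, vq_smul] at this
  have h0 : T (vq D.toTH s₀) ≠ 0 := by
    have := hk 0 (Nat.zero_le _)
    rwa [Nat.cast_zero, zero_smul, add_zero] at this
  have h1 : T (vq D.toTH s₀ + vq D.toTH t) ≠ 0 := by
    have := hk 1 hn
    rwa [Nat.cast_one, one_smul] at this
  have halg : ∀ k : ℕ, k ≤ n → AlgPt D.toTH (vq D.toTH s₀ + (k : ℂ) • vq D.toTH t) := by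
    intro k hk'
    have h2 : T (vq D.toTH (s₀ + (k : ℚ) • t)) ≠ 0 := by
      rw [vq_add, vq_smul]; exact hk k hk'
    have := hTOR D hD hA _ h2
    rwa [vq_add, vq_smul] at this
  have halg0 : AlgPt D.toTH (vq D.toTH s₀) := hTOR D hD hA _ h0
  -- the value `c`
  set c : ℂ := rho D.toTH t (vq D.toTH s₀) ^ n with hc
  have hrho0 : rho D.toTH t (vq D.toTH s₀) ≠ 0 :=
    div_ne_zero (mul_ne_zero (Complex.exp_ne_zero _) h1) h0
  have hc0 : c ≠ 0 := pow_ne_zero _ hrho0
  -- the function `F`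
  have hQ := hQAC (vq D.toTH s₀)
  have hFan : ∀ z, T z ≠ 0 → AnalyticAt ℂ (fun z => rho D.toTH t z ^ n * c⁻¹) z := fun z hz =>
    (hgan z hz).mul analyticAt_const
  have hF : QA (vq D.toTH s₀) fun z => rho D.toTH t z ^ n * c⁻¹ := by
    refine hQ.2.2.2.2.2.2.1 _ (hFan _ h0) ?_ (fun j z => (n : ℂ) *
      (zeta D.toTH (Pi.single j 1) (z + vq D.toTH t) - zeta D.toTH (Pi.single j 1) z -
        aq D.toTH t (Pi.single j 1))) ?_ ?_
    · show rho D.toTH t (vq D.toTH s₀) ^ n * c⁻¹ ∈ Qbar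
      rw [← hc, mul_inv_cancel₀ hc0]
      exact one_mem _
    · intro j
      have hv : QV (Pi.single j 1 : Fin β → ℂ) := by
        intro i
        by_cases hij : i = j
        · subst hij; rw [Pi.single_eq_same]; exact one_mem _
        · rw [Pi.single_eq_of_ne hij]; exact zero_mem _
      have e1 := hLVT D hD hA hL s₀ t h0 h1 _ hv
      exact (hQ.2.2.1 _ _ (hQ.2.1 (n : ℂ) (natCast_mem _ _)) e1).2.1
    · intro j
      have ev1 : ∀ᶠ z in 𝓝 (vq D.toTH s₀), T z ≠ 0 := hTc.continuousAt.eventually_ne h0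
      have ev2 : ∀ᶠ z in 𝓝 (vq D.toTH s₀), T (z + vq D.toTH t) ≠ 0 :=
        (hTc.comp (continuous_id.add continuous_const)).continuousAt.eventually_ne h1
      filter_upwards [ev1, ev2] with z hz1 hz2
      have hd := diff_rho D.toTH hTd t z hz1
      have hd2 : HasFDerivAt (fun z => rho D.toTH t z ^ n * c⁻¹)
          (c⁻¹ • ((n * rho D.toTH t z ^ (n - 1)) • fderiv ℂ (rho D.toTH t) z)) z := by
        have := (hd.hasFDerivAt.pow n).mul_const c⁻¹
        simpa using this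
      rw [hd2.fderiv]
      have h6 := r6 t z (Pi.single j 1) hz1 hz2
      rw [smul_apply, smul_apply, h6, smul_eq_mul,
        smul_eq_mul]
      have e2 : rho D.toTH t z ^ n = rho D.toTH t z ^ (n - 1) * rho D.toTH t z := by
        rw [← pow_succ, Nat.sub_add_cancel hn]
      rw [e2]
      ring
  -- the relation for `F`
  have hrel : ∀ z, T z ≠ 0 →
      rho D.toTH t z ^ n * c⁻¹ * eval (D.fv z) a = eval (D.fv z) (C c⁻¹ * b) := by
    intro z hz
    rw [map_mul, eval_C, ← hab z hz]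
    ring
  have hev : ∀ γ, T γ ≠ 0 → ∀ᶠ z in 𝓝 γ, T z ≠ 0 := fun γ hγ =>
    hTc.continuousAt.eventually_ne hγ
  have hval : ∀ k : ℕ, k ≤ n →
      rho D.toTH t (vq D.toTH s₀ + (k : ℂ) • vq D.toTH t) ^ n * c⁻¹ ∈ Qbar := by
    intro k hk'
    have := hAPP D hD hA _ _ halg0 (halg k hk') (fun z => rho D.toTH t z ^ n * c⁻¹) a (C c⁻¹ * b)
      ha ((hev _ h0).mono hrel) ((hev _ (hk k hk')).mono hrel) hF (hFan _ (hk k hk'))
    exact ((hQAC _).1 _ this).2
  -- `c` is algebraic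
  have hcn : c ^ n ∈ Qbar := by
    have h7 := r7 t n hn hnt (vq D.toTH s₀) hk
    have h8 : ∏ k ∈ Finset.range n,
        (rho D.toTH t (vq D.toTH s₀ + (k : ℂ) • vq D.toTH t) ^ n * c⁻¹) = (c ^ n)⁻¹ := by
      rw [Finset.prod_mul_distrib, Finset.prod_pow, h7, one_pow, one_mul, Finset.prod_const,
        Finset.card_range, inv_pow]
    have h9 : (c ^ n)⁻¹ ∈ Qbar := by
      rw [← h8]
      exact prod_mem fun k hk' => hval k (Finset.mem_range.mp hk').le
    have := inv_mem h9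
    rwa [inv_inv] at this
  have hcQ : c ∈ Qbar := by
    rw [mem_algebraicClosure_iff] at hcn ⊢
    exact IsAlgebraic.of_pow (by omega) hcn
  -- the function `g`
  have hg : QA (vq D.toTH s₀) fun z => rho D.toTH t z ^ n := by
    have e1 := (hQ.2.2.1 _ _ hF (hQ.2.1 c hcQ)).2.1
    refine hQ.2.2.2.1 _ _ (Filter.Eventually.of_forall fun z => ?_) e1
    show rho D.toTH t z ^ n * c⁻¹ * c = rho D.toTH t z ^ n
    rw [mul_assoc, inv_mul_cancel₀ hc0, mul_one]
  exact hAPP D hD hA _ _ halg0 (hTOR D hD hA s hs) _ a b ha ((hev _ h0).mono hab)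
    ((hev _ hs).mono hab) hg (hgan _ hs)

end Pool.Agent.Lib.MPf11a48.SH
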