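import Pool.Agent.Lib.MP_f11a48_ag.SH.ESpec

/-!
# MP_f11a48_ag, project S0, part (e), block A: module LVT

The differences of the logarithmic derivatives of `th_o` at torsion points are algebraic.
-/

set_option autoImplicit false

open MvPolynomial Pool.Agent.Lib.MPf11a48.CM Filter Topology
open Pool.Agent.Lib.MPf11a48.AS Pool.Agent.Lib.MPf11a48.U.ConjM

namespace Pool.Agent.Lib.MPf11a48.SH

namespace LVTM

/-! ### Torsion points -/

section Torsion

variable {Z I Λ : Type} [Fintype Λ] (D : TH Z I Λ)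

theorem vq_add (s t : Λ → ℚ) : vq D (s + t) = vq D s + vq D t := by
  unfold vq
  rw [← Finset.sum_add_distrib]
  refine Finset.sum_congr rfl fun l _ => ?_
  rw [← add_smul, Pi.add_apply]
  push_cast
  rfl

theorem vq_mul (n : ℕ) (t : Λ → ℚ) : vq D (fun l => (n : ℚ) * t l) = (n : ℂ) • vq D t := by
  unfold vq
  rw [Finset.smul_sum]
  refine Finset.sum_congr rfl fun l _ => ?_
  rw [smul_smul]
  push_cast
  rfl

theorem aq_mul (n : ℕ) (t : Λ → ℚ) (v : Z → ℂ) :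
    aq D (fun l => (n : ℚ) * t l) v = (n : ℂ) * aq D t v := by
  unfold aq
  simp only [LinearMap.sum_apply, LinearMap.smul_apply, smul_eq_mul, Finset.mul_sum]
  refine Finset.sum_congr rfl fun l _ => ?_
  push_cast
  ring

theorem exists_den (t : Λ → ℚ) : ∃ n : ℕ, 1 ≤ n ∧ IntV fun l => (n : ℚ) * t l := by
  classical
  refine ⟨∏ l, (t l).den, Finset.prod_pos fun l _ => (t l).pos,
    fun l => ((∏ k ∈ Finset.univ.erase l, (t k).den : ℕ) : ℤ) * (t l).num, fun l => ?_⟩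
  rw [← Finset.mul_prod_erase _ _ (Finset.mem_univ l)]
  have h := Rat.mul_den_eq_num (t l)
  push_cast
  rw [← h]
  ring

end Torsion

/-! ### The logarithmic derivative -/

section Zeta

variable {β : ℕ} {I Λ : Type} [Fintype I] [Fintype Λ] {D : TH (Fin β) I Λ}

theorem an_th (hD : D.Good) (z : Fin β → ℂ) : AnalyticAt ℂ (D.th D.o) z :=
  U.Osgood.analyticAt_of_differentiable (hD.diff D.o) z

theorem an_dth (hD : D.Good) (v z : Fin β → ℂ) :
    AnalyticAt ℂ (fun w => fderiv ℂ (D.th D.o) w v) z :=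
  ((ContinuousLinearMap.apply ℂ ℂ v).analyticAt _).comp (an_th hD z).fderiv

theorem an_zeta (hD : D.Good) (v z : Fin β → ℂ) (hz : D.th D.o z ≠ 0) :
    AnalyticAt ℂ (fun w => zeta D v w) z :=
  (an_dth hD v z).div (an_th hD z) hz

theorem single_sum (v : Fin β → ℂ) : v = ∑ j, v j • (Pi.single j 1 : Fin β → ℂ) := by
  funext i
  simp [Finset.sum_apply, Pi.single_apply]

omit [Fintype I] [Fintype Λ] in
theorem zeta_sum (v z : Fin β → ℂ) :
    zeta D v z = ∑ j, v j * (fderiv ℂ (D.th D.o) z (Pi.single j 1) / D.th D.o z) := by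
  unfold zeta
  conv_lhs => rw [single_sum v]
  rw [map_sum, Finset.sum_div]
  refine Finset.sum_congr rfl fun j _ => ?_
  rw [map_smul, smul_eq_mul, mul_div_assoc]

theorem fderiv_zeta (hD : D.Good) (hL : LogD D) (v : Fin β → ℂ) (hv : QV v) :
    ∃ P : Fin β → MvPolynomial I ℂ, (∀ i m, (P i).coeff m ∈ Qbar) ∧
      ∀ i z, D.th D.o z ≠ 0 →
        fderiv ℂ (fun w => zeta D v w) z (Pi.single i 1) = eval (D.fv z) (P i) := by
  choose Q hQ hQ' using hL
  refine ⟨fun i => ∑ j, C (v j) * Q i j, fun i m => ?_, fun i z hz => ?_⟩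
  · rw [coeff_sum]
    refine sum_mem fun j _ => ?_
    rw [coeff_C_mul]
    exact mul_mem (hv j) (hQ i j m)
  · have h1 : ∀ j, DifferentiableAt ℂ
        (fun w => fderiv ℂ (D.th D.o) w (Pi.single j 1) / D.th D.o w) z := fun j =>
      (an_zeta hD (Pi.single j 1) z hz).differentiableAt
    have h2 : (fun w => zeta D v w) = fun w => ∑ j, v j *
        (fderiv ℂ (D.th D.o) w (Pi.single j 1) / D.th D.o w) := by
      funext w
      exact zeta_sum v w
    rw [h2, fderiv_fun_sum fun j _ => (h1 j).const_mul (v j), sum_apply,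
      map_sum]
    refine Finset.sum_congr rfl fun j _ => ?_
    rw [fderiv_const_mul (h1 j), smul_apply, smul_eq_mul, hQ' i j z hz,
      map_mul, eval_C]

/-- the difference -/
noncomputable def Rf (D : TH (Fin β) I Λ) (v : Fin β → ℂ) (t : Λ → ℚ) (z : Fin β → ℂ) : ℂ :=
  zeta D v (z + vq D t) - zeta D v z - aq D t v

omit [Fintype I] [Fintype Λ] in
theorem an_shift {F : (Fin β → ℂ) → ℂ} {z a : Fin β → ℂ} (h : AnalyticAt ℂ F (z + a)) :
    AnalyticAt ℂ (fun w => F (w + a)) z :=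
  AnalyticAt.fun_comp (f := fun w => w + a) h (analyticAt_id.add analyticAt_const)

theorem an_Rf (hD : D.Good) (v : Fin β → ℂ) (t : Λ → ℚ) (z : Fin β → ℂ) (hz : D.th D.o z ≠ 0)
    (hz' : D.th D.o (z + vq D t) ≠ 0) : AnalyticAt ℂ (Rf D v t) z :=
  ((an_shift (an_zeta hD v _ hz')).sub (an_zeta hD v z hz)).sub analyticAt_const

theorem fderiv_Rf (hD : D.Good) (v : Fin β → ℂ) (t : Λ → ℚ) (z : Fin β → ℂ)
    (hz : D.th D.o z ≠ 0) (hz' : D.th D.o (z + vq D t) ≠ 0) (w : Fin β → ℂ) :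
    fderiv ℂ (Rf D v t) z w = fderiv ℂ (fun w => zeta D v w) (z + vq D t) w -
      fderiv ℂ (fun w => zeta D v w) z w := by
  have h1 : DifferentiableAt ℂ (fun w => zeta D v (w + vq D t)) z :=
    (an_shift (an_zeta hD v _ hz')).differentiableAt
  have h2 : DifferentiableAt ℂ (fun w => zeta D v w) z := (an_zeta hD v z hz).differentiableAt
  have h3 : Rf D v t = fun z => (zeta D v (z + vq D t) - zeta D v z) - aq D t v := rfl
  rw [h3, fderiv_sub_const, fderiv_fun_sub h1 h2, sub_apply]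
  congr 1
  exact congrArg (fun L : (Fin β → ℂ) →L[ℂ] ℂ => L w)
    (fderiv_comp_add_right (f := fun w => zeta D v w) (x := z) (vq D t))

theorem ev_ne (hD : D.Good) {z : Fin β → ℂ} (hz : D.th D.o z ≠ 0) :
    ∀ᶠ w in 𝓝 z, D.th D.o w ≠ 0 :=
  (an_th hD z).continuousAt.eventually_ne hz

theorem ev_ne' (hD : D.Good) {z a : Fin β → ℂ} (hz : D.th D.o (z + a) ≠ 0) :
    ∀ᶠ w in 𝓝 z, D.th D.o (w + a) ≠ 0 :=
  (an_shift (an_th hD (z + a))).continuousAt.eventually_ne hz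

/-! ### The functions as quotients -/

theorem diff_rho (hD : D.Good) (t : Λ → ℚ) (z : Fin β → ℂ) (hz : D.th D.o z ≠ 0) :
    DifferentiableAt ℂ (rho D t) z := by
  have h1 : AnalyticAt ℂ (fun w => aq D t w) z :=
    (LinearMap.toContinuousLinearMap (aq D t)).analyticAt z
  have h2 : AnalyticAt ℂ (fun w => D.th D.o (w + vq D t)) z := an_shift (an_th hD _)
  have h3 : AnalyticAt ℂ (fun w => Complex.exp (-(aq D t w) - aq D t (vq D t) / 2)) z :=
    (h1.neg.sub analyticAt_const).cexp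
  exact ((h3.mul h2).div (an_th hD z) hz).differentiableAt

theorem num_nmem (hD : D.Good) (t : Λ → ℚ) (n : ℕ) (a b : MvPolynomial I ℂ) (ha : a ∉ D.nf)
    (h : ∀ z, D.th D.o z ≠ 0 → rho D t z ^ n * eval (D.fv z) a = eval (D.fv z) b) :
    b ∉ D.nf := by
  intro hb
  have h1 : ∃ z, D.th D.o z ≠ 0 ∧ eval (D.fv z) a ≠ 0 := by
    by_contra hc
    push Not at hc
    exact ha hc
  obtain ⟨z₀, hz₀, h0⟩ := h1
  have h2 : ∀ᶠ z in 𝓝 z₀, eval (D.fv z) a ≠ 0 :=
    ((AllM.srg D hD).2.2.2 _ ((AllM.srg D hD).1 a) z₀ hz₀).continuousAt.eventually_ne h0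
  have h3 : (fun z => D.th D.o (z + vq D t)) =ᶠ[𝓝 z₀] 0 := by
    filter_upwards [h2, ev_ne hD hz₀] with z hz hz'
    have h4 := h z hz'
    rw [hb z hz'] at h4
    have h6 : rho D t z ^ n = 0 := (mul_eq_zero.1 h4).resolve_right hz
    have h7 : rho D t z = 0 := by
      by_contra h8
      exact pow_ne_zero n h8 h6
    unfold rho at h7
    rw [div_eq_zero_iff, mul_eq_zero] at h7
    rcases h7 with (h7 | h7) | h7
    · exact absurd h7 (Complex.exp_ne_zero _)
    · exact h7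
    · exact absurd h7 hz'
  have h8 : AnalyticOnNhd ℂ (fun z => D.th D.o (z + vq D t)) Set.univ := fun z _ =>
    an_shift (an_th hD _)
  have h9 := h8.eqOn_zero_of_preconnected_of_eventuallyEq_zero isPreconnected_univ
    (Set.mem_univ z₀) h3 (Set.mem_univ (-vq D t))
  simp only [neg_add_cancel, Pi.zero_apply] at h9
  exact hD.zero h9

theorem exists_ab (hRHO : SpecRHO) (hD : D.Good) (t : Λ → ℚ) (v : Fin β → ℂ) (n : ℕ) (hn : 1 ≤ n)
    (hnt : IntV fun l => (n : ℚ) * t l) (c : ℂ) :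
    ∃ a b : MvPolynomial I ℂ, a ∉ D.nf ∧ ∀ z, D.th D.o z ≠ 0 → D.th D.o (z + vq D t) ≠ 0 →
      (Rf D v t z - c) * eval (D.fv z) a = eval (D.fv z) b := by
  obtain ⟨hg, hg'⟩ := (hRHO D hD).2.2.2.2.1 t n hn hnt
  obtain ⟨a₁, b₁, ha₁, h₁⟩ := AllM.frc D hD _ hg
  obtain ⟨a₂, b₂, ha₂, h₂⟩ := AllM.frc D hD _ (hg' v)
  have hp : D.nf.IsPrime := (AllM.bas D hD).2.2.2.1
  have hb₁ : b₁ ∉ D.nf := num_nmem hD t n a₁ b₁ ha₁ h₁
  have hn0 : (n : ℂ) ≠ 0 := Nat.cast_ne_zero.2 (by omega)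
  refine ⟨C (n : ℂ) * b₁ * a₂, b₂ * a₁ - C (c * n) * b₁ * a₂, fun h => ?_, fun z hz hz' => ?_⟩
  · rcases hp.mem_or_mem h with h | h
    · rcases hp.mem_or_mem h with h | h
      · have h3 := h 0 hD.zero
        rw [eval_C] at h3
        exact hn0 h3
      · exact hb₁ h
    · exact ha₂ h
  · have h3 : fderiv ℂ (fun w => rho D t w ^ n) z v = n * rho D t z ^ n * Rf D v t z := by
      rw [fderiv_fun_pow n (diff_rho hD t z hz), smul_apply,
        (hRHO D hD).2.2.2.2.2.1 t z v hz hz']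
      obtain ⟨m, rfl⟩ : ∃ m, n = m + 1 := ⟨n - 1, by omega⟩
      simp only [Nat.add_sub_cancel, smul_eq_mul, nsmul_eq_mul]
      unfold Rf
      ring
    have h4 := h₁ z hz
    have h5 := h₂ z hz
    simp only [map_mul, map_sub, eval_C]
    linear_combination (-(Rf D v t z) * n * eval (D.fv z) a₂) * h4 -
      eval (D.fv z) a₁ * eval (D.fv z) a₂ * h3 + eval (D.fv z) a₁ * h5

end Zeta

/-! ### Algebraicity -/

section Main

variable {β : ℕ} {I Λ : Type} [Fintype I] [Fintype Λ]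

theorem qa_deriv (hQAC : SpecQAC) (hFQA : SpecFQA) (hTOR : SpecTOR) (D : QD β I Λ) (hG : D.Good)
    (hA : D.Alg) (hL : LogD D.toTH) (s t : Λ → ℚ) (hs : D.th D.o (vq D.toTH s) ≠ 0)
    (hst : D.th D.o (vq D.toTH s + vq D.toTH t) ≠ 0) (v : Fin β → ℂ) (hv : QV v) (j : Fin β) :
    QA (vq D.toTH s) fun z => fderiv ℂ (Rf D.toTH v t) z (Pi.single j 1) := by
  obtain ⟨P, hP, hP'⟩ := fderiv_zeta hG.good hL v hv
  have h1 := hFQA D hG hA (vq D.toTH s) (hTOR D hG hA s hs) (P j) (hP j)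
  have h2 := hFQA D hG hA (vq D.toTH (s + t))
    (hTOR D hG hA (s + t) (by rw [vq_add]; exact hst)) (P j) (hP j)
  rw [vq_add] at h2
  obtain ⟨-, -, q3, q4, -, -, -, -, q9⟩ := hQAC (vq D.toTH s)
  have h3 := q9 _ (vq D.toTH t) h2
  refine q4 _ _ ?_ (q3 _ _ h3 h1).2.2
  filter_upwards [ev_ne hG.good hs, ev_ne' hG.good hst] with z hz hz'
  rw [fderiv_Rf hG.good v t z hz hz', hP' j z hz, hP' j _ hz']

end Main

end LVTM

open LVTM in
theorem specLVT (hQAC : SpecQAC) (hFQA : SpecFQA) (hAPP : SpecAPP) (hTOR : SpecTOR)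
    (hGEN : SpecGEN) (hRHO : SpecRHO) : SpecLVT := by
  intro β I Λ _ _ D hG hA hL s t hs hst v hv
  classical
  have hD : D.toTH.Good := hG.good
  obtain ⟨n, hn, hnt⟩ := exists_den t
  obtain ⟨s₀, hs₀⟩ := hGEN D.toTH hD
    ((Finset.range (n + 1)).image fun k : ℕ => fun l => (k : ℚ) * t l)
  have hk : ∀ k : ℕ, k ≤ n → D.th D.o (vq D.toTH s₀ + (k : ℂ) • vq D.toTH t) ≠ 0 := by
    intro k hk
    have h1 := hs₀ _ (Finset.mem_image_of_mem _ (Finset.mem_range.2 (Nat.lt_succ_of_le hk)))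
    rwa [vq_add, vq_mul] at h1
  have h0 : D.th D.o (vq D.toTH s₀) ≠ 0 := by
    have h1 := hk 0 (Nat.zero_le _)
    rwa [Nat.cast_zero, zero_smul, add_zero] at h1
  have h1 : D.th D.o (vq D.toTH s₀ + vq D.toTH t) ≠ 0 := by
    have h2 := hk 1 hn
    rwa [Nat.cast_one, one_smul] at h2
  set c : ℂ := Rf D.toTH v t (vq D.toTH s₀) with hc
  obtain ⟨a, b, ha, hab⟩ := exists_ab hRHO hD t v n hn hnt c
  have ev : ∀ s' : Λ → ℚ, D.th D.o (vq D.toTH s') ≠ 0 →
      D.th D.o (vq D.toTH s' + vq D.toTH t) ≠ 0 → ∀ᶠ z in 𝓝 (vq D.toTH s'),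
        (Rf D.toTH v t z - c) * eval (D.fv z) a = eval (D.fv z) b := by
    intro s' h2 h3
    filter_upwards [ev_ne hD h2, ev_ne' hD h3] with z hz hz'
    exact hab z hz hz'
  have an : ∀ s' : Λ → ℚ, D.th D.o (vq D.toTH s') ≠ 0 →
      D.th D.o (vq D.toTH s' + vq D.toTH t) ≠ 0 →
      AnalyticAt ℂ (fun z => Rf D.toTH v t z - c) (vq D.toTH s') := fun s' h2 h3 =>
    (an_Rf hD v t _ h2 h3).sub analyticAt_const
  have hF₀ : QA (vq D.toTH s₀) fun z => Rf D.toTH v t z - c := by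
    refine (hQAC (vq D.toTH s₀)).2.2.2.2.2.1 _ (an s₀ h0 h1) ?_ fun j => ?_
    · rw [hc, sub_self]
      exact zero_mem _
    · have h2 := qa_deriv hQAC hFQA hTOR D hG hA hL s₀ t h0 h1 v hv j
      simp only [fderiv_sub_const]
      exact h2
  have hF : ∀ s' : Λ → ℚ, D.th D.o (vq D.toTH s') ≠ 0 →
      D.th D.o (vq D.toTH s' + vq D.toTH t) ≠ 0 →
      QA (vq D.toTH s') fun z => Rf D.toTH v t z - c := fun s' h2 h3 =>
    hAPP D hG hA _ _ (hTOR D hG hA s₀ h0) (hTOR D hG hA s' h2) _ a b ha (ev s₀ h0 h1) (ev s' h2 h3)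
      hF₀ (an s' h2 h3)
  have hcQ : c ∈ Qbar := by
    have h2 : ∀ k ∈ Finset.range n,
        Rf D.toTH v t (vq D.toTH s₀ + (k : ℂ) • vq D.toTH t) - c ∈ Qbar := by
      intro k hkn
      have hkn' := Finset.mem_range.1 hkn
      have h3 : vq D.toTH (s₀ + fun l => (k : ℚ) * t l) =
          vq D.toTH s₀ + (k : ℂ) • vq D.toTH t := by rw [vq_add, vq_mul]
      have h4 := hF (s₀ + fun l => (k : ℚ) * t l) (by rw [h3]; exact hk k hkn'.le) (by
        rw [h3, add_assoc]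
        have h5 := hk (k + 1) hkn'
        rwa [Nat.cast_add, Nat.cast_one, add_smul, one_smul] at h5)
      rw [h3] at h4
      exact ((hQAC _).1 _ h4).2
    have h3 := sum_mem h2
    have h4 : ∑ k ∈ Finset.range n, (Rf D.toTH v t (vq D.toTH s₀ + (k : ℂ) • vq D.toTH t) - c) =
        -((n : ℂ) * c) := by
      have h5 : ∀ k : ℕ, Rf D.toTH v t (vq D.toTH s₀ + (k : ℂ) • vq D.toTH t) - c =
          (zeta D.toTH v (vq D.toTH s₀ + ((k + 1 : ℕ) : ℂ) • vq D.toTH t) -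
            zeta D.toTH v (vq D.toTH s₀ + (k : ℂ) • vq D.toTH t)) - (aq D.toTH t v + c) := by
        intro k
        unfold Rf
        rw [Nat.cast_add, Nat.cast_one, add_smul, one_smul, ← add_assoc]
        ring
      simp only [h5]
      rw [Finset.sum_sub_distrib,
        Finset.sum_range_sub (fun k : ℕ => zeta D.toTH v
          (vq D.toTH s₀ + (k : ℂ) • vq D.toTH t)) n, Nat.cast_zero, zero_smul, add_zero,
        Finset.sum_const, Finset.card_range, nsmul_eq_mul]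
      have h6 := (hRHO D.toTH hD).2.2.2.2.2.2.2 _ hnt (vq D.toTH s₀) v h0
      rw [vq_mul, aq_mul] at h6
      rw [h6]
      ring
    rw [h4, neg_mem_iff] at h3
    have hn0 : (n : ℂ) ≠ 0 := Nat.cast_ne_zero.2 (by omega)
    have h7 : c = (n : ℂ)⁻¹ * ((n : ℂ) * c) := by
      rw [← mul_assoc, inv_mul_cancel₀ hn0, one_mul]
    rw [h7]
    exact mul_mem (inv_mem (natCast_mem _ n)) h3
  have h8 := ((hQAC (vq D.toTH s)).2.2.1 _ _ (hF s hs hst) ((hQAC _).2.1 c hcQ)).1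
  simp only [sub_add_cancel] at h8
  exact h8

end Pool.Agent.Lib.MPf11a48.SH
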