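import Pool.Agent.Lib.MP_f11a48_ag.SH.ESpec

/-! # Project S0, part (e): module QAC (helper47) -/

set_option autoImplicit false

open MvPolynomial Pool.Agent.Lib.MPf11a48.CM Filter Topology
open Pool.Agent.Lib.MPf11a48.AS Pool.Agent.Lib.MPf11a48.U.ConjM

namespace Pool.Agent.Lib.MPf11a48.SH

namespace QACM

variable {β : ℕ} {γ : Fin β → ℂ}

theorem shift (F : (Fin β → ℂ) → ℂ) (γ z : Fin β → ℂ) :
    fderiv ℂ (fun w => F (γ + w)) z = fderiv ℂ F (γ + z) := fderiv_comp_add_left γ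

theorem tend (γ : Fin β → ℂ) : Tendsto (fun z : Fin β → ℂ => γ + z) (𝓝 0) (𝓝 γ) := by
  have h : Continuous fun z : Fin β → ℂ => γ + z := by fun_prop
  have h2 := h.tendsto 0
  rwa [add_zero] at h2

theorem ana_of {F : (Fin β → ℂ) → ℂ} (h : AnalyticAt ℂ (fun z => F (γ + z)) 0) :
    AnalyticAt ℂ F γ := by
  have h1 : AnalyticAt ℂ (fun z : Fin β → ℂ => z - γ) γ := by fun_prop
  have h3 := AnalyticAt.comp_of_eq h h1 (sub_self γ)
  have h4 : ((fun z => F (γ + z)) ∘ fun z : Fin β → ℂ => z - γ) = F := by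
    funext z
    simp
  rwa [h4] at h3

theorem ana_to {F : (Fin β → ℂ) → ℂ} (h : AnalyticAt ℂ F γ) :
    AnalyticAt ℂ (fun z => F (γ + z)) 0 := by
  have h1 : AnalyticAt ℂ (fun z : Fin β → ℂ => γ + z) 0 := by fun_prop
  exact AnalyticAt.comp_of_eq h h1 (add_zero γ)

theorem fix_mem {a : ℂ} (h : ∀ τ : ℂ ≃+* ℂ, FixQ τ → τ a = a) : a ∈ Qbar := specAUT.1 a h

theorem fsum (F : (Fin β → ℂ) → ℂ) (z v : Fin β → ℂ) :
    fderiv ℂ F z v = ∑ j, v j * fderiv ℂ F z (Pi.single j 1) := by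
  have h : v = ∑ j, v j • (Pi.single j 1 : Fin β → ℂ) := by
    funext i
    simp [Finset.sum_apply, Pi.single_apply]
  conv_lhs => rw [h]
  rw [map_sum]
  refine Finset.sum_congr rfl fun j _ => ?_
  rw [map_smul]
  rfl

theorem value {F : (Fin β → ℂ) → ℂ} (h : QA γ F) : AnalyticAt ℂ F γ ∧ F γ ∈ Qbar := by
  refine ⟨ana_of (h (RingEquiv.refl ℂ) (fun a _ => rfl) 0).base.1, fix_mem fun τ hτ => ?_⟩
  have h1 := (h τ hτ 0).base.2.2
  simpa using h1.symm

theorem const {c : ℂ} (hc : c ∈ Qbar) : QA γ fun _ => c := by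
  intro τ hτ n
  have h := Cj.const (τ := τ) (g := β) n c
  rwa [hτ c hc] at h

theorem add {F G : (Fin β → ℂ) → ℂ} (hF : QA γ F) (hG : QA γ G) : QA γ fun z => F z + G z :=
  fun τ hτ n => (hF τ hτ n).add (hG τ hτ n)

theorem mul {F G : (Fin β → ℂ) → ℂ} (hF : QA γ F) (hG : QA γ G) : QA γ fun z => F z * G z :=
  fun τ hτ n => (hF τ hτ n).mul (hG τ hτ n)

theorem sub {F G : (Fin β → ℂ) → ℂ} (hF : QA γ F) (hG : QA γ G) : QA γ fun z => F z - G z := by
  have h := add hF (mul (const (γ := γ) (c := -1) (neg_mem (one_mem _))) hG)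
  have h2 : (fun z => F z + (fun _ => (-1 : ℂ)) z * G z) = fun z => F z - G z := by
    funext z
    ring
  rwa [h2] at h

theorem sum {ι : Type} (s : Finset ι) {F : ι → (Fin β → ℂ) → ℂ} (h : ∀ i ∈ s, QA γ (F i)) :
    QA γ fun z => ∑ i ∈ s, F i z :=
  fun τ hτ n => Cj.sum s fun i hi => h i hi τ hτ n

theorem congr {F G : (Fin β → ℂ) → ℂ} (h : ∀ᶠ z in 𝓝 γ, F z = G z) (hF : QA γ F) :
    QA γ G := by
  intro τ hτ n
  have h1 : (fun z => F (γ + z)) =ᶠ[𝓝 0] fun z => G (γ + z) := (tend γ).eventually h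
  exact Cj.congr h1 h1 (hF τ hτ n)

theorem deriv' {F : (Fin β → ℂ) → ℂ} {v : Fin β → ℂ} (hF : QA γ F) (hv : QV v) :
    QA γ fun z => fderiv ℂ F z v := by
  intro τ hτ n
  have h1 := (hF τ hτ (n + 1)).2 v
  have h2 : (fun i => τ (v i)) = v := by
    funext i
    exact hτ _ (hv i)
  rw [h2] at h1
  have h3 : (fun z => fderiv ℂ (fun w => F (γ + w)) z v) = fun z => fderiv ℂ F (γ + z) v := by
    funext z
    rw [shift]
  rw [h3] at h1
  exact h1

theorem integ {F : (Fin β → ℂ) → ℂ} (hF : AnalyticAt ℂ F γ) (h0 : F γ ∈ Qbar)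
    (hd : ∀ j, QA γ fun z => fderiv ℂ F z (Pi.single j 1)) : QA γ F := by
  intro τ hτ n
  have hb : AnalyticAt ℂ (fun z => F (γ + z)) 0 ∧ AnalyticAt ℂ (fun z => F (γ + z)) 0 ∧
      (fun z => F (γ + z)) 0 = τ ((fun z => F (γ + z)) 0) := by
    refine ⟨ana_to hF, ana_to hF, ?_⟩
    show F (γ + 0) = τ (F (γ + 0))
    rw [add_zero]
    exact (hτ _ h0).symm
  cases n with
  | zero => exact hb
  | succ n =>
    refine ⟨hb, fun v => ?_⟩
    have key : ∀ w : Fin β → ℂ, (fun z => fderiv ℂ (fun y => F (γ + y)) z w) =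
        fun z => ∑ j, (fun _ : Fin β → ℂ => w j) z *
          (fun y => fderiv ℂ F (γ + y) (Pi.single j 1)) z := by
      intro w
      funext z
      rw [shift, fsum]
    rw [key, key]
    exact Cj.sum _ fun j _ => (Cj.const n (v j)).mul (hd j τ hτ n)

theorem ode {F : (Fin β → ℂ) → ℂ} (hF : AnalyticAt ℂ F γ) (h0 : F γ ∈ Qbar)
    (L : Fin β → (Fin β → ℂ) → ℂ) (hL : ∀ j, QA γ (L j))
    (hd : ∀ j, ∀ᶠ z in 𝓝 γ, fderiv ℂ F z (Pi.single j 1) = F z * L j z) : QA γ F := by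
  intro τ hτ n
  have hb : AnalyticAt ℂ (fun z => F (γ + z)) 0 ∧ AnalyticAt ℂ (fun z => F (γ + z)) 0 ∧
      (fun z => F (γ + z)) 0 = τ ((fun z => F (γ + z)) 0) := by
    refine ⟨ana_to hF, ana_to hF, ?_⟩
    show F (γ + 0) = τ (F (γ + 0))
    rw [add_zero]
    exact (hτ _ h0).symm
  induction n with
  | zero => exact hb
  | succ n ih =>
    refine ⟨hb, fun v => ?_⟩
    have hall : ∀ᶠ z in 𝓝 γ, ∀ j, fderiv ℂ F z (Pi.single j 1) = F z * L j z :=
      eventually_all.2 hd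
    have key : ∀ w : Fin β → ℂ, (fun z => ∑ j, (fun _ : Fin β → ℂ => w j) z *
        ((fun y => F (γ + y)) z * (fun y => L j (γ + y)) z)) =ᶠ[𝓝 0]
        (fun z => fderiv ℂ (fun y => F (γ + y)) z w) := by
      intro w
      filter_upwards [(tend γ).eventually hall] with z hz
      rw [shift, fsum]
      refine Finset.sum_congr rfl fun j _ => ?_
      rw [hz j]
    refine Cj.congr (key v) (key _) ?_
    exact Cj.sum _ fun j _ => (Cj.const n (v j)).mul (ih.mul (hL j τ hτ n))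

theorem line_ana {F : (Fin β → ℂ) → ℂ} (hF : AnalyticAt ℂ F γ) (v : Fin β → ℂ) :
    AnalyticAt ℂ (fun s : ℂ => F (γ + s • v)) 0 := by
  have h1 : AnalyticAt ℂ (fun s : ℂ => γ + s • v) 0 := by fun_prop
  exact AnalyticAt.comp_of_eq hF h1 (by simp)

theorem line_deriv {F : (Fin β → ℂ) → ℂ} (hF : AnalyticAt ℂ F γ) (v : Fin β → ℂ) :
    (deriv fun s : ℂ => F (γ + s • v)) =ᶠ[𝓝 0] fun s => fderiv ℂ F (γ + s • v) v := by
  have h1 : Tendsto (fun s : ℂ => γ + s • v) (𝓝 0) (𝓝 γ) := by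
    have h : Continuous fun s : ℂ => γ + s • v := by fun_prop
    have h2 := h.tendsto 0
    simpa using h2
  filter_upwards [h1.eventually hF.eventually_analyticAt] with s hs
  have h2 : HasDerivAt (fun s : ℂ => γ + s • v) v s := by
    have h3 := ((hasDerivAt_id s).smul_const v).const_add γ
    simpa using h3
  exact (hs.differentiableAt.hasFDerivAt.comp_hasDerivAt s h2).deriv

theorem line {F : (Fin β → ℂ) → ℂ} {v : Fin β → ℂ} (hF : QA γ F) (hv : QV v) :
    QG fun s => F (γ + s • v) := by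
  refine ⟨line_ana (value hF).1 v, fun k => ?_⟩
  induction k generalizing F with
  | zero =>
    rw [iteratedDeriv_zero]
    simpa using (value hF).2
  | succ k ih =>
    rw [iteratedDeriv_succ']
    have h1 := line_deriv (value hF).1 v
    rw [h1.iteratedDeriv_eq k]
    exact ih (deriv' hF hv)

theorem trans {F : (Fin β → ℂ) → ℂ} (w : Fin β → ℂ) (hF : QA (γ + w) F) :
    QA γ fun z => F (z + w) := by
  intro τ hτ n
  have h := hF τ hτ n
  have h2 : (fun z => F (γ + w + z)) = fun z => (fun y => F (y + w)) (γ + z) := by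
    funext z
    show F (γ + w + z) = F (γ + z + w)
    rw [add_right_comm]
  rw [h2] at h
  exact h

end QACM

open QACM in
theorem specQAC : SpecQAC := by
  intro β γ
  exact ⟨fun F h => value h, fun c hc => const hc, fun F G hF hG => ⟨add hF hG, mul hF hG, sub hF hG⟩,
    fun F G h hF => congr h hF, fun F v hF hv => deriv' hF hv, fun F h1 h2 h3 => integ h1 h2 h3,
    fun F h1 h2 L h3 h4 => ode h1 h2 L h3 h4, fun F v hF hv => line hF hv,
    fun F w hF => trans w hF⟩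

end Pool.Agent.Lib.MPf11a48.SH
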