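import Pool.Agent.Lib.MP_f11a48_ag.SH.ESpec

/-!
# MP_f11a48_ag, project S0, part (e), module RHO: the functional equations of rho (helper77)
-/

set_option autoImplicit false

open MvPolynomial Pool.Agent.Lib.MPf11a48.CM Filter Topology
open Pool.Agent.Lib.MPf11a48.AS Pool.Agent.Lib.MPf11a48.U.ConjM

namespace Pool.Agent.Lib.MPf11a48.SH

namespace RHOM

theorem alg1 (E1 E2 P E3 a b c : ℂ) (ha : a ≠ 0) (hb : b ≠ 0) (h : E1 * E2 = P * E3) :
    E1 * a / b * (E2 * c / a) = P * (E3 * c / b) := by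
  field_simp
  linear_combination c * h

theorem alg4 (E1 E2 P E3 E4 b c : ℂ) (h4 : E4 ≠ 0) (hb : b ≠ 0) (h : E1 * E2 = P * E3 * E4) :
    E1 * (E2 * c) / (E4 * b) = P * (E3 * c / b) := by
  field_simp
  linear_combination c * h

section Gen

variable {Z I Λ : Type} [Fintype Λ] (D : TH Z I Λ)

theorem vq_add (t s : Λ → ℚ) : vq D (t + s) = vq D t + vq D s := by
  simp only [vq, Pi.add_apply, Rat.cast_add, add_smul, Finset.sum_add_distrib]

theorem aq_add (t s : Λ → ℚ) : aq D (t + s) = aq D t + aq D s := by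
  simp only [aq, Pi.add_apply, Rat.cast_add, add_smul, Finset.sum_add_distrib]

theorem vq_smul (n : ℕ) (t : Λ → ℚ) : vq D (fun l => (n : ℚ) * t l) = (n : ℂ) • vq D t := by
  simp only [vq, Rat.cast_mul, Rat.cast_natCast, mul_smul, Finset.smul_sum]

theorem aq_smul (n : ℕ) (t : Λ → ℚ) : aq D (fun l => (n : ℚ) * t l) = (n : ℂ) • aq D t := by
  simp only [aq, Rat.cast_mul, Rat.cast_natCast, mul_smul, Finset.smul_sum]

theorem vq_int {t : Λ → ℚ} {x : Λ → ℤ} (h : ∀ l, t l = x l) : vq D t = D.vec x := by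
  simp only [vq, TH.vec, h, Rat.cast_intCast]

theorem aq_int {t : Λ → ℚ} {x : Λ → ℤ} (h : ∀ l, t l = x l) : aq D t = D.al x := by
  simp only [aq, TH.al, h, Rat.cast_intCast]

theorem pr_smul (n : ℕ) (x t : Λ → ℚ) : pr D x (fun l => (n : ℚ) * t l) = (n : ℂ) * pr D x t := by
  simp only [pr, vq_smul, aq_smul, map_smul, LinearMap.smul_apply, smul_eq_mul]
  ring

theorem pr_self (n : ℕ) (t : Λ → ℚ) : pr D (fun l => (n : ℚ) * t l) t = 0 := by
  simp only [pr, vq_smul, aq_smul, map_smul, LinearMap.smul_apply, smul_eq_mul]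
  ring

omit [Fintype Λ] in
theorem int_add {x y : Λ → ℚ} (hx : IntV x) (hy : IntV y) : IntV (x + y) := by
  obtain ⟨a, ha⟩ := hx
  obtain ⟨b, hb⟩ := hy
  exact ⟨a + b, fun l => by simp [ha l, hb l]⟩

omit [Fintype Λ] in
theorem int_single [DecidableEq Λ] (l : Λ) : IntV (Pi.single l (1 : ℚ) : Λ → ℚ) := by
  refine ⟨Pi.single l 1, fun k => ?_⟩
  by_cases h : k = l
  · subst h; simp
  · simp [h]

theorem vq_single [DecidableEq Λ] (l : Λ) : vq D (Pi.single l (1 : ℚ) : Λ → ℚ) = D.lat l := by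
  rw [vq, Finset.sum_eq_single l]
  · simp
  · intro k _ h
    simp [h]
  · intro h
    exact absurd (Finset.mem_univ l) h

/-- (1) -/
theorem r1 (t s : Λ → ℚ) (z : Z → ℂ) (hz : D.th D.o z ≠ 0)
    (hzt : D.th D.o (z + vq D t) ≠ 0) :
    rho D t z * rho D s (z + vq D t) = Complex.exp (pr D t s) * rho D (t + s) z := by
  have h1 : Complex.exp (-(aq D t z) - aq D t (vq D t) / 2) *
      Complex.exp (-(aq D s (z + vq D t)) - aq D s (vq D s) / 2) =
      Complex.exp (pr D t s) *
        Complex.exp (-(aq D (t + s) z) - aq D (t + s) (vq D (t + s)) / 2) := by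
    rw [← Complex.exp_add, ← Complex.exp_add]
    congr 1
    simp only [pr, vq_add, aq_add, map_add, LinearMap.add_apply]
    ring
  have h2 : z + vq D t + vq D s = z + vq D (t + s) := by rw [vq_add, add_assoc]
  simp only [rho]
  rw [h2]
  exact alg1 _ _ _ _ _ _ _ hzt hz h1

variable [Fintype Z] [Fintype I]

theorem autq (hD : D.Good) {t : Λ → ℚ} (ht : IntV t) (z : Z → ℂ) : D.th D.o (z + vq D t) =
    Complex.exp (aq D t z + aq D t (vq D t) / 2) * D.th D.o z := by
  obtain ⟨x, hx⟩ := ht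
  rw [vq_int D hx, aq_int D hx, hD.aut]

theorem ne_int (hD : D.Good) {t : Λ → ℚ} (ht : IntV t) {z : Z → ℂ} (hz : D.th D.o z ≠ 0) :
    D.th D.o (z + vq D t) ≠ 0 := by
  rw [autq D hD ht]
  exact mul_ne_zero (Complex.exp_ne_zero _) hz

/-- (2) -/
theorem r2 (hD : D.Good) (x : Λ → ℚ) (hx : IntV x) (z : Z → ℂ) (hz : D.th D.o z ≠ 0) :
    rho D x z = 1 := by
  rw [rho, autq D hD hx, ← mul_assoc, ← Complex.exp_add, mul_div_assoc, div_self hz, mul_one]
  rw [show -(aq D x z) - aq D x (vq D x) / 2 + (aq D x z + aq D x (vq D x) / 2) = 0 by ring,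
    Complex.exp_zero]

/-- (3) -/
theorem r3 (hD : D.Good) (x t : Λ → ℚ) (hx : IntV x) (n : ℕ)
    (ht : IntV (fun l => (n : ℚ) * t l)) : Complex.exp (pr D x t) ^ n = 1 := by
  rw [← Complex.exp_nat_mul, ← pr_smul]
  have h := r1 D x (fun l => (n : ℚ) * t l) 0 hD.zero (ne_int D hD hx hD.zero)
  rw [r2 D hD x hx 0 hD.zero, r2 D hD _ ht _ (ne_int D hD hx hD.zero),
    r2 D hD _ (int_add hx ht) 0 hD.zero] at h
  simpa using h.symm

/-- (4) -/
theorem r4 (hD : D.Good) (x t : Λ → ℚ) (hx : IntV x) (z : Z → ℂ) (hz : D.th D.o z ≠ 0) :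
    rho D t (z + vq D x) = Complex.exp (2 * pr D x t) * rho D t z := by
  have h1 : z + vq D x + vq D t = z + vq D t + vq D x := by abel
  have h2 : Complex.exp (-(aq D t (z + vq D x)) - aq D t (vq D t) / 2) *
      Complex.exp (aq D x (z + vq D t) + aq D x (vq D x) / 2) =
      Complex.exp (2 * pr D x t) * Complex.exp (-(aq D t z) - aq D t (vq D t) / 2) *
        Complex.exp (aq D x z + aq D x (vq D x) / 2) := by
    rw [← Complex.exp_add, ← Complex.exp_add, ← Complex.exp_add]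
    congr 1
    simp only [pr, map_add]
    ring
  have h3 := Complex.exp_ne_zero (aq D x z + aq D x (vq D x) / 2)
  simp only [rho]
  rw [h1, autq D hD hx z, autq D hD hx (z + vq D t)]
  exact alg4 _ _ _ _ _ _ _ h3 hz h2

/-- (7) -/
theorem r7 (hD : D.Good) (t : Λ → ℚ) (n : ℕ) (ht : IntV (fun l => (n : ℚ) * t l)) (z : Z → ℂ)
    (h : ∀ k : ℕ, k ≤ n → D.th D.o (z + (k : ℂ) • vq D t) ≠ 0) :
    ∏ k ∈ Finset.range n, rho D t (z + (k : ℂ) • vq D t) = 1 := by
  have hz : D.th D.o z ≠ 0 := by simpa using h 0 (Nat.zero_le n)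
  have hm : ∀ m : ℕ, m ≤ n → ∏ k ∈ Finset.range m, rho D t (z + (k : ℂ) • vq D t) =
      rho D (fun l => (m : ℚ) * t l) z := by
    intro m
    induction m with
    | zero =>
      intro _
      rw [Finset.range_zero, Finset.prod_empty]
      exact (r2 D hD _ ⟨0, fun l => by simp⟩ z hz).symm
    | succ m ih =>
      intro hmn
      have h1 := h m (by omega)
      rw [Finset.prod_range_succ, ih (by omega)]
      have h2 := r1 D (fun l => (m : ℚ) * t l) t z hz (by rw [vq_smul]; exact h1)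
      rw [vq_smul, pr_self, Complex.exp_zero, one_mul] at h2
      rw [h2]
      congr 1
      funext l
      simp only [Pi.add_apply]
      push_cast
      ring
  rw [hm n le_rfl]
  exact r2 D hD _ ht z hz

end Gen

section Der

variable {β : ℕ} {I Λ : Type} [Fintype I] [Fintype Λ] (D : TH (Fin β) I Λ)

theorem lin_hd (f : (Fin β → ℂ) →ₗ[ℂ] ℂ) (z v : Fin β → ℂ) (s : ℂ) :
    HasDerivAt (fun s : ℂ => f (z + s • v)) (f v) s := by
  have h : (fun s : ℂ => f (z + s • v)) = fun s => f z + s * f v := by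
    funext s
    simp
  rw [h]
  simpa using ((hasDerivAt_id s).mul_const (f v)).const_add (f z)

theorem th_hd (hD : D.Good) (z v : Fin β → ℂ) :
    HasDerivAt (fun s : ℂ => D.th D.o (z + s • v)) (fderiv ℂ (D.th D.o) z v) 0 := by
  have h1 : HasDerivAt (fun s : ℂ => z + s • v) v 0 := by
    simpa using ((hasDerivAt_id (0 : ℂ)).smul_const v).const_add z
  have h2 : HasFDerivAt (D.th D.o) (fderiv ℂ (D.th D.o) z) (z + (0 : ℂ) • v) := by
    rw [zero_smul, add_zero]
    exact (hD.diff D.o z).hasFDerivAt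
  exact h2.comp_hasDerivAt 0 h1

theorem diff_rho (hD : D.Good) (t : Λ → ℚ) {z : Fin β → ℂ} (hz : D.th D.o z ≠ 0) :
    DifferentiableAt ℂ (rho D t) z := by
  have h1 : DifferentiableAt ℂ (fun z => aq D t z) z :=
    (LinearMap.toContinuousLinearMap (aq D t)).differentiableAt
  have h2 : DifferentiableAt ℂ (fun z => D.th D.o (z + vq D t)) z :=
    (hD.diff D.o).comp (differentiable_id.add_const _) z
  have h3 : DifferentiableAt ℂ (fun z => Complex.exp (-(aq D t z) - aq D t (vq D t) / 2)) z :=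
    (h1.neg.sub_const _).cexp
  have h4 : rho D t = fun z => Complex.exp (-(aq D t z) - aq D t (vq D t) / 2) *
      D.th D.o (z + vq D t) * (D.th D.o z)⁻¹ := by
    funext w
    rw [rho, div_eq_mul_inv]
  rw [h4]
  exact (h3.mul h2).mul ((hD.diff D.o z).inv hz)

/-- (6) -/
theorem r6 (hD : D.Good) (t : Λ → ℚ) (z v : Fin β → ℂ) (hz : D.th D.o z ≠ 0)
    (hzt : D.th D.o (z + vq D t) ≠ 0) : fderiv ℂ (rho D t) z v =
      rho D t z * (zeta D v (z + vq D t) - zeta D v z - aq D t v) := by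
  have h0 : HasDerivAt (fun s : ℂ => rho D t (z + s • v)) (fderiv ℂ (rho D t) z v) 0 := by
    have h1 : HasDerivAt (fun s : ℂ => z + s • v) v 0 := by
      simpa using ((hasDerivAt_id (0 : ℂ)).smul_const v).const_add z
    have h2 : HasFDerivAt (rho D t) (fderiv ℂ (rho D t) z) (z + (0 : ℂ) • v) := by
      rw [zero_smul, add_zero]
      exact (diff_rho D hD t hz).hasFDerivAt
    exact h2.comp_hasDerivAt 0 h1
  have ha : HasDerivAt (fun s : ℂ => -(aq D t (z + s • v)) - aq D t (vq D t) / 2)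
      (-(aq D t v)) 0 := ((lin_hd (aq D t) z v 0).neg).sub_const _
  have hb : HasDerivAt (fun s : ℂ => D.th D.o (z + s • v + vq D t))
      (fderiv ℂ (D.th D.o) (z + vq D t) v) 0 := by
    have := th_hd D hD (z + vq D t) v
    refine this.congr_of_eventuallyEq (Eventually.of_forall fun s => ?_)
    simp only
    congr 1
    abel
  have hc := th_hd D hD z v
  have hd := (ha.cexp.mul hb).div hc (by simpa using hz)
  have he := h0.unique hd
  rw [he]
  simp only [rho, zeta, Pi.mul_apply, zero_smul, add_zero]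
  field_simp
  ring

/-- (8) -/
theorem r8 (hD : D.Good) (x : Λ → ℚ) (hx : IntV x) (z v : Fin β → ℂ) (hz : D.th D.o z ≠ 0) :
    zeta D v (z + vq D x) = zeta D v z + aq D x v := by
  have h1 := th_hd D hD (z + vq D x) v
  have h2 : HasDerivAt (fun s : ℂ => Complex.exp (aq D x (z + s • v) + aq D x (vq D x) / 2) *
      D.th D.o (z + s • v)) (Complex.exp (aq D x (z + (0 : ℂ) • v) + aq D x (vq D x) / 2) *
        (aq D x v) * D.th D.o (z + (0 : ℂ) • v) +
        Complex.exp (aq D x (z + (0 : ℂ) • v) + aq D x (vq D x) / 2) *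
          fderiv ℂ (D.th D.o) z v) 0 :=
    (((lin_hd (aq D x) z v 0).add_const _).cexp).mul (th_hd D hD z v)
  have h3 : (fun s : ℂ => D.th D.o (z + vq D x + s • v)) = fun s : ℂ =>
      Complex.exp (aq D x (z + s • v) + aq D x (vq D x) / 2) * D.th D.o (z + s • v) := by
    funext s
    rw [← autq D hD hx]
    congr 1
    abel
  rw [h3] at h1
  have h4 := h1.unique h2
  rw [zero_smul, add_zero] at h4
  have h5 := Complex.exp_ne_zero (aq D x z + aq D x (vq D x) / 2)
  rw [zeta, zeta, h4, autq D hD hx]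
  field_simp
  ring

theorem diff_fd {G : (Fin β → ℂ) → ℂ} (hG : Differentiable ℂ G) (v : Fin β → ℂ) :
    Differentiable ℂ fun z => fderiv ℂ G z v := by
  intro z
  have h1 : AnalyticAt ℂ G z := U.Osgood.analyticAt_of_differentiable hG z
  exact (h1.fderiv.differentiableAt).clm_apply (differentiableAt_const v)

/-- (5), periodicity -/
theorem per5 (hD : D.Good) (t : Λ → ℚ) (n : ℕ) (ht : IntV (fun l => (n : ℚ) * t l)) (l : Λ)
    (z : Fin β → ℂ) (hz : D.th D.o z ≠ 0) : rho D t (z + D.lat l) ^ n = rho D t z ^ n := by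
  classical
  have h1 := r4 D hD (Pi.single l 1) t (int_single l) z hz
  rw [vq_single] at h1
  rw [h1, mul_pow, two_mul, Complex.exp_add, mul_pow, r3 D hD _ t (int_single l) n ht, one_mul,
    one_mul]

theorem r5 (hD : D.Good) (t : Λ → ℚ) (n : ℕ) (ht : IntV (fun l => (n : ℚ) * t l)) :
    D.IsS (fun z => rho D t z ^ n) ∧ ∀ v, D.IsS fun z => fderiv ℂ (fun w => rho D t w ^ n) z v := by
  have hG : Differentiable ℂ fun z : Fin β → ℂ =>
      (Complex.exp (-(aq D t z) - aq D t (vq D t) / 2) * D.th D.o (z + vq D t)) ^ n := by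
    have h1 : Differentiable ℂ (fun z => aq D t z) :=
      (LinearMap.toContinuousLinearMap (aq D t)).differentiable
    have h2 : Differentiable ℂ (fun z => D.th D.o (z + vq D t)) :=
      (hD.diff D.o).comp (differentiable_id.add_const _)
    exact (((h1.neg.sub_const _).cexp).mul h2).pow n
  have hA : ∀ z, D.th D.o z ≠ 0 → rho D t z ^ n * D.th D.o z ^ n =
      (Complex.exp (-(aq D t z) - aq D t (vq D t) / 2) * D.th D.o (z + vq D t)) ^ n := by
    intro z hz
    rw [← mul_pow, rho, div_mul_cancel₀ _ hz]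
  have hop : ∀ z, D.th D.o z ≠ 0 → ∀ᶠ w in 𝓝 z, D.th D.o w ≠ 0 := fun z hz =>
    (hD.diff D.o).continuous.continuousAt.eventually_ne hz
  refine ⟨⟨⟨n, _, hG, hA⟩, fun l z hz => per5 D hD t n ht l z hz⟩, fun v => ⟨?_, ?_⟩⟩
  · refine ⟨n + 1, fun z => fderiv ℂ (fun z : Fin β → ℂ =>
      (Complex.exp (-(aq D t z) - aq D t (vq D t) / 2) * D.th D.o (z + vq D t)) ^ n) z v *
        D.th D.o z - n * (Complex.exp (-(aq D t z) - aq D t (vq D t) / 2) *
          D.th D.o (z + vq D t)) ^ n * fderiv ℂ (D.th D.o) z v, ?_, ?_⟩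
    · exact ((diff_fd hG v).mul (hD.diff D.o)).sub ((hG.const_mul _).mul (diff_fd (hD.diff D.o) v))
    · intro z hz
      have h1 : (fun z : Fin β → ℂ => rho D t z ^ n * D.th D.o z ^ n) =ᶠ[𝓝 z] fun z =>
          (Complex.exp (-(aq D t z) - aq D t (vq D t) / 2) * D.th D.o (z + vq D t)) ^ n :=
        (hop z hz).mono fun w hw => hA w hw
      have h2 := h1.fderiv_eq (𝕜 := ℂ)
      have h3 : DifferentiableAt ℂ (fun w => rho D t w ^ n) z := (diff_rho D hD t hz).pow n
      have h4 : DifferentiableAt ℂ (fun w => D.th D.o w ^ n) z := (hD.diff D.o z).pow n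
      beta_reduce
      rw [← h2, ← hA z hz, fderiv_fun_mul h3 h4, fderiv_fun_pow n (hD.diff D.o z)]
      simp only [ContinuousLinearMap.add_apply, ContinuousLinearMap.smul_apply, smul_eq_mul,
        nsmul_eq_mul]
      rcases n with _ | n
      · simp
      · simp only [Nat.add_sub_cancel]
        ring
  · intro l z hz
    have h1 : (fun w : Fin β → ℂ => rho D t (w + D.lat l) ^ n) =ᶠ[𝓝 z] fun w => rho D t w ^ n :=
      (hop z hz).mono fun w hw => per5 D hD t n ht l w hw
    have h2 := h1.fderiv_eq (𝕜 := ℂ)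
    have h3 : fderiv ℂ (fun w => rho D t (w + D.lat l) ^ n) z =
        fderiv ℂ (fun w => rho D t w ^ n) (z + D.lat l) :=
      fderiv_comp_add_right (f := fun w => rho D t w ^ n) (D.lat l)
    exact congrArg (fun L => L v) (h3.symm.trans h2)

end Der

end RHOM

open RHOM in
theorem specRHO : SpecRHO := by
  intro β I Λ _ _ D hD
  refine ⟨fun t s z h1 h2 => r1 D t s z h1 h2, fun x hx z hz => r2 D hD x hx z hz,
    fun x t hx n ht => r3 D hD x t hx n ht, fun x t hx z hz => r4 D hD x t hx z hz,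
    fun t n _ ht => r5 D hD t n ht, fun t z v h1 h2 => r6 D hD t z v h1 h2,
    fun t n _ ht z h => r7 D hD t n ht z h, fun x hx z v hz => r8 D hD x hx z v hz⟩

end Pool.Agent.Lib.MPf11a48.SH
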