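import Pool.Agent.Lib.MP_f11a48_ag.SH.ESpec

/-!
# MP_f11a48_ag, project S0, part (e): Taylor coefficients of `rho` on lines (RHQ)
-/

set_option autoImplicit false

open MvPolynomial Pool.Agent.Lib.MPf11a48.CM Filter Topology
open Pool.Agent.Lib.MPf11a48.AS Pool.Agent.Lib.MPf11a48.U.ConjM

namespace Pool.Agent.Lib.MPf11a48.SH

namespace RHQM

/-- a common denominator -/
theorem common_den {Λ : Type} [Fintype Λ] (t : Λ → ℚ) :
    ∃ q : ℕ, 1 ≤ q ∧ ∃ x : Λ → ℤ, ∀ l, (q : ℚ) * t l = x l := by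
  classical
  refine ⟨∏ l, (t l).den, Nat.one_le_iff_ne_zero.2 (Finset.prod_ne_zero_iff.2 fun l _ =>
    (t l).den_nz), fun l => (∏ k ∈ Finset.univ.erase l, ((t k).den : ℤ)) * (t l).num,
    fun l => ?_⟩
  have h1 : ((∏ k, (t k).den : ℕ) : ℚ) =
      (∏ k ∈ Finset.univ.erase l, ((t k).den : ℚ)) * ((t l).den : ℚ) := by
    rw [Nat.cast_prod]
    exact (Finset.prod_erase_mul Finset.univ (fun k => ((t k).den : ℚ)) (Finset.mem_univ l)).symm
  rw [h1, mul_assoc, Rat.den_mul_eq_num]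
  push_cast
  rfl

/-- `rho` is analytic on lines through points with `th_o ≠ 0`. -/
theorem analytic_line {Z I Λ : Type} [Fintype Z] [Fintype Λ] (D : TH Z I Λ)
    (hth : Differentiable ℂ (D.th D.o)) (t : Λ → ℚ) (γ v : Z → ℂ) (h : D.th D.o γ ≠ 0) :
    AnalyticAt ℂ (fun x : ℂ => rho D t (γ + x • v)) 0 := by
  have hline : Differentiable ℂ (fun x : ℂ => γ + x • v) := by fun_prop
  have hline2 : Differentiable ℂ (fun x : ℂ => γ + x • v + vq D t) := by fun_prop
  have e1 : AnalyticAt ℂ (fun x : ℂ => D.th D.o (γ + x • v)) 0 := (hth.comp hline).analyticAt 0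
  have e2 : AnalyticAt ℂ (fun x : ℂ => D.th D.o (γ + x • v + vq D t)) 0 :=
    (hth.comp hline2).analyticAt 0
  have e3 : AnalyticAt ℂ (fun x : ℂ => Complex.exp (-(aq D t (γ + x • v)) -
      aq D t (vq D t) / 2)) 0 := by
    have h1 : (fun x : ℂ => Complex.exp (-(aq D t (γ + x • v)) - aq D t (vq D t) / 2)) =
        fun x : ℂ => Complex.exp (-(aq D t γ + x * aq D t v) - aq D t (vq D t) / 2) := by
      funext x
      rw [map_add, map_smul, smul_eq_mul]
    rw [h1]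
    have h2 : Differentiable ℂ fun x : ℂ =>
        Complex.exp (-(aq D t γ + x * aq D t v) - aq D t (vq D t) / 2) := by fun_prop
    exact h2.analyticAt 0
  have h0 : (fun x : ℂ => D.th D.o (γ + x • v)) 0 ≠ 0 := by
    show D.th D.o (γ + (0 : ℂ) • v) ≠ 0
    rw [zero_smul, add_zero]
    exact h
  exact (e3.mul e2).div e1 h0

end RHQM

theorem specRHQ (hQAC : SpecQAC) (hGQA : SpecGQA) (hROO : SpecROO) : SpecRHQ := by
  intro β I Λ _ _ D hG hA hL s t hs v hv
  obtain ⟨n, hn, x, hx⟩ := RHQM.common_den t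
  have h1 : QA (vq D.toTH s) fun z => rho D.toTH t z ^ n :=
    hGQA D hG hA hL s t hs n hn ⟨x, hx⟩
  have h2 := (hQAC (vq D.toTH s)).2.2.2.2.2.2.2.1 _ v h1 hv
  exact hROO.2.2.2.2.2.1 (fun x : ℂ => rho D.toTH t (vq D.toTH s + x • v)) n hn
    (RHQM.analytic_line D.toTH (hG.good.diff D.o) t (vq D.toTH s) v hs) h2

end Pool.Agent.Lib.MPf11a48.SH
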