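import Pool.Agent.Lib.MP_f11a48_ag.SH.ESpec

/-!
# MP_f11a48_ag, project S0, part (e): germs of one variable (module ROO)
-/

set_option autoImplicit false

open MvPolynomial Pool.Agent.Lib.MPf11a48.CM Filter Topology
open Pool.Agent.Lib.MPf11a48.AS Pool.Agent.Lib.MPf11a48.U.ConjM

namespace Pool.Agent.Lib.MPf11a48.SH

namespace ROOM

theorem an_cd {φ : ℂ → ℂ} (h : AnalyticAt ℂ φ 0) (n : ℕ) : ContDiffAt ℂ n φ 0 :=
  h.contDiffAt

theorem val {φ : ℂ → ℂ} (h : QG φ) : φ 0 ∈ Qbar := by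
  have := h.2 0
  rwa [iteratedDeriv_zero] at this

theorem const {c : ℂ} (hc : c ∈ Qbar) : QG fun _ => c := by
  refine ⟨analyticAt_const, fun k => ?_⟩
  rw [iteratedDeriv_const]
  split_ifs
  · exact hc
  · exact zero_mem _

theorem add {φ ψ : ℂ → ℂ} (h : QG φ) (h' : QG ψ) : QG fun s => φ s + ψ s := by
  refine ⟨h.1.add h'.1, fun k => ?_⟩
  have := iteratedDeriv_add (an_cd h.1 k) (an_cd h'.1 k)
  have e : (fun s => φ s + ψ s) = φ + ψ := rfl
  rw [e, this]
  exact add_mem (h.2 k) (h'.2 k)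

theorem leib {φ ψ : ℂ → ℂ} (h : AnalyticAt ℂ φ 0) (h' : AnalyticAt ℂ ψ 0) (k : ℕ) :
    iteratedDeriv k (fun s => φ s * ψ s) 0 =
      ∑ i ∈ Finset.range (k + 1), (k.choose i : ℂ) * iteratedDeriv i φ 0 *
        iteratedDeriv (k - i) ψ 0 := by
  have := iteratedDeriv_mul (an_cd h k) (an_cd h' k)
  have e : (fun s => φ s * ψ s) = φ * ψ := rfl
  rw [e, this]

theorem mul {φ ψ : ℂ → ℂ} (h : QG φ) (h' : QG ψ) : QG fun s => φ s * ψ s := by
  refine ⟨h.1.mul h'.1, fun k => ?_⟩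
  rw [leib h.1 h'.1]
  exact sum_mem fun i _ => mul_mem (mul_mem (natCast_mem _ _) (h.2 i)) (h'.2 _)

theorem congr {φ ψ : ℂ → ℂ} (he : ∀ᶠ s in 𝓝 0, φ s = ψ s) (h : QG φ) : QG ψ := by
  refine ⟨h.1.congr he, fun k => ?_⟩
  have := Filter.EventuallyEq.iteratedDeriv_eq k he
  rw [← this]
  exact h.2 k

theorem pow {φ : ℂ → ℂ} (h : QG φ) (n : ℕ) : QG fun s => φ s ^ n := by
  induction n with
  | zero => simpa using const (one_mem _)
  | succ n ih =>
    have := mul ih h
    simpa [pow_succ] using this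

theorem inv {φ : ℂ → ℂ} (h : QG φ) (h0 : φ 0 ≠ 0) : QG fun s => (φ s)⁻¹ := by
  have ha : AnalyticAt ℂ (fun s => (φ s)⁻¹) 0 := h.1.inv h0
  refine ⟨ha, fun k => ?_⟩
  induction k using Nat.strong_induction_on with
  | _ k ih =>
    have hev : ∀ᶠ s in 𝓝 (0 : ℂ), φ s * (φ s)⁻¹ = 1 := by
      filter_upwards [h.1.continuousAt.eventually_ne h0] with s hs
      exact mul_inv_cancel₀ hs
    have h1 := Filter.EventuallyEq.iteratedDeriv_eq k (f := fun s => φ s * (φ s)⁻¹)
      (g := fun _ => (1 : ℂ)) hev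
    rw [leib h.1 ha, Finset.sum_range_succ'] at h1
    have h2 : iteratedDeriv k (fun _ : ℂ => (1 : ℂ)) 0 ∈ Qbar := (const (one_mem _)).2 k
    rw [← h1] at h2
    have h3 : ∑ i ∈ Finset.range k, (k.choose (i + 1) : ℂ) * iteratedDeriv (i + 1) φ 0 *
        iteratedDeriv (k - (i + 1)) (fun s => (φ s)⁻¹) 0 ∈ Qbar := by
      refine sum_mem fun i hi => mul_mem (mul_mem (natCast_mem _ _) (h.2 _)) (ih _ ?_)
      have := Finset.mem_range.mp hi
      omega
    have h4 := sub_mem h2 h3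
    rw [add_sub_cancel_left] at h4
    simp only [Nat.choose_zero_right, Nat.cast_one, one_mul, iteratedDeriv_zero, tsub_zero] at h4
    have h5 := mul_mem (inv_mem (val h)) h4
    rwa [← mul_assoc, inv_mul_cancel₀ h0, one_mul] at h5

theorem der {φ : ℂ → ℂ} (h : QG φ) : QG (deriv φ) := by
  refine ⟨h.1.deriv, fun k => ?_⟩
  rw [← iteratedDeriv_succ']
  exact h.2 _

theorem ode {φ χ : ℂ → ℂ} (ha : AnalyticAt ℂ φ 0) (h0 : φ 0 ∈ Qbar) (h : QG χ)
    (he : ∀ᶠ s in 𝓝 0, deriv φ s = φ s * χ s) : QG φ := by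
  refine ⟨ha, fun k => ?_⟩
  induction k using Nat.strong_induction_on with
  | _ k ih =>
    rcases k with _ | k
    · rwa [iteratedDeriv_zero]
    · rw [iteratedDeriv_succ', Filter.EventuallyEq.iteratedDeriv_eq k he, leib ha h.1]
      refine sum_mem fun i hi => mul_mem (mul_mem (natCast_mem _ _) (ih _ ?_)) (h.2 _)
      have := Finset.mem_range.mp hi
      omega

theorem ident : QG fun s => s := by
  refine ⟨analyticAt_id, fun k => ?_⟩
  have e : (fun s : ℂ => s) = id := rfl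
  rw [e, iteratedDeriv_id]
  split_ifs
  · exact zero_mem _
  · exact one_mem _
  · exact zero_mem _

theorem shift {g : ℂ → ℂ} (ha : AnalyticAt ℂ g 0) (h : QG fun s => s * g s) : QG g := by
  refine ⟨ha, fun k => ?_⟩
  have h1 := h.2 (k + 1)
  have e : (fun s : ℂ => s * g s) = fun s => id s * g s := rfl
  rw [e, leib analyticAt_id ha] at h1
  rw [Finset.sum_eq_single 1] at h1
  · rw [iteratedDeriv_id] at h1
    simp only [Nat.choose_one_right, one_ne_zero, if_false, if_true, mul_one,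
      Nat.add_sub_cancel] at h1
    have h2 : ((k + 1 : ℕ) : ℂ) ≠ 0 := Nat.cast_ne_zero.mpr (Nat.succ_ne_zero k)
    have h3 := mul_mem (inv_mem (natCast_mem Qbar (k + 1))) h1
    rwa [← mul_assoc, inv_mul_cancel₀ h2, one_mul] at h3
  · intro i _ hi
    rw [iteratedDeriv_id]
    rcases Nat.eq_zero_or_pos i with h0 | h0
    · subst h0; simp
    · rw [if_neg (by omega), if_neg hi]; simp
  · intro hc
    exact absurd (Finset.mem_range.mpr (by omega)) hc

theorem shift_pow {g : ℂ → ℂ} (ha : AnalyticAt ℂ g 0) (m : ℕ) (h : QG fun s => s ^ m * g s) :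
    QG g := by
  induction m with
  | zero => simpa using h
  | succ m ih =>
    refine ih (shift ((analyticAt_id.pow m).mul ha) ?_)
    refine congr (Filter.Eventually.of_forall fun s => ?_) h
    ring

theorem root (φ : ℂ → ℂ) (n : ℕ) (hn : 1 ≤ n) (ha : AnalyticAt ℂ φ 0)
    (h : QG fun s => φ s ^ n) : QG φ := by
  by_cases hz : ∀ᶠ s in 𝓝 0, φ s = 0
  · exact congr (hz.mono fun s hs => hs.symm) (const (zero_mem _))
  · obtain ⟨m, ψ, hψ, hψ0, he⟩ := ha.exists_eventuallyEq_pow_smul_nonzero_iff.mpr hz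
    have he' : ∀ᶠ s in 𝓝 (0 : ℂ), φ s = s ^ m * ψ s := by
      filter_upwards [he] with s hs
      rw [hs, sub_zero, smul_eq_mul]
    have h1 : QG fun s => s ^ (m * n) * ψ s ^ n := by
      refine congr ?_ h
      filter_upwards [he'] with s hs
      rw [hs, mul_pow, ← pow_mul]
    have h2 : QG fun s => ψ s ^ n := shift_pow (hψ.pow n) _ h1
    have h3 : ψ 0 ∈ Qbar := by
      have := val h2
      rw [mem_algebraicClosure_iff] at this ⊢
      exact IsAlgebraic.of_pow (by omega) this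
    have hψn : ψ 0 ^ n ≠ 0 := pow_ne_zero _ hψ0
    have hnC : (n : ℂ) ≠ 0 := Nat.cast_ne_zero.mpr (by omega)
    have h4 : QG fun s => (deriv (fun s => ψ s ^ n) s * (ψ s ^ n)⁻¹) * (n : ℂ)⁻¹ :=
      mul (mul (der h2) (inv h2 hψn)) (const (inv_mem (natCast_mem _ _)))
    have h5 : QG ψ := by
      refine ode hψ h3 h4 ?_
      filter_upwards [hψ.eventually_analyticAt, hψ.continuousAt.eventually_ne hψ0] with s hs hs0
      have hd : deriv (fun s => ψ s ^ n) s = n * ψ s ^ (n - 1) * deriv ψ s := by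
        have h6 := (hs.differentiableAt.hasDerivAt.pow n).deriv
        have e6 : (fun s => ψ s ^ n) = ψ ^ n := rfl
        rw [e6, h6]
      rw [hd]
      have e : ψ s ^ n = ψ s ^ (n - 1) * ψ s := by
        rw [← pow_succ, Nat.sub_add_cancel hn]
      rw [e]
      have := pow_ne_zero (n - 1) hs0
      field_simp
    refine congr (he'.mono fun s hs => hs.symm) (mul (pow ident m) h5)

end ROOM

theorem specROO : SpecROO :=
  ⟨fun _ hc => ROOM.const hc, fun _ _ h h' => ⟨ROOM.add h h', ROOM.mul h h'⟩,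
    fun _ _ he h => ROOM.congr he h, fun _ h h0 => ROOM.inv h h0, fun _ h => ROOM.der h,
    fun φ n hn ha h => ROOM.root φ n hn ha h, fun _ _ ha h0 h he => ROOM.ode ha h0 h he⟩

end Pool.Agent.Lib.MPf11a48.SH
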