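import Pool.Agent.Lib.MP_f11a48_ag.SH.EBSpec

/-!
# MP_f11a48_ag, project S0, part (e), module THE: THEOREM E' for a base datum
-/

set_option autoImplicit false

open MvPolynomial Pool.Agent.Lib.MPf11a48.CM Filter Topology
open Pool.Agent.Lib.MPf11a48.AS Pool.Agent.Lib.MPf11a48.U.ConjM

namespace Pool.Agent.Lib.MPf11a48.SH

namespace THEM

variable {β : ℕ} {I Λ : Type} [Fintype I] [Fintype Λ]

theorem fderiv_line {F : (Fin β → ℂ) → ℂ} (hF : Differentiable ℂ F) (v : Fin β → ℂ) (c : ℂ) :
    deriv (fun x : ℂ => F (x • v) / c) 0 = fderiv ℂ F 0 v / c := by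
  have h1 : HasDerivAt (fun x : ℂ => x • v) v 0 := by
    simpa using (hasDerivAt_id (0 : ℂ)).smul_const v
  have h2 : HasFDerivAt F (fderiv ℂ F 0) ((0 : ℂ) • v) := by
    rw [zero_smul]; exact (hF 0).hasFDerivAt
  have h3 := h2.comp_hasDerivAt (0 : ℂ) h1
  exact (h3.div_const c).deriv

/-- value and first derivatives at `0` of the functions in `QQ` -/
theorem jet (hJET : SpecJET) (hUOP : SpecUOP) (D : QD β I Λ) (hD : D.Good) (hA : D.Alg)
    (hL : LogD D.toTH) (b : Fin β ⊕ Fin β → Λ → ℚ)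
    (hb : ∀ k l, pr D.toTH (b k) (b l) = Real.pi * Complex.I * (sy k l : ℤ))
    (F : (Fin β → ℂ) → ℂ) (hF : QQ D.toTH F) :
    F 0 / D.th D.o 0 ∈ Qbar ∧ ∀ v, QV v → fderiv ℂ F 0 v / D.th D.o 0 ∈ Qbar := by
  have hdiff : ∀ G, QQ D.toTH G → Differentiable ℂ G := fun G hG =>
    ((hUOP.2.2 D.toTH hD.good b hb).2.2 G hG).1
  induction hF with
  | tr s =>
    have key : ∀ v, QV v → QG fun x : ℂ => UU D.toTH s (D.th D.o) (x • v) / D.th D.o 0 :=
      fun v hv => hJET D hD hA hL s v hv
    constructor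
    · have h0 := (key 0 fun j => Qbar.zero_mem).2 0
      rw [iteratedDeriv_zero] at h0
      simpa using h0
    · intro v hv
      have h1 := (key v hv).2 1
      rw [iteratedDeriv_one, fderiv_line (hdiff _ (QQ.tr s))] at h1
      exact h1
  | add F G hF hG ihF ihG =>
    constructor
    · rw [add_div]
      exact Qbar.add_mem ihF.1 ihG.1
    · intro v hv
      have : fderiv ℂ (fun z => F z + G z) 0 v = fderiv ℂ F 0 v + fderiv ℂ G 0 v := by
        rw [fderiv_fun_add (hdiff F hF 0) (hdiff G hG 0)]; rfl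
      rw [this, add_div]
      exact Qbar.add_mem (ihF.2 v hv) (ihG.2 v hv)
  | smul c F hc hF ih =>
    constructor
    · rw [mul_div_assoc]
      exact Qbar.mul_mem hc ih.1
    · intro v hv
      have : fderiv ℂ (fun z => c * F z) 0 v = c * fderiv ℂ F 0 v := by
        rw [fderiv_const_mul (hdiff F hF 0)]; rfl
      rw [this, mul_div_assoc]
      exact Qbar.mul_mem hc (ih.2 v hv)

omit [Fintype I] in
/-- `aq` and `vq` paired: the Riemann form -/
theorem rie (D : TH (Fin β) I Λ) (t s : Λ → ℚ) :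
    aq D t (vq D s) - aq D s (vq D t) = 2 * pr D t s := by
  unfold pr; ring

end THEM

theorem specTHE (hJET : SpecJET) (hUOP : SpecUOP) (hEIG : SpecEIG) (hQCH : SpecQCH)
    (hUNQ : SpecUNQ) : SpecTHE := by
  intro β I Λ _ _ D hD hA hL b hb hind a' ha1 ha2 ha3 c M hM hc Theta hTd hTne hTaut
  obtain ⟨Q, hQs, hQ⟩ := hQCH D.toTH hD.good a' ha1 ha2 ha3
  obtain ⟨F, hF, hFne, hFaut⟩ := hEIG D.toTH hD.good b hb c M hM hc
  obtain ⟨-, -, hUU⟩ := hUOP.2.2 D.toTH hD.good b hb
  -- the function `Theta'`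
  set Th' : (Fin β → ℂ) → ℂ := fun z => Complex.exp (-(Q z z) / 2) * Theta z with hTh'
  have hQd : Differentiable ℂ fun z : Fin β → ℂ => Q z z := by
    have : (fun z : Fin β → ℂ => Q z z) = fun z => (∑ i, ∑ j, z i * (z j * Q (Pi.single i 1) (Pi.single j 1))) := by
      funext z
      conv_lhs => rw [← Finset.univ_sum_single z]
      simp only [map_sum, LinearMap.sum_apply]
      rw [Finset.sum_comm]
      refine Finset.sum_congr rfl fun i _ => Finset.sum_congr rfl fun j _ => ?_
      have e1 : (Pi.single i (z i) : Fin β → ℂ) = z i • Pi.single i 1 := by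
        rw [← Pi.single_smul, smul_eq_mul, mul_one]
      have e2 : (Pi.single j (z j) : Fin β → ℂ) = z j • Pi.single j 1 := by
        rw [← Pi.single_smul, smul_eq_mul, mul_one]
      rw [e1, e2]
      simp only [map_smul, LinearMap.smul_apply, smul_eq_mul]
      ring
    rw [this]
    fun_prop
  have hQf : HasFDerivAt (fun z : Fin β → ℂ => Q z z) (0 : (Fin β → ℂ) →L[ℂ] ℂ) 0 := by
    have h1 := (hQd 0).hasFDerivAt
    have h2 : fderiv ℂ (fun z : Fin β → ℂ => Q z z) 0 = 0 := by
      ext v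
      have h3 : HasDerivAt (fun x : ℂ => Q (x • v) (x • v)) (fderiv ℂ (fun z : Fin β → ℂ => Q z z) 0 v) 0 := by
        have e1 : HasDerivAt (fun x : ℂ => x • v) v 0 := by
          simpa using (hasDerivAt_id (0 : ℂ)).smul_const v
        have e2 : HasFDerivAt (fun z : Fin β → ℂ => Q z z) (fderiv ℂ (fun z : Fin β → ℂ => Q z z) 0)
            ((0 : ℂ) • v) := by rw [zero_smul]; exact h1
        exact e2.comp_hasDerivAt (0 : ℂ) e1
      have h4 : HasDerivAt (fun x : ℂ => Q (x • v) (x • v)) 0 0 := by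
        have e3 : (fun x : ℂ => Q (x • v) (x • v)) = fun x => x ^ 2 * Q v v := by
          funext x
          simp only [map_smul, LinearMap.smul_apply, smul_eq_mul]; ring
        rw [e3]
        have := (hasDerivAt_pow 2 (0 : ℂ)).mul_const (Q v v)
        simpa using this
      simpa using h3.unique h4
    rw [h2] at h1
    exact h1
  have hTd' : Differentiable ℂ Th' := by
    have : Differentiable ℂ fun z : Fin β → ℂ => -(Q z z) / 2 := by
      have e := hQd.neg.mul_const ((2 : ℂ)⁻¹)
      simpa only [div_eq_mul_inv, Pi.neg_apply] using e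
    exact this.cexp.mul hTd
  have hQQ : ∀ x y, Q (x + y) (x + y) = Q x x + 2 * Q y x + Q y y := by
    intro x y
    simp only [map_add, LinearMap.add_apply]
    rw [hQs x y]; ring
  have hTaut' : ∀ k z, Th' (z + vq D.toTH (b k)) =
      c k * Complex.exp (aq D.toTH (b k) z + aq D.toTH (b k) (vq D.toTH (b k)) / 2) * Th' z := by
    intro k z
    simp only [hTh']
    rw [hTaut, hQQ, hQ (b k) z, hQ (b k) (vq D.toTH (b k))]
    have : Complex.exp (-(Q z z + 2 * Q (vq D.toTH (b k)) z +
        Q (vq D.toTH (b k)) (vq D.toTH (b k))) / 2) *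
        Complex.exp (aq D.toTH (b k) z + Q (vq D.toTH (b k)) z +
          (aq D.toTH (b k) (vq D.toTH (b k)) + Q (vq D.toTH (b k)) (vq D.toTH (b k))) / 2) =
        Complex.exp (aq D.toTH (b k) z + aq D.toTH (b k) (vq D.toTH (b k)) / 2) *
          Complex.exp (-(Q z z) / 2) := by
      rw [← Complex.exp_add, ← Complex.exp_add]
      congr 1
      ring
    linear_combination (c k * Theta z) * this
  have hc0 : ∀ k, c k ≠ 0 := fun k h => by
    have := hc k
    rw [h, zero_pow (by omega)] at this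
    exact zero_ne_one this
  -- uniqueness
  obtain ⟨r, hr⟩ := hUNQ (fun k => vq D.toTH (b k)) (fun k => aq D.toTH (b k)) hind
    (fun k l => by rw [THEM.rie, hb]; ring)
    (fun k => c k * Complex.exp (aq D.toTH (b k) (vq D.toTH (b k)) / 2))
    (fun k => mul_ne_zero (hc0 k) (Complex.exp_ne_zero _)) F Th' (hUU F hF).1 hTd'
    (fun k z => by
      rw [hFaut, Complex.exp_add]; ring)
    (fun k z => by
      rw [hTaut', Complex.exp_add]; ring) hFne
  have hr0 : r ≠ 0 := by
    rintro rfl
    obtain ⟨z, hz⟩ := hTne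
    have h1 := hr z
    rw [zero_mul] at h1
    simp only [hTh'] at h1
    exact (mul_ne_zero (Complex.exp_ne_zero _) hz) h1
  have hT0 : D.th D.o 0 ≠ 0 := hD.good.zero
  refine ⟨r * D.th D.o 0, mul_ne_zero hr0 hT0, fun t => ?_⟩
  have hjet := THEM.jet hJET hUOP D hD hA hL b hb (UU D.toTH t F) ((hUU F hF).2 t)
  -- the normalised translate of `Theta`
  have hval : ∀ z, Complex.exp (-(a' t z) - a' t (vq D.toTH t) / 2) * Theta (z + vq D.toTH t) =
      Complex.exp (Q z z / 2) * (r * UU D.toTH t F z) := by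
    intro z
    have h1 := hr (z + vq D.toTH t)
    simp only [hTh'] at h1
    rw [hQQ] at h1
    have h2 : Theta (z + vq D.toTH t) = Complex.exp ((Q z z + 2 * Q (vq D.toTH t) z +
        Q (vq D.toTH t) (vq D.toTH t)) / 2) * (r * F (z + vq D.toTH t)) := by
      rw [← h1, ← mul_assoc, ← Complex.exp_add]
      rw [show (Q z z + 2 * Q (vq D.toTH t) z + Q (vq D.toTH t) (vq D.toTH t)) / 2 +
        -(Q z z + 2 * Q (vq D.toTH t) z + Q (vq D.toTH t) (vq D.toTH t)) / 2 = 0 by ring,
        Complex.exp_zero, one_mul]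
    rw [h2, hQ t z, hQ t (vq D.toTH t)]
    simp only [UU]
    have : Complex.exp (-(aq D.toTH t z + Q (vq D.toTH t) z) -
        (aq D.toTH t (vq D.toTH t) + Q (vq D.toTH t) (vq D.toTH t)) / 2) *
        Complex.exp ((Q z z + 2 * Q (vq D.toTH t) z + Q (vq D.toTH t) (vq D.toTH t)) / 2) =
        Complex.exp (Q z z / 2) *
          Complex.exp (-(aq D.toTH t z) - aq D.toTH t (vq D.toTH t) / 2) := by
      rw [← Complex.exp_add, ← Complex.exp_add]
      congr 1
      ring
    linear_combination (r * F (z + vq D.toTH t)) * this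
  constructor
  · have h1 := hval 0
    rw [map_zero, neg_zero, zero_sub, zero_add, map_zero, zero_div, Complex.exp_zero, one_mul] at h1
    rw [neg_div, h1, mul_div_mul_left _ _ hr0]
    exact hjet.1
  · intro v hv
    have h1 : (fun z => Complex.exp (-(a' t z) - a' t (vq D.toTH t) / 2) *
        Theta (z + vq D.toTH t)) = fun z => Complex.exp (Q z z / 2) * (r * UU D.toTH t F z) :=
      funext hval
    have h2 : HasFDerivAt (UU D.toTH t F) (fderiv ℂ (UU D.toTH t F) 0) 0 :=
      ((hUU _ ((hUU F hF).2 t)).1 0).hasFDerivAt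
    have h3 : HasFDerivAt (fun z : Fin β → ℂ => Complex.exp (Q z z / 2))
        (0 : (Fin β → ℂ) →L[ℂ] ℂ) 0 := by
      have e1 : HasFDerivAt (fun z : Fin β → ℂ => Q z z / 2) (0 : (Fin β → ℂ) →L[ℂ] ℂ) 0 := by
        have := (hQf.mul_const ((2 : ℂ)⁻¹)).congr_fderiv (g' := 0) (by ext v; simp)
        simpa only [div_eq_mul_inv] using this
      simpa using e1.cexp
    have h4 := h3.mul (h2.const_mul r)
    rw [h1, show (fun z => Complex.exp (Q z z / 2) * (r * UU D.toTH t F z)) =
      (fun z => Complex.exp (Q z z / 2)) * fun y => r * UU D.toTH t F y from rfl, h4.fderiv]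
    simp only [add_apply, smul_apply, zero_apply, smul_eq_mul, mul_zero, add_zero, map_zero, zero_div,
      Complex.exp_zero, one_mul]
    rw [mul_div_mul_left _ _ hr0]
    exact hjet.2 v hv

end Pool.Agent.Lib.MPf11a48.SH
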