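import Pool.Agent.Lib.MP_f11a48_ag.SH.ESpec

/-!
# MP_f11a48_ag, project S0, part (e): torsion points are algebraic (TOR)
-/

set_option autoImplicit false

open MvPolynomial Pool.Agent.Lib.MPf11a48.CM Filter Topology
open Pool.Agent.Lib.MPf11a48.AS Pool.Agent.Lib.MPf11a48.U.ConjM

namespace Pool.Agent.Lib.MPf11a48.SH

namespace TORM

/-- a common denominator -/
theorem common_den {Λ : Type} [Fintype Λ] (t : Λ → ℚ) :
    ∃ q : ℕ, 1 ≤ q ∧ ∃ x : Λ → ℤ, ∀ l, (q : ℚ) * t l = x l := by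
  classical
  refine ⟨∏ l, (t l).den, Nat.one_le_iff_ne_zero.2 (Finset.prod_ne_zero_iff.2 fun l _ =>
    (t l).den_nz), fun l => (∏ k ∈ Finset.univ.erase l, ((t k).den : ℤ)) * (t l).num,
    fun l => ?_⟩
  have h1 : ((∏ k, (t k).den : ℕ) : ℚ) =
      (∏ k ∈ Finset.univ.erase l, ((t k).den : ℚ)) * ((t l).den : ℚ) := by
    rw [Nat.cast_prod]
    exact (Finset.prod_erase_mul Finset.univ (fun k => ((t k).den : ℚ)) (Finset.mem_univ l)).symm
  rw [h1, mul_assoc, Rat.den_mul_eq_num]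
  push_cast
  rfl

end TORM

theorem specTOR : SpecTOR := by
  intro β I Λ _ _ D hG hA t ht
  refine ⟨ht, fun i => ?_⟩
  obtain ⟨q, hq, x, hx⟩ := TORM.common_den t
  refine AllM.tfv D hG hA q hq (vq D.toTH t) x ht ?_ i
  unfold vq TH.vec
  rw [Finset.smul_sum]
  refine Finset.sum_congr rfl fun l _ => ?_
  rw [smul_smul]
  congr 1
  have h := hx l
  exact_mod_cast congrArg (fun r : ℚ => (r : ℂ)) h

end Pool.Agent.Lib.MPf11a48.SH
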