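import Pool.Agent.Lib.MP_f11a48_ag.SH.EBSpec

/-!
# MP_f11a48_ag, project S0, part (e), module UNQ (helper12)

Uniqueness of the theta function of a principal lattice.
-/

set_option autoImplicit false

open Filter Topology Metric Complex Finset MeasureTheory

open scoped Real

namespace Pool.Agent.Lib.MPf11a48.SH

namespace UNQM

variable {ι : Type} [Fintype ι]

/-- the bilinear form with `B z (e i) = a i z`; `c` are the coordinates -/
noncomputable def B (a : ι → (ι → ℂ) →ₗ[ℂ] ℂ) (φ : (ι → ℂ) ≃ₗ[ℂ] (ι → ℂ)) (z w : ι → ℂ) : ℂ :=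
  ∑ i, φ.symm w i * a i z

theorem B_add_left (a : ι → (ι → ℂ) →ₗ[ℂ] ℂ) (φ : (ι → ℂ) ≃ₗ[ℂ] (ι → ℂ)) (z z' w : ι → ℂ) :
    B a φ (z + z') w = B a φ z w + B a φ z' w := by
  rw [B, B, B, ← Finset.sum_add_distrib]
  refine Finset.sum_congr rfl fun i _ => ?_
  rw [map_add]
  ring

theorem B_add_right (a : ι → (ι → ℂ) →ₗ[ℂ] ℂ) (φ : (ι → ℂ) ≃ₗ[ℂ] (ι → ℂ)) (z w w' : ι → ℂ) :
    B a φ z (w + w') = B a φ z w + B a φ z w' := by
  rw [B, B, B, ← Finset.sum_add_distrib]
  refine Finset.sum_congr rfl fun i _ => ?_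
  rw [map_add, Pi.add_apply]
  ring

theorem B_single [DecidableEq ι] (a : ι → (ι → ℂ) →ₗ[ℂ] ℂ) (φ : (ι → ℂ) ≃ₗ[ℂ] (ι → ℂ))
    (z : ι → ℂ) (i : ι) : B a φ z (φ (Pi.single i 1)) = a i z := by
  rw [B]
  simp [Pi.single_apply]

theorem B_diff (a : ι → (ι → ℂ) →ₗ[ℂ] ℂ) (φ : (ι → ℂ) ≃ₗ[ℂ] (ι → ℂ)) :
    Differentiable ℂ fun y : ι → ℂ => B a φ (φ y) (φ y) := by
  have h1 : Differentiable ℂ fun y : ι → ℂ => ∑ i, y i * a i (φ y) := by
    have h2 : ∀ i, Differentiable ℂ fun y : ι → ℂ => a i (φ y) := fun i =>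
      (LinearMap.toContinuousLinearMap ((a i).comp φ.toLinearMap)).differentiable
    have h3 : ∀ i, Differentiable ℂ fun y : ι → ℂ => y i * a i (φ y) := fun i =>
      (differentiable_apply i).mul (h2 i)
    exact Differentiable.fun_sum fun i _ => h3 i
  have h4 : (fun y : ι → ℂ => B a φ (φ y) (φ y)) = fun y : ι → ℂ => ∑ i, y i * a i (φ y) := by
    funext y
    rw [B]
    simp
  rw [h4]
  exact h1

theorem B_symm [DecidableEq ι] (a : ι → (ι → ℂ) →ₗ[ℂ] ℂ) (φ : (ι → ℂ) ≃ₗ[ℂ] (ι → ℂ))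
    (h : ∀ i j, a i (φ (Pi.single j 1)) = a j (φ (Pi.single i 1))) (z w : ι → ℂ) :
    B a φ z w = B a φ w z := by
  have h1 : ∀ (i : ι) (z : ι → ℂ), a i z = ∑ j, φ.symm z j * a i (φ (Pi.single j 1)) := by
    intro i z
    have h2 : z = φ (∑ j, φ.symm z j • Pi.single j (1 : ℂ)) := by
      have h3 : ∑ j, φ.symm z j • Pi.single j (1 : ℂ) = φ.symm z := by
        funext k
        simp [Finset.sum_apply, Pi.single_apply]
      rw [h3, LinearEquiv.apply_symm_apply]
    conv_lhs => rw [h2]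
    rw [map_sum, map_sum]
    refine Finset.sum_congr rfl fun j _ => ?_
    rw [map_smul, map_smul, smul_eq_mul]
  have h4 : ∀ z w : ι → ℂ, B a φ z w =
      ∑ i, ∑ j, φ.symm w i * (φ.symm z j * a i (φ (Pi.single j 1))) := by
    intro z w
    rw [B]
    refine Finset.sum_congr rfl fun i _ => ?_
    rw [h1 i z, Finset.mul_sum]
  rw [h4, h4 w z, Finset.sum_comm]
  refine Finset.sum_congr rfl fun j _ => Finset.sum_congr rfl fun i _ => ?_
  rw [h i j]
  ring

theorem exists_equiv (e : ι → ι → ℂ) [DecidableEq ι] (he : LinearIndependent ℂ e) :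
    ∃ φ : (ι → ℂ) ≃ₗ[ℂ] (ι → ℂ), ∀ i, φ (Pi.single i 1) = e i := by
  have h1 : Function.Injective (Fintype.linearCombination ℂ e) :=
    linearIndependent_iff_injective_fintypeLinearCombination.1 he
  refine ⟨LinearEquiv.ofInjectiveEndo (Fintype.linearCombination ℂ e) h1, fun i => ?_⟩
  rw [LinearEquiv.coe_ofInjectiveEndo, Fintype.linearCombination_apply]
  simp [Pi.single_apply]

end UNQM

open UNQM in
/-- **UNQ.** -/
theorem specUNQ (hFOU : SpecFOU) : SpecUNQ := by
  intro ι _ _ om A hli hA c hc F G hF hG hFq hGq hF0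
  obtain ⟨φ, hφ⟩ := exists_equiv (fun i => om (Sum.inl i)) hli
  let a : ι → (ι → ℂ) →ₗ[ℂ] ℂ := fun i => A (Sum.inl i)
  have hsym : ∀ i j, a i (φ (Pi.single j 1)) = a j (φ (Pi.single i 1)) := by
    intro i j
    have h1 := hA (Sum.inl i) (Sum.inl j)
    rw [hφ, hφ]
    show A (Sum.inl i) (om (Sum.inl j)) = A (Sum.inl j) (om (Sum.inl i))
    simp only [sy, Int.cast_zero, mul_zero] at h1
    exact sub_eq_zero.1 h1
  -- the logarithms
  have hlog : ∀ i, ∃ l : ℂ, cexp l = c (Sum.inl i) * cexp (-(a i (φ (Pi.single i 1))) / 2) := by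
    intro i
    exact ⟨Complex.log _, Complex.exp_log (mul_ne_zero (hc _) (Complex.exp_ne_zero _))⟩
  choose lam hlam using hlog
  let ell : (ι → ℂ) → ℂ := fun y => ∑ i, y i * lam i
  have hell : ∀ y y', ell (y + y') = ell y + ell y' := by
    intro y y'
    show ∑ i, (y + y') i * lam i = ∑ i, y i * lam i + ∑ i, y' i * lam i
    rw [← Finset.sum_add_distrib]
    refine Finset.sum_congr rfl fun i _ => ?_
    rw [Pi.add_apply]
    ring
  let τ : ι → ι → ℂ := fun j => φ.symm (om (Sum.inr j))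
  let c' : ι → ℂ := fun j => c (Sum.inr j) *
    cexp (-(B a φ (φ (τ j)) (φ (τ j))) / 2 - ell (τ j))
  let N : ((ι → ℂ) → ℂ) → (ι → ℂ) → ℂ := fun F y =>
    cexp (-(B a φ (φ y) (φ y)) / 2 - ell y) * F (φ y)
  have hBsq : ∀ y y', B a φ (φ (y + y')) (φ (y + y')) =
      B a φ (φ y) (φ y) + 2 * B a φ (φ y) (φ y') + B a φ (φ y') (φ y') := by
    intro y y'
    rw [map_add, B_add_left, B_add_right, B_add_right, B_symm a φ hsym (φ y') (φ y)]
    ring
  have hNd : ∀ F : (ι → ℂ) → ℂ, Differentiable ℂ F → Differentiable ℂ (N F) := by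
    intro F hF
    have h1 : Differentiable ℂ ell := by
      show Differentiable ℂ fun y : ι → ℂ => ∑ i, y i * lam i
      fun_prop
    have h2 : Differentiable ℂ fun y : ι → ℂ => -(B a φ (φ y) (φ y)) / 2 - ell y := by
      have h5 := B_diff a φ
      have h6 : Differentiable ℂ fun y : ι → ℂ => -(B a φ (φ y) (φ y)) := h5.fun_neg
      have h7 : Differentiable ℂ fun y : ι → ℂ => -(B a φ (φ y) (φ y)) / 2 := by
        simp only [div_eq_mul_inv]
        exact h6.mul_const _
      exact h7.fun_sub h1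
    have h3 : Differentiable ℂ fun y : ι → ℂ => F (φ y) :=
      hF.comp (LinearMap.toContinuousLinearMap φ.toLinearMap).differentiable
    exact h2.cexp.mul h3
  have hN1 : ∀ F : (ι → ℂ) → ℂ,
      (∀ k z, F (z + om k) = c k * Complex.exp (A k z) * F z) →
      ∀ i w, N F (w + Pi.single i 1) = N F w := by
    intro F hF i w
    show cexp (-(B a φ (φ (w + Pi.single i 1)) (φ (w + Pi.single i 1))) / 2 -
      ell (w + Pi.single i 1)) * F (φ (w + Pi.single i 1)) = _
    have h1 : F (φ (w + Pi.single i 1)) = c (Sum.inl i) * cexp (a i (φ w)) * F (φ w) := by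
      rw [map_add, hφ, hF]
    have h2 : ell (Pi.single i 1) = lam i := by
      show ∑ k, (Pi.single i 1 : ι → ℂ) k * lam k = lam i
      simp [Pi.single_apply]
    rw [h1, hBsq, hell, h2, B_single, B_single]
    show _ = cexp (-(B a φ (φ w) (φ w)) / 2 - ell w) * F (φ w)
    have h3 : -(B a φ (φ w) (φ w) + 2 * (a i) (φ w) + (a i) (φ (Pi.single i 1))) / 2 -
        (ell w + lam i) = (-(B a φ (φ w) (φ w)) / 2 - ell w) +
          (-(a i (φ w)) + (-(a i (φ (Pi.single i 1))) / 2 + -(lam i))) := by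
      ring
    rw [h3, Complex.exp_add, Complex.exp_add, Complex.exp_add, Complex.exp_neg (lam i), hlam,
      Complex.exp_neg (a i (φ w))]
    have h4 := Complex.exp_ne_zero (a i (φ w))
    have h5 := Complex.exp_ne_zero (-(a i (φ (Pi.single i 1))) / 2)
    have h6 := hc (Sum.inl i)
    field_simp
  have hN2 : ∀ F : (ι → ℂ) → ℂ,
      (∀ k z, F (z + om k) = c k * Complex.exp (A k z) * F z) →
      ∀ j w, N F (w + τ j) = c' j * cexp (-(2 * π * I * w j)) * N F w := by
    intro F hF j w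
    show cexp (-(B a φ (φ (w + τ j)) (φ (w + τ j))) / 2 - ell (w + τ j)) * F (φ (w + τ j)) = _
    have h0 : φ (τ j) = om (Sum.inr j) := by
      show φ (φ.symm (om (Sum.inr j))) = _
      rw [LinearEquiv.apply_symm_apply]
    have h1 : F (φ (w + τ j)) = c (Sum.inr j) * cexp (A (Sum.inr j) (φ w)) * F (φ w) := by
      rw [map_add, h0, hF]
    have h2 : A (Sum.inr j) (φ w) - B a φ (φ w) (φ (τ j)) = -(2 * π * I * w j) := by
      have h3 : A (Sum.inr j) (φ w) = ∑ i, w i * A (Sum.inr j) (om (Sum.inl i)) := by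
        have h4 : φ w = ∑ i, w i • om (Sum.inl i) := by
          have h5 : w = ∑ i, w i • Pi.single i (1 : ℂ) := by
            funext k
            simp [Finset.sum_apply, Pi.single_apply]
          conv_lhs => rw [h5]
          rw [map_sum]
          refine Finset.sum_congr rfl fun i _ => ?_
          rw [map_smul, hφ]
        rw [h4, map_sum]
        refine Finset.sum_congr rfl fun i _ => ?_
        rw [map_smul, smul_eq_mul]
      have h6 : B a φ (φ w) (φ (τ j)) = ∑ i, w i * A (Sum.inl i) (om (Sum.inr j)) := by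
        rw [B_symm a φ hsym, B]
        refine Finset.sum_congr rfl fun i _ => ?_
        rw [LinearEquiv.symm_apply_apply, h0]
      rw [h3, h6, ← Finset.sum_sub_distrib]
      have h7 : ∀ i, w i * A (Sum.inr j) (om (Sum.inl i)) - w i * A (Sum.inl i) (om (Sum.inr j)) =
          if j = i then -(2 * π * I * w i) else 0 := by
        intro i
        have h8 := hA (Sum.inr j) (Sum.inl i)
        rw [← mul_sub, h8]
        by_cases hij : j = i
        · simp only [sy, hij, if_true]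
          push_cast
          ring
        · simp [sy, hij]
      rw [Finset.sum_congr rfl fun i _ => h7 i]
      simp
    rw [h1, hBsq, hell]
    show _ = c (Sum.inr j) * cexp (-(B a φ (φ (τ j)) (φ (τ j))) / 2 - ell (τ j)) *
      cexp (-(2 * π * I * w j)) * (cexp (-(B a φ (φ w) (φ w)) / 2 - ell w) * F (φ w))
    rw [← h2]
    have h9 : cexp (-(B a φ (φ w) (φ w) + 2 * B a φ (φ w) (φ (τ j)) +
        B a φ (φ (τ j)) (φ (τ j))) / 2 - (ell w + ell (τ j))) * cexp (A (Sum.inr j) (φ w)) =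
        cexp (-(B a φ (φ (τ j)) (φ (τ j))) / 2 - ell (τ j)) *
        cexp (A (Sum.inr j) (φ w) - B a φ (φ w) (φ (τ j))) *
        cexp (-(B a φ (φ w) (φ w)) / 2 - ell w) := by
      rw [← Complex.exp_add, ← Complex.exp_add, ← Complex.exp_add]
      congr 1
      ring
    calc _ = c (Sum.inr j) * (cexp (-(B a φ (φ w) (φ w) + 2 * B a φ (φ w) (φ (τ j)) +
        B a φ (φ (τ j)) (φ (τ j))) / 2 - (ell w + ell (τ j))) * cexp (A (Sum.inr j) (φ w))) *
        F (φ w) := by ring
      _ = _ := by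
        rw [h9]
        ring
  have hc' : ∀ j, c' j ≠ 0 := fun j => mul_ne_zero (hc _) (Complex.exp_ne_zero _)
  have key : ∀ H : (ι → ℂ) → ℂ, Differentiable ℂ H →
      (∀ i w, H (w + Pi.single i 1) = H w) →
      (∀ j w, H (w + τ j) = c' j * cexp (-(2 * π * I * w j)) * H w) →
      ∫ x in Set.Icc (0 : ι → ℝ) 1, H (fun i => (x i : ℂ)) = 0 → ∀ w, H w = 0 :=
    fun H hH h1 h2 h3 => hFOU H hH h1 τ c' hc' h2 h3
  let J : ((ι → ℂ) → ℂ) → ℂ := fun H => ∫ x in Set.Icc (0 : ι → ℝ) 1, H (fun i => (x i : ℂ))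
  have hint : ∀ H : (ι → ℂ) → ℂ, Differentiable ℂ H →
      IntegrableOn (fun x : ι → ℝ => H (fun i => (x i : ℂ))) (Set.Icc (0 : ι → ℝ) 1) volume := by
    intro H hH
    refine ContinuousOn.integrableOn_compact isCompact_Icc (Continuous.continuousOn ?_)
    exact hH.continuous.comp (by fun_prop)
  have hq : J (N F) ≠ 0 := by
    intro h0
    obtain ⟨z, hz⟩ := hF0
    have h1 := key (N F) (hNd F hF) (hN1 F hFq) (hN2 F hFq) h0 (φ.symm z)
    have h2 : N F (φ.symm z) = cexp (-(B a φ z z) / 2 - ell (φ.symm z)) * F z := by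
      show cexp (-(B a φ (φ (φ.symm z)) (φ (φ.symm z))) / 2 - ell (φ.symm z)) *
        F (φ (φ.symm z)) = _
      rw [LinearEquiv.apply_symm_apply]
    rw [h2] at h1
    exact hz ((mul_eq_zero.1 h1).resolve_left (Complex.exp_ne_zero _))
  refine ⟨J (N G) / J (N F), fun z => ?_⟩
  have h1 := key (fun y => N G y - J (N G) / J (N F) * N F y)
    ((hNd G hG).sub ((hNd F hF).const_mul _)) (fun i w => by
      show N G (w + Pi.single i 1) - J (N G) / J (N F) * N F (w + Pi.single i 1) = _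
      rw [hN1 G hGq, hN1 F hFq]) (fun j w => by
      show N G (w + τ j) - J (N G) / J (N F) * N F (w + τ j) = _
      rw [hN2 G hGq, hN2 F hFq]
      ring) (by
      show ∫ x in Set.Icc (0 : ι → ℝ) 1, (N G (fun i => (x i : ℂ)) -
        J (N G) / J (N F) * N F (fun i => (x i : ℂ))) = 0
      rw [integral_sub (hint _ (hNd G hG)) ((hint _ (hNd F hF)).const_mul _), integral_const_mul]
      show J (N G) - J (N G) / J (N F) * J (N F) = 0
      rw [div_mul_cancel₀ _ hq, sub_self]) (φ.symm z)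
  have h2 : ∀ F : (ι → ℂ) → ℂ, N F (φ.symm z) = cexp (-(B a φ z z) / 2 - ell (φ.symm z)) * F z := by
    intro F
    show cexp (-(B a φ (φ (φ.symm z)) (φ (φ.symm z))) / 2 - ell (φ.symm z)) *
      F (φ (φ.symm z)) = _
    rw [LinearEquiv.apply_symm_apply]
  have h3 : cexp (-(B a φ z z) / 2 - ell (φ.symm z)) *
      (G z - J (N G) / J (N F) * F z) = 0 := by
    have h4 : N G (φ.symm z) - J (N G) / J (N F) * N F (φ.symm z) = 0 := h1
    rw [h2, h2] at h4
    rw [← h4]
    ring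
  exact sub_eq_zero.1 ((mul_eq_zero.1 h3).resolve_left (Complex.exp_ne_zero _))

end Pool.Agent.Lib.MPf11a48.SH
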