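import Pool.Agent.Lib.MP_f11a48_ag.SH.EBSpec

/-!
# MP_f11a48_ag, project S0, part (e), block B, module UOP (helper73): the operators `UU`
-/

set_option autoImplicit false

open MvPolynomial Pool.Agent.Lib.MPf11a48.CM Filter Topology
open Pool.Agent.Lib.MPf11a48.AS Pool.Agent.Lib.MPf11a48.U.ConjM

namespace Pool.Agent.Lib.MPf11a48.SH

namespace UOPM

section Gen

variable {Z I Λ : Type} [Fintype Λ] (D : TH Z I Λ)

theorem vq_add (t s : Λ → ℚ) : vq D (t + s) = vq D t + vq D s := by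
  simp only [vq, Pi.add_apply, Rat.cast_add, add_smul, Finset.sum_add_distrib]

theorem aq_add (t s : Λ → ℚ) : aq D (t + s) = aq D t + aq D s := by
  simp only [aq, Pi.add_apply, Rat.cast_add, add_smul, Finset.sum_add_distrib]

theorem vq_smul (c : ℚ) (t : Λ → ℚ) : vq D (c • t) = (c : ℂ) • vq D t := by
  simp only [vq, Pi.smul_apply, smul_eq_mul, Rat.cast_mul, mul_smul, Finset.smul_sum]

theorem aq_smul (c : ℚ) (t : Λ → ℚ) : aq D (c • t) = (c : ℂ) • aq D t := by
  simp only [aq, Pi.smul_apply, smul_eq_mul, Rat.cast_mul, mul_smul, Finset.smul_sum]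

theorem vq_int {t : Λ → ℚ} {x : Λ → ℤ} (h : ∀ l, t l = x l) : vq D t = D.vec x := by
  simp only [vq, TH.vec, h, Rat.cast_intCast]

theorem aq_int {t : Λ → ℚ} {x : Λ → ℤ} (h : ∀ l, t l = x l) : aq D t = D.al x := by
  simp only [aq, TH.al, h, Rat.cast_intCast]

theorem u1 (t s : Λ → ℚ) (F : (Z → ℂ) → ℂ) (z : Z → ℂ) :
    UU D t (UU D s F) z = Complex.exp (pr D t s) * UU D (t + s) F z := by
  unfold UU
  rw [← mul_assoc, ← mul_assoc, ← Complex.exp_add, ← Complex.exp_add, vq_add, aq_add, add_assoc]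
  congr 1
  congr 1
  simp only [pr, map_add, LinearMap.add_apply]
  ring

theorem u2 (t : Λ → ℚ) (F : (Z → ℂ) → ℂ) (h : ∀ z, UU D t F z = 0) (z : Z → ℂ) : F z = 0 := by
  have h1 := h (z - vq D t)
  unfold UU at h1
  rw [sub_add_cancel] at h1
  exact (mul_eq_zero.1 h1).resolve_left (Complex.exp_ne_zero _)

theorem pr_add (t s s' : Λ → ℚ) : pr D t (s + s') = pr D t s + pr D t s' := by
  simp only [pr, vq_add, aq_add, map_add, LinearMap.add_apply]
  ring

theorem pr_smul (t s : Λ → ℚ) (c : ℚ) : pr D t (c • s) = (c : ℂ) * pr D t s := by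
  simp only [pr, vq_smul, aq_smul, map_smul, LinearMap.smul_apply, smul_eq_mul]
  ring

theorem pr_swap (t s : Λ → ℚ) : pr D s t = -pr D t s := by
  simp only [pr]
  ring

theorem pr_zero (t : Λ → ℚ) : pr D t 0 = 0 := by
  have := pr_smul D t 0 0
  simpa using this

theorem pr_sum {κ : Type} (S : Finset κ) (t : Λ → ℚ) (x : κ → ℚ) (b : κ → Λ → ℚ) :
    pr D t (∑ k ∈ S, x k • b k) = ∑ k ∈ S, (x k : ℂ) * pr D t (b k) := by
  classical
  induction S using Finset.induction_on with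
  | empty => simp [pr_zero]
  | insert a S ha ih => rw [Finset.sum_insert ha, Finset.sum_insert ha, pr_add, pr_smul, ih]

theorem sum_pr {κ : Type} (S : Finset κ) (t : Λ → ℚ) (x : κ → ℚ) (b : κ → Λ → ℚ) :
    pr D (∑ k ∈ S, x k • b k) t = ∑ k ∈ S, (x k : ℂ) * pr D (b k) t := by
  rw [pr_swap, pr_sum, ← Finset.sum_neg_distrib]
  refine Finset.sum_congr rfl fun k _ => ?_
  rw [pr_swap D (b k) t]
  ring

theorem UU_add (t : Λ → ℚ) (F G : (Z → ℂ) → ℂ) :
    UU D t (fun z => F z + G z) = fun z => UU D t F z + UU D t G z := by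
  funext z
  unfold UU
  ring

theorem UU_smul (t : Λ → ℚ) (c : ℂ) (F : (Z → ℂ) → ℂ) :
    UU D t (fun z => c * F z) = fun z => c * UU D t F z := by
  funext z
  unfold UU
  ring

theorem UU_diff [Fintype Z] (t : Λ → ℚ) (F : (Z → ℂ) → ℂ) (hF : Differentiable ℂ F) :
    Differentiable ℂ (UU D t F) := by
  unfold UU
  have h1 : Differentiable ℂ fun z : Z → ℂ => aq D t z :=
    (LinearMap.toContinuousLinearMap (aq D t)).differentiable
  have h2 : Differentiable ℂ fun z : Z → ℂ => F (z + vq D t) :=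
    hF.comp (differentiable_id.add_const _)
  exact ((h1.neg.sub_const _).cexp).mul h2

end Gen

theorem root_mem {n : ℕ} (hn : 1 ≤ n) {z : ℂ} (hz : z ^ n = 1) : z ∈ Qbar := by
  rw [mem_algebraicClosure_iff]
  refine IsAlgebraic.of_pow (n := n) (by omega) ?_
  rw [hz]
  exact isAlgebraic_one

theorem sy_pair (β : ℕ) (k : Fin β ⊕ Fin β) : ∃ l : Fin β ⊕ Fin β, ∃ e : ℤ, (e = 1 ∨ e = -1) ∧
    ∀ k', sy k' l = if k' = k then e else 0 := by
  rcases k with i | i
  · refine ⟨Sum.inr i, 1, Or.inl rfl, ?_⟩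
    rintro (j | j)
    · by_cases h : j = i
      · subst h; simp [sy]
      · simp [sy, h]
    · simp [sy]
  · refine ⟨Sum.inl i, -1, Or.inr rfl, ?_⟩
    rintro (j | j)
    · simp [sy]
    · by_cases h : j = i
      · subst h; simp [sy]
      · simp [sy, h]

theorem span {β : ℕ} {I Λ : Type} [Fintype I] [Fintype Λ] (D : TH (Fin β) I Λ) (hD : D.Good)
    (b : Fin β ⊕ Fin β → Λ → ℚ)
    (hb : ∀ k l, pr D (b k) (b l) = Real.pi * Complex.I * (sy k l : ℤ)) (t : Λ → ℚ) :
    ∃ x : Fin β ⊕ Fin β → ℚ, t = ∑ k, x k • b k := by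
  have hpi : (Real.pi * Complex.I : ℂ) ≠ 0 :=
    mul_ne_zero (by exact_mod_cast Real.pi_ne_zero) Complex.I_ne_zero
  have hli : LinearIndependent ℚ b := by
    rw [Fintype.linearIndependent_iff]
    intro x hx k
    obtain ⟨l, e, he, hl⟩ := sy_pair β k
    have h1 : pr D (∑ k, x k • b k) (b l) = 0 := by
      rw [hx, pr_swap, pr_zero, neg_zero]
    rw [sum_pr, Finset.sum_eq_single k] at h1
    · rw [hb, hl, if_pos rfl] at h1
      have he0 : ((e : ℤ) : ℂ) ≠ 0 := by
        rcases he with h | h <;> rw [h] <;> simp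
      have h2 := (mul_eq_zero.1 h1).resolve_right (mul_ne_zero hpi he0)
      exact_mod_cast h2
    · intro k' _ hk'
      rw [hb, hl, if_neg hk']
      simp
    · intro h
      exact absurd (Finset.mem_univ k) h
  have hcard : Fintype.card (Fin β ⊕ Fin β) = Module.finrank ℚ (Λ → ℚ) := by
    rw [Module.finrank_fintype_fun_eq_card, hD.card]
    simp
    ring
  have hsp := hli.span_eq_top_of_card_eq_finrank' hcard
  have ht : t ∈ Submodule.span ℚ (Set.range b) := by
    rw [hsp]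
    exact Submodule.mem_top
  obtain ⟨x, hx⟩ := (Submodule.mem_span_range_iff_exists_fun ℚ).1 ht
  exact ⟨x, hx.symm⟩

theorem exp_mem {β : ℕ} {I Λ : Type} [Fintype I] [Fintype Λ] (D : TH (Fin β) I Λ) (hD : D.Good)
    (b : Fin β ⊕ Fin β → Λ → ℚ)
    (hb : ∀ k l, pr D (b k) (b l) = Real.pi * Complex.I * (sy k l : ℤ)) (t s : Λ → ℚ) :
    Complex.exp (pr D t s) ∈ Qbar := by
  obtain ⟨x, rfl⟩ := span D hD b hb t
  obtain ⟨y, rfl⟩ := span D hD b hb s
  set q : ℚ := ∑ k, x k * ∑ l, y l * (sy k l : ℤ) with hq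
  have h1 : pr D (∑ k, x k • b k) (∑ l, y l • b l) = Real.pi * Complex.I * (q : ℂ) := by
    rw [sum_pr, hq]
    push_cast
    rw [Finset.mul_sum]
    refine Finset.sum_congr rfl fun k _ => ?_
    rw [pr_sum, Finset.mul_sum, Finset.mul_sum, Finset.mul_sum]
    refine Finset.sum_congr rfl fun l _ => ?_
    rw [hb]
    ring
  rw [h1]
  have h2 : Complex.exp (Real.pi * Complex.I * (q : ℂ)) ^ (2 * q.den) = 1 := by
    rw [← Complex.exp_nat_mul, Complex.exp_eq_one_iff]
    refine ⟨q.num, ?_⟩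
    have h3 : (q : ℂ) * (q.den : ℂ) = (q.num : ℂ) := by
      have := Rat.mul_den_eq_num q
      exact_mod_cast this
    push_cast
    linear_combination (2 * Real.pi * Complex.I) * h3
  have h4 : 0 < 2 * q.den := by
    have := q.den_pos
    omega
  exact root_mem h4 h2

end UOPM

open UOPM in
theorem specUOP : SpecUOP := by
  refine ⟨?_, ?_, ?_⟩
  · intro Z I Λ _ D
    exact ⟨u1 D, u2 D, fun t s s' c => ⟨pr_add D t s s', pr_smul D t s c, pr_swap D t s⟩⟩
  · intro Z I Λ _ _ _ D hD x hx z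
    obtain ⟨y, hy⟩ := hx
    unfold UU
    rw [vq_int D hy, aq_int D hy, hD.aut y D.o z, ← mul_assoc, ← Complex.exp_add]
    have : -(D.al y z) - D.al y (D.vec y) / 2 + (D.al y z + D.al y (D.vec y) / 2) = 0 := by ring
    rw [this, Complex.exp_zero, one_mul]
  · intro β I Λ _ _ D hD b hb
    refine ⟨span D hD b hb, exp_mem D hD b hb, ?_⟩
    intro F hF
    induction hF with
    | tr s =>
      refine ⟨UU_diff D s _ (hD.diff D.o), fun t => ?_⟩
      have h1 : UU D t (UU D s (D.th D.o)) =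
          fun z => Complex.exp (pr D t s) * UU D (t + s) (D.th D.o) z := funext (u1 D t s _)
      rw [h1]
      exact QQ.smul _ _ (exp_mem D hD b hb t s) (QQ.tr (t + s))
    | add F G _ _ ihF ihG =>
      refine ⟨ihF.1.add ihG.1, fun t => ?_⟩
      rw [UU_add]
      exact QQ.add _ _ (ihF.2 t) (ihG.2 t)
    | smul c F hc _ ih =>
      refine ⟨ih.1.const_mul c, fun t => ?_⟩
      rw [UU_smul]
      exact QQ.smul c _ hc (ih.2 t)

end Pool.Agent.Lib.MPf11a48.SH
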