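/-
S0 (MP_f11a48), part (e): `SpecEP` from the modules of part (e) (helper4).
-/
import Pool.Agent.Lib.MP_f11a48_ag.SH.EAppB
import Pool.Agent.Lib.MP_f11a48_ag.SH.EDiv
import Pool.Agent.Lib.MP_f11a48_ag.SH.EEig
import Pool.Agent.Lib.MP_f11a48_ag.SH.EEp
import Pool.Agent.Lib.MP_f11a48_ag.SH.EFou
import Pool.Agent.Lib.MP_f11a48_ag.SH.EFqa
import Pool.Agent.Lib.MP_f11a48_ag.SH.EGen
import Pool.Agent.Lib.MP_f11a48_ag.SH.EGqa
import Pool.Agent.Lib.MP_f11a48_ag.SH.EJet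
import Pool.Agent.Lib.MP_f11a48_ag.SH.ELvt
import Pool.Agent.Lib.MP_f11a48_ag.SH.EQac
import Pool.Agent.Lib.MP_f11a48_ag.SH.ERho
import Pool.Agent.Lib.MP_f11a48_ag.SH.ERhq
import Pool.Agent.Lib.MP_f11a48_ag.SH.ERoo
import Pool.Agent.Lib.MP_f11a48_ag.SH.EThe
import Pool.Agent.Lib.MP_f11a48_ag.SH.EThf
import Pool.Agent.Lib.MP_f11a48_ag.SH.ETor
import Pool.Agent.Lib.MP_f11a48_ag.SH.EUnq
import Pool.Agent.Lib.MP_f11a48_ag.SH.EUop

namespace Pool.Agent.Lib.MPf11a48.SH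

/-- `SpecEP` from `QCH`. -/
theorem specEP_qch (hQCH : SpecQCH) : SpecEP := by
  have hFQA : SpecFQA := specFQA
  have hAPP : SpecAPP := specAPP' (specDIV specQAC)
  have hLVT : SpecLVT := specLVT specQAC hFQA hAPP specTOR specGEN specRHO
  have hGQA : SpecGQA := specGQA specQAC hAPP specTOR specGEN specRHO hLVT
  have hRHQ : SpecRHQ := specRHQ specQAC hGQA specROO
  have hJET : SpecJET := specJET specQAC hFQA specTOR specROO hRHQ
  have hUNQ : SpecUNQ := specUNQ specFOU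
  have hEIG : SpecEIG := specEIG specUOP
  have hTHE : SpecTHE := specTHE hJET specUOP hEIG hQCH hUNQ
  have hTHF : SpecTHF := specTHF hTHE specUOP
  exact specEP_of hTHF

end Pool.Agent.Lib.MPf11a48.SH
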