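import Pool.Agent.Lib.MP_f11a48_ag.SH.ESpec

/-!
# MP_f11a48_ag, project S0, part (e), block B: THEOREM E' (helper47)

Conventions as in `ESpec.lean`: module `XXX`: file `Pool/Agent/Lib/MP_f11a48_ag/SH/EXxx.lean` (given in
the table), which imports this file, namespace `Pool.Agent.Lib.MPf11a48.SH`, theorem
`specXXX (hYYY : SpecYYY) .. : SpecXXX` with the hypotheses listed after `uses`, in this order; own
lemmas in the namespace `XXXM`.

`D` is a base datum, `T = th_o`. `UU D t F (z) = exp(-a_t(z) - a_t(t)/2) F(z + t)` is the normalised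
translate of `F` by the torsion point `t`. `Theta` is the theta function of another lattice `L'` in
`Λ ⊗ ℚ`, on which the Riemann form is unimodular, with symplectic basis `b`.
-/

set_option autoImplicit false

open MvPolynomial Pool.Agent.Lib.MPf11a48.CM Filter Topology
open Pool.Agent.Lib.MPf11a48.AS Pool.Agent.Lib.MPf11a48.U.ConjM

namespace Pool.Agent.Lib.MPf11a48.SH

/-- The standard symplectic form. -/
def sy {ι : Type} [DecidableEq ι] : ι ⊕ ι → ι ⊕ ι → ℤ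
  | Sum.inl i, Sum.inr j => if i = j then 1 else 0
  | Sum.inr i, Sum.inl j => if i = j then -1 else 0
  | _, _ => 0

section Theta

variable {Z I Λ : Type} [Fintype Λ] (D : TH Z I Λ)

/-- The normalised translate of `F` by the torsion point `vq t`. -/
noncomputable def UU (t : Λ → ℚ) (F : (Z → ℂ) → ℂ) (z : Z → ℂ) : ℂ :=
  Complex.exp (-(aq D t z) - aq D t (vq D t) / 2) * F (z + vq D t)

/-- Combinations over `Qbar` of the normalised translates of `th_o` by torsion points. -/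
inductive QQ : ((Z → ℂ) → ℂ) → Prop
  | tr (s : Λ → ℚ) : QQ (UU D s (D.th D.o))
  | add (F G : (Z → ℂ) → ℂ) : QQ F → QQ G → QQ fun z => F z + G z
  | smul (c : ℂ) (F : (Z → ℂ) → ℂ) : c ∈ Qbar → QQ F → QQ fun z => c * F z

end Theta

/-- **UOP** (200 lines; uses nothing): the operators `UU`.

Proof. `vq`, `aq` are additive and `ℚ`-homogeneous in `t`, `aq D t` is linear. (1) Expand: the exponent
of `UU t (UU s F) z` is `-aq t z - aq t (vq t)/2 - aq s (z + vq t) - aq s (vq s)/2`, that of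
`UU (t+s) F z` is `-aq (t+s) z - aq (t+s) (vq (t+s))/2`. (2) `Good.aut` (`vq = D.vec x`, `aq = D.al x`).
(3) sums and multiples are clear, `UU t F = 0 → F = 0` as `exp ≠ 0`. (4) bilinear and alternating.
(5) Let `t`, `s` be rational, `t = ∑ x_k b_k`, `s = ∑ y_k b_k` with rational `x`, `y` (the `b_k` are a basis
of `ℚ^Λ`: `2 β` vectors, linearly independent by `hb`), so `pr t s = π i q`, `q` rational,
`exp(π i q)^(2 d) = 1`, `d` the denominator: algebraic. (6) Induction on `QQ`: (1), (3), (5); the functions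
`UU s T` are entire. -/
def SpecUOP : Prop :=
  (∀ {Z I Λ : Type} [Fintype Λ] (D : TH Z I Λ),
    (∀ (t s : Λ → ℚ) F z, UU D t (UU D s F) z = Complex.exp (pr D t s) * UU D (t + s) F z) ∧
    (∀ (t : Λ → ℚ) F, (∀ z, UU D t F z = 0) → ∀ z, F z = 0) ∧
    ∀ (t s s' : Λ → ℚ) (c : ℚ), pr D t (s + s') = pr D t s + pr D t s' ∧
      pr D t (c • s) = (c : ℂ) * pr D t s ∧ pr D s t = -pr D t s) ∧
  (∀ {Z I Λ : Type} [Fintype Z] [Fintype I] [Fintype Λ] (D : TH Z I Λ), D.Good →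
    ∀ x : Λ → ℚ, IntV x → ∀ z, UU D x (D.th D.o) z = D.th D.o z) ∧
  ∀ {β : ℕ} {I Λ : Type} [Fintype I] [Fintype Λ] (D : TH (Fin β) I Λ), D.Good →
    ∀ b : Fin β ⊕ Fin β → Λ → ℚ,
      (∀ k l, pr D (b k) (b l) = Real.pi * Complex.I * (sy k l : ℤ)) →
      (∀ t : Λ → ℚ, ∃ x : Fin β ⊕ Fin β → ℚ, t = ∑ k, x k • b k) ∧
      (∀ t s, Complex.exp (pr D t s) ∈ Qbar) ∧
      (∀ F, QQ D F → Differentiable ℂ F ∧ ∀ t, QQ D (UU D t F))

/-- **EIG** (250 lines; uses UOP): a combination of the `UU s T` with the automorphy factor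
`c_k exp(a_b(z) + a_b(b)/2)` of a principal lattice.

Proof. `V_k F = c_k⁻¹ UU (b_k) F`. `V_k V_l F = V_l V_k F` (UOP (1), (4): the factor is
`exp(2 pr b_k b_l) = exp(2 π i sy k l) = 1`). Choose `n ≥ 1` with all `n b_k` integral and `M ∣ n`
(common denominator times `M`): `V_k^n T = c_k^-n UU (n b_k) T = T` (`pr b_k b_k = 0`). CLAIM for all
finite sets `s` of indices `k`: there are `F` in `QQ`, `F ≠ 0`, with `V_k^n F = F` for ALL `k`, and
`ζ_k`, `ζ_k^n = 1`, with `V_k F = ζ_k F` for `k ∈ s`. Induction: `F = T`; given `F` for `s` and `k ∉ s`: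
`F_ζ = (1/n) ∑_{x < n} ζ^-x V_k^x F` for the `ζ = exp(2 π i j/n)`, `j < n`: `V_k F_ζ = ζ F_ζ`,
`∑_ζ F_ζ = F` (`∑_ζ ζ^-x = 0` for `0 < x < n`), so some `F_ζ ≠ 0`; the other properties are preserved
because the `V_l` commute and `V_l` is linear. For `s` = everything: `ζ_k = exp(2 π i m_k / n)`. Let `c` be
the combination of the `b_l / n` with integral coefficients such that `pr b_k c = -π i m_k / n`
(`c = ∑_i (m_{inr i} / n) b_{inl i} - (m_{inl i} / n) b_{inr i}`). `F' = UU c F`: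
`V_k F' = c_k⁻¹ UU (b_k) UU c F = exp(2 pr b_k c) UU c V_k F = ζ_k⁻¹ ζ_k F'`. `V_k F' = F'` is the
conclusion. -/
def SpecEIG : Prop :=
  ∀ {β : ℕ} {I Λ : Type} [Fintype I] [Fintype Λ] (D : TH (Fin β) I Λ), D.Good →
    ∀ b : Fin β ⊕ Fin β → Λ → ℚ,
      (∀ k l, pr D (b k) (b l) = Real.pi * Complex.I * (sy k l : ℤ)) →
      ∀ (c : Fin β ⊕ Fin β → ℂ) (M : ℕ), 1 ≤ M → (∀ k, c k ^ M = 1) →
      ∃ F : (Fin β → ℂ) → ℂ, QQ D F ∧ (∃ z, F z ≠ 0) ∧
        ∀ k z, F (z + vq D (b k)) =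
          c k * Complex.exp (aq D (b k) z + aq D (b k) (vq D (b k)) / 2) * F z

/-- **QCH** (150 lines; uses nothing): comparison of two families of linear forms with the same Riemann
form.

Proof. The `lat_l` are an `ℝ`-basis of `ℂ^β` (`indep`, `card`). For `x = ∑ x_l lat_l`, `x_l` real, put
`Q(x, y) = ∑ x_l (a'_l(y) - a_l(y))` (`a'_l = a' (Pi.single l 1)`): `ℝ`-linear in `x`, `ℂ`-linear in `y`.
`Q(lat_l, lat_m) = Q(lat_m, lat_l)` by hypothesis, so `Q` is symmetric, so `ℂ`-linear in `x`. -/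
def SpecQCH : Prop :=
  ∀ {β : ℕ} {I Λ : Type} [Fintype I] [Fintype Λ] (D : TH (Fin β) I Λ), D.Good →
    ∀ a' : (Λ → ℚ) → ((Fin β → ℂ) →ₗ[ℂ] ℂ),
      (∀ t s, a' (t + s) = a' t + a' s) → (∀ (q : ℚ) t, a' (q • t) = (q : ℂ) • a' t) →
      (∀ t s, (a' t (vq D s) - a' s (vq D t)) / 2 = pr D t s) →
      ∃ Q : (Fin β → ℂ) →ₗ[ℂ] (Fin β → ℂ) →ₗ[ℂ] ℂ, (∀ x y, Q x y = Q y x) ∧
        ∀ t z, a' t z = aq D t z + Q (vq D t) z

/-- **FOU** (250 lines; uses nothing): Fourier series.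

Proof. Let `c_m(w) = ∫ over x in [0,1]^ι of F(x + w) e(-m (x + w))`, `e(y) = exp(2 π i ∑ y_i)`. (a) `c_m(w)` does
not depend on `w ∈ ℂ^ι`: `G(w) = F(w) e(-m w)` is entire and `ℤ^ι`-periodic; the derivative of
`s ↦ ∫ G(x + s v) dx` is `∑_j v_j ∫ (∂_j G)(x + s v) dx = 0` (integrate over `x_j` first; the function is
periodic). (Or: in one variable at a time.) (b) From the equation for `F(w + τ_j)`:
`e(m τ_j) c_m = c_j c_{m + e_j}`. So all `c_m` are `0` if `c_0 = 0`. (c) A continuous `ℤ^ι`-periodic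
function on `ℝ^ι` with all Fourier coefficients `0` is `0` (Mathlib: `UnitAddTorus`,
`UnitAddTorus.span_mFourier_closure_eq_top`, `UnitAddTorus.mFourierBasis`; or by induction on the number
of variables from `fourierCoeff`), for `x ↦ F(x + w)`, all `w`. -/
def SpecFOU : Prop :=
  ∀ {ι : Type} [Fintype ι] [DecidableEq ι] (F : (ι → ℂ) → ℂ), Differentiable ℂ F →
    (∀ i w, F (w + Pi.single i 1) = F w) → ∀ (τ : ι → ι → ℂ) (c : ι → ℂ), (∀ j, c j ≠ 0) →
    (∀ j w, F (w + τ j) = c j * Complex.exp (-(2 * Real.pi * Complex.I * w j)) * F w) →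
    ∫ x in Set.Icc (0 : ι → ℝ) 1, F (fun i => (x i : ℂ)) = 0 → ∀ w, F w = 0

/-- **UNQ** (250 lines; uses FOU): uniqueness of the theta function of a principal lattice.

Proof. (Notation `e_i = om (inl i)`, `f_i = om (inr i)`, a `ℂ`-basis `e_i`.) `A (inl i) (e_j)` is symmetric.
`B(z, w)` := the bilinear form with `B(z, e_i) = A (inl i) z`: it is symmetric. `ℓ` linear with
`exp(ℓ(e_i)) = c (inl i) exp(-B(e_i, e_i)/2)`. For `F` as in the theorem put
`F'(y) = exp(-B(z, z)/2 - ℓ(z)) F(z)`, `z = ∑ y_i e_i`. `F'(y + δ_i) = F'(y)`, and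
`F'(y + τ_j) = c'_j exp(A (inr j) z - B(z, f_j)) F'(y)`, `f_j = ∑ (τ_j)_i e_i`, with `c'_j ≠ 0` independent
of `F`; the linear form `z ↦ A (inr j) z - B(z, f_j)` takes at `e_i` the value
`A (inr j) e_i - A (inl i) f_j = -2 π i δ_ij`. So FOU applies to `F'` and to all combinations
`p F' - q G'`. With `p = ∫ G'`, `q = ∫ F'`: `p F' = q G'`; `q ≠ 0`, otherwise `F' = 0` by FOU. -/
def SpecUNQ : Prop :=
  ∀ {ι : Type} [Fintype ι] [DecidableEq ι] (om : ι ⊕ ι → ι → ℂ)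
    (A : ι ⊕ ι → (ι → ℂ) →ₗ[ℂ] ℂ), LinearIndependent ℂ (fun i => om (Sum.inl i)) →
    (∀ k l, A k (om l) - A l (om k) = 2 * Real.pi * Complex.I * (sy k l : ℤ)) →
    ∀ c : ι ⊕ ι → ℂ, (∀ k, c k ≠ 0) → ∀ F G : (ι → ℂ) → ℂ, Differentiable ℂ F →
    Differentiable ℂ G → (∀ k z, F (z + om k) = c k * Complex.exp (A k z) * F z) →
    (∀ k z, G (z + om k) = c k * Complex.exp (A k z) * G z) → (∃ z, F z ≠ 0) →
    ∃ r : ℂ, ∀ z, G z = r * F z

/-- **THE** (250 lines; uses JET, UOP, EIG, QCH, UNQ): THEOREM E' for a base datum.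

Proof. `Q` from QCH, `Theta'(z) = exp(-Q(z, z)/2) Theta(z)`. Then
`Theta'(z + b_k) = c_k exp(aq b_k z + aq b_k (b_k)/2) Theta'(z)`. `F` from EIG; UNQ with `om k = vq (b k)`,
`A k = aq (b k)` and the constants `c k exp(aq b_k (b_k)/2)`: `Theta' = r F`, `r ≠ 0`.
`Om = r T(0)`. `exp(-(a'_t z) - a'_t(t)/2) Theta(z + t) = exp(Q(z, z)/2) UU t Theta' (z)`, so the value and the
first derivative at `0` are those of `UU t Theta' = r UU t F`, and `UU t F` is in `QQ` (UOP). By JET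
(`iteratedDeriv` of order `0` and `1` at `0` of `x ↦ UU s T (x v) / T(0)`) the value at `0` and the
derivative in the direction of `v` of `UU s T` are in `T(0) Qbar`; by induction on `QQ` this holds for all
functions in `QQ` (they are entire). -/
def SpecTHE : Prop :=
  ∀ {β : ℕ} {I Λ : Type} [Fintype I] [Fintype Λ] (D : QD β I Λ), D.Good → D.Alg → LogD D.toTH →
    ∀ b : Fin β ⊕ Fin β → Λ → ℚ,
      (∀ k l, pr D.toTH (b k) (b l) = Real.pi * Complex.I * (sy k l : ℤ)) →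
      LinearIndependent ℂ (fun i => vq D.toTH (b (Sum.inl i))) →
      ∀ a' : (Λ → ℚ) → ((Fin β → ℂ) →ₗ[ℂ] ℂ),
      (∀ t s, a' (t + s) = a' t + a' s) → (∀ (q : ℚ) t, a' (q • t) = (q : ℂ) • a' t) →
      (∀ t s, (a' t (vq D.toTH s) - a' s (vq D.toTH t)) / 2 = pr D.toTH t s) →
      ∀ (c : Fin β ⊕ Fin β → ℂ) (M : ℕ), 1 ≤ M → (∀ k, c k ^ M = 1) →
      ∀ Theta : (Fin β → ℂ) → ℂ, Differentiable ℂ Theta → (∃ z, Theta z ≠ 0) →
      (∀ k z, Theta (z + vq D.toTH (b k)) =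
        c k * Complex.exp (a' (b k) z + a' (b k) (vq D.toTH (b k)) / 2) * Theta z) →
      ∃ Om : ℂ, Om ≠ 0 ∧ ∀ t : Λ → ℚ,
        Complex.exp (-(a' t (vq D.toTH t)) / 2) * Theta (vq D.toTH t) / Om ∈ Qbar ∧
        ∀ v, QV v → fderiv ℂ (fun z => Complex.exp (-(a' t z) - a' t (vq D.toTH t) / 2) *
          Theta (z + vq D.toTH t)) 0 v / Om ∈ Qbar

/-- **THF** (300 lines; uses THE and the theorem `base` of `SH/H4/Base.lean` of helper4, which is closed):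
THEOREM E' for an abelian variety over `K ⊆ Qbar`. RESULT OF PART (e).

Proof. Reindex `ι ≃ Fin β`. (1) The `om l` are `ℝ`-independent: `∑ r_l om_l = 0` gives
`∑_l r_l X k l m = 0` for all `k`, `m` (`A.lat` is independent), so `∑_l r_l sy l l' = 0`, `r = 0`. (2) The
`om (inl i)` are `ℂ`-independent: let `∑ (p_i + i q_i) om (inl i) = 0`, `u = ∑ q_i om (inl i)`, so
`i u = -∑ p_i om (inl i)`. By `IsAbVar.pos` for `x, y` = the coordinates of `B_k u`, `B_k (i u)` (weights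
`w k > 0`): `E(u, i u) ≥ 0` with equality only if all `B_k u = 0`, i.e. (by (1)) `q = 0`. But
`E(u, i u) = 0` since `sy (inl i) (inl j) = 0`. So `q = 0`, `p = 0`. (3) `base` gives `D` and
`t : ι ⊕ ι → Λ → ℚ` with `vq (t l) = om l`, `pr (t l) (t l') = π i sy l l'`: `b l = t l` in THE. (4) All
`s : Λ → ℚ` are `∑ x_l b_l` with unique rational `x_l` (UOP (3)); `a' s = ∑ x_l a_l`. The conclusion for
`t` is that of THE for `s = ∑ t_l b_l`. -/
def SpecTHF : Prop :=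
  ∀ (K : IntermediateField ℚ ℂ) {g N : ℕ} (A : U.AbData g N), K ≤ Qbar → A.IsAbVar K →
    ∀ {ι κ : Type} [Fintype ι] [DecidableEq ι] [Fintype κ] (B : κ → Matrix (Fin g) ι ℂ),
      (∀ k i j, B k i j ∈ Qbar) → ∀ w : κ → ℚ, (∀ k, 0 < w k) →
      ∀ (om : ι ⊕ ι → ι → ℂ) (X : κ → ι ⊕ ι → U.Ix g → ℚ),
      (∀ k l, (B k).mulVec (om l) = ∑ m, (X k l m : ℂ) • A.lat m) →
      (∀ l l', ∑ k, w k * ∑ m, ∑ m', X k l m * (A.E m m' : ℚ) * X k l' m' = (sy l l' : ℤ)) →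
      ∀ a : ι ⊕ ι → (ι → ℂ) →ₗ[ℂ] ℂ,
      (∀ l l', a l (om l') - a l' (om l) = 2 * Real.pi * Complex.I * (sy l l' : ℤ)) →
      ∀ (c : ι ⊕ ι → ℂ) (M : ℕ), 1 ≤ M → (∀ l, c l ^ M = 1) →
      ∀ Theta : (ι → ℂ) → ℂ, Differentiable ℂ Theta → (∃ z, Theta z ≠ 0) →
      (∀ l z, Theta (z + om l) = c l * Complex.exp (a l z + a l (om l) / 2) * Theta z) →
      ∃ Om : ℂ, Om ≠ 0 ∧ ∀ (t : ι ⊕ ι → ℚ) (ot : ι → ℂ) (ft : (ι → ℂ) →ₗ[ℂ] ℂ),
        ot = ∑ l, (t l : ℂ) • om l → ft = ∑ l, (t l : ℂ) • a l →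
        Complex.exp (-(ft ot) / 2) * Theta ot / Om ∈ Qbar ∧
        ∀ v : ι → ℂ, (∀ i, v i ∈ Qbar) →
          fderiv ℂ (fun z => Complex.exp (-(ft z) - ft ot / 2) * Theta (z + ot)) 0 v / Om ∈ Qbar

end Pool.Agent.Lib.MPf11a48.SH
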