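import Pool.Agent.Lib.MP_f11a48_ag.AS.All

/-!
# MP_f11a48_ag, project S0 (Shimura's period relations), part (e): definitions

Algebraicity of the values at torsion points, from the data `AbData`. `D : QD β I Λ` are the theta
functions of a polarised abelian variety over `Qbar` (project AS). For `t ∈ ℚ^Λ` the torsion point is
`vq D t = ∑ t_l lat_l`, the linear form `aq D t = ∑ t_l a_l`.
-/

set_option autoImplicit false

open MvPolynomial Pool.Agent.Lib.MPf11a48.CM Filter Topology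
open Pool.Agent.Lib.MPf11a48.AS Pool.Agent.Lib.MPf11a48.U.ConjM

namespace Pool.Agent.Lib.MPf11a48.SH

/-! ### Taylor coefficients -/

/-- `F'` is conjugate to `F` by `τ` to all orders at `γ`. -/
def CJ {β : ℕ} (τ : ℂ ≃+* ℂ) (γ : Fin β → ℂ) (F F' : (Fin β → ℂ) → ℂ) : Prop :=
  ∀ n : ℕ, Cj τ n (fun z => F (γ + z)) (fun z => F' (γ + z))

/-- `F` is analytic at `γ` and its Taylor coefficients at `γ` are algebraic. -/
def QA {β : ℕ} (γ : Fin β → ℂ) (F : (Fin β → ℂ) → ℂ) : Prop :=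
  ∀ τ : ℂ ≃+* ℂ, FixQ τ → CJ τ γ F F

/-- algebraic vectors -/
def QV {β : ℕ} (v : Fin β → ℂ) : Prop := ∀ j, v j ∈ Qbar

/-- Germs at `0` of functions of one variable with algebraic Taylor coefficients. -/
def QG (φ : ℂ → ℂ) : Prop := AnalyticAt ℂ φ 0 ∧ ∀ k : ℕ, iteratedDeriv k φ 0 ∈ Qbar

/-! ### Torsion points of theta data -/

section Theta

variable {Z I Λ : Type} [Fintype Λ] (D : TH Z I Λ)

/-- the point `∑ t_l lat_l` -/
noncomputable def vq (t : Λ → ℚ) : Z → ℂ := ∑ l, ((t l : ℚ) : ℂ) • D.lat l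

/-- the linear form `∑ t_l a_l` -/
noncomputable def aq (t : Λ → ℚ) : (Z → ℂ) →ₗ[ℂ] ℂ := ∑ l, ((t l : ℚ) : ℂ) • D.a l

/-- `π i E(t, s)`, `E` the Riemann form -/
noncomputable def pr (t s : Λ → ℚ) : ℂ := (aq D t (vq D s) - aq D s (vq D t)) / 2

/-- the quotient of a normalised translate of `th_o` by `th_o` -/
noncomputable def rho (t : Λ → ℚ) (z : Z → ℂ) : ℂ :=
  Complex.exp (-(aq D t z) - aq D t (vq D t) / 2) * D.th D.o (z + vq D t) / D.th D.o z

/-- `t` is integral -/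
def IntV (t : Λ → ℚ) : Prop := ∃ x : Λ → ℤ, ∀ l, t l = x l

/-- the logarithmic derivative of `th_o` -/
noncomputable def zeta [Fintype Z] (v z : Z → ℂ) : ℂ := fderiv ℂ (D.th D.o) z v / D.th D.o z

end Theta

/-- The second logarithmic derivatives of `th_o` are polynomials over `Qbar` in the `f_i`. -/
def LogD {β : ℕ} {I Λ : Type} (D : TH (Fin β) I Λ) : Prop :=
  ∀ i j : Fin β, ∃ P : MvPolynomial I ℂ, (∀ m, P.coeff m ∈ Qbar) ∧ ∀ z, D.th D.o z ≠ 0 →
    fderiv ℂ (fun w => fderiv ℂ (D.th D.o) w (Pi.single j 1) / D.th D.o w) z (Pi.single i 1) =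
      eval (D.fv z) P

/-- algebraic points of the affine part -/
def AlgPt {β : ℕ} {I Λ : Type} (D : TH (Fin β) I Λ) (γ : Fin β → ℂ) : Prop :=
  D.th D.o γ ≠ 0 ∧ ∀ i, D.f i γ ∈ Qbar

end Pool.Agent.Lib.MPf11a48.SH
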