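import Pool.Agent.Lib.MP_f11a48_ag.SH.EBSpec

/-!
# MP_f11a48_ag, S0, part (e), block B, module QCH: two families of linear forms with the same Riemann form
-/

set_option autoImplicit false

open MvPolynomial Pool.Agent.Lib.MPf11a48.CM Filter Topology
open Pool.Agent.Lib.MPf11a48.AS Pool.Agent.Lib.MPf11a48.U.ConjM

namespace Pool.Agent.Lib.MPf11a48.SH

namespace QCHM

variable {Λ V : Type} [Fintype Λ] [AddCommGroup V] [Module ℂ V]

theorem exists_Q (b : Module.Basis Λ ℝ V) (d : Λ → (V →ₗ[ℂ] ℂ))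
    (hd : ∀ l m, d l (b m) = d m (b l)) :
    ∃ Q : V →ₗ[ℂ] V →ₗ[ℂ] ℂ, (∀ x y, Q x y = Q y x) ∧ ∀ l, Q (b l) = d l := by
  classical
  have h2 : ∀ l y, d l y = ∑ m, ((b.repr y m : ℝ) : ℂ) * d l (b m) := by
    intro l y
    conv_lhs => rw [← b.sum_repr y]
    rw [map_sum]
    refine Finset.sum_congr rfl fun m _ => ?_
    rw [← Complex.coe_smul, map_smul, smul_eq_mul]
  set q : V → V → ℂ := fun x y => ∑ l, ((b.repr x l : ℝ) : ℂ) * d l y with hq
  have hsymm : ∀ x y, q x y = q y x := by
    intro x y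
    simp only [hq]
    have e1 : ∀ x y : V, ∑ l, ((b.repr x l : ℝ) : ℂ) * d l y =
        ∑ l, ∑ m, ((b.repr x l : ℝ) : ℂ) * (((b.repr y m : ℝ) : ℂ) * d l (b m)) := by
      intro x y
      refine Finset.sum_congr rfl fun l _ => ?_
      rw [h2 l y, Finset.mul_sum]
    rw [e1, e1, Finset.sum_comm]
    refine Finset.sum_congr rfl fun m _ => Finset.sum_congr rfl fun l _ => ?_
    rw [hd l m]
    ring
  have hadd : ∀ x y z, q x (y + z) = q x y + q x z := by
    intro x y z
    simp only [hq, map_add, mul_add, Finset.sum_add_distrib]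
  have hsmul : ∀ (c : ℂ) x y, q x (c • y) = c * q x y := by
    intro c x y
    simp only [hq, map_smul, smul_eq_mul, Finset.mul_sum]
    exact Finset.sum_congr rfl fun l _ => by ring
  refine ⟨LinearMap.mk₂ ℂ q (fun x y z => ?_) (fun c x y => ?_) (fun x y z => hadd x y z)
    (fun c x y => hsmul c x y), fun x y => hsymm x y, fun l => ?_⟩
  · rw [hsymm, hadd, hsymm z x, hsymm z y]
  · rw [hsymm, hsmul, hsymm y x, smul_eq_mul]
  · ext y
    rw [LinearMap.mk₂_apply]
    simp only [hq]
    rw [Finset.sum_eq_single l]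
    · simp
    · intro m _ hm
      rw [b.repr_self, Finsupp.single_eq_of_ne hm]
      simp
    · intro h
      exact absurd (Finset.mem_univ l) h

end QCHM

theorem specQCH : SpecQCH := by
  classical
  intro β I Λ _ _ D hG a' hadd hsmul hpr
  have hfin : Fintype.card Λ = Module.finrank ℝ (Fin β → ℂ) := by
    rw [finrank_real_of_complex, Module.finrank_fin_fun, hG.card, Fintype.card_fin]
  have hspan : (⊤ : Submodule ℝ (Fin β → ℂ)) ≤ Submodule.span ℝ (Set.range D.lat) :=
    (hG.indep.span_eq_top_of_card_eq_finrank' hfin).ge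
  set b := Module.Basis.mk hG.indep hspan with hb
  have hbl : ∀ l, b l = D.lat l := fun l => by rw [hb, Module.Basis.mk_apply]
  have hv : ∀ l, vq D (Pi.single l 1) = D.lat l := by
    intro l
    unfold vq
    rw [Finset.sum_eq_single l]
    · simp
    · intro m _ hm
      rw [Pi.single_eq_of_ne hm]
      simp
    · intro h
      exact absurd (Finset.mem_univ l) h
  have ha : ∀ l, aq D (Pi.single l 1) = D.a l := by
    intro l
    unfold aq
    rw [Finset.sum_eq_single l]
    · simp
    · intro m _ hm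
      rw [Pi.single_eq_of_ne hm]
      simp
    · intro h
      exact absurd (Finset.mem_univ l) h
  obtain ⟨Q, hQ1, hQ2⟩ := QCHM.exists_Q b (fun l => a' (Pi.single l 1) - D.a l) (by
    intro l m
    have h := hpr (Pi.single l 1) (Pi.single m 1)
    unfold pr at h
    rw [hv, hv, ha, ha] at h
    rw [hbl, hbl, LinearMap.sub_apply, LinearMap.sub_apply]
    linear_combination 2 * h)
  refine ⟨Q, hQ1, fun t z => ?_⟩
  have h1 : a' t = ∑ l, ((t l : ℚ) : ℂ) • a' (Pi.single l 1) := by
    have h2 : t = ∑ l, t l • (Pi.single l 1 : Λ → ℚ) := by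
      funext m
      rw [Finset.sum_apply, Finset.sum_eq_single m]
      · simp
      · intro l _ hl
        rw [Pi.smul_apply, Pi.single_eq_of_ne hl.symm, smul_zero]
      · intro h
        exact absurd (Finset.mem_univ m) h
    have h3 : ∀ s : Λ → ℚ, AddMonoidHom.mk' a' hadd s = a' s := fun s => rfl
    conv_lhs => rw [h2, ← h3, map_sum]
    refine Finset.sum_congr rfl fun l _ => ?_
    rw [h3, hsmul]
  have h4 : Q (vq D t) z = ∑ l, ((t l : ℚ) : ℂ) * (a' (Pi.single l 1) z - D.a l z) := by
    unfold vq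
    rw [map_sum, LinearMap.sum_apply]
    refine Finset.sum_congr rfl fun l _ => ?_
    rw [map_smul, LinearMap.smul_apply, smul_eq_mul, ← hbl, hQ2, LinearMap.sub_apply]
  rw [h1, h4]
  unfold aq
  rw [LinearMap.sum_apply, LinearMap.sum_apply, ← Finset.sum_add_distrib]
  refine Finset.sum_congr rfl fun l _ => ?_
  rw [LinearMap.smul_apply, LinearMap.smul_apply, smul_eq_mul, smul_eq_mul]
  ring

end Pool.Agent.Lib.MPf11a48.SH
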