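import Pool.Agent.Lib.MP_f11a48_ag.SH.EAll
import Pool.Agent.Lib.MP_f11a48_ag.SH.EQch

/-!
# MP_f11a48_ag, project S0, part (e): the closed theorem
-/

set_option autoImplicit false

namespace Pool.Agent.Lib.MPf11a48.SH

/-- **THEOREM E'** (part EP of the project): values and first derivatives at torsion points of the
theta functions of principal lattices in tori isogenous to factors of powers of `A`. -/
theorem specEP : SpecEP := specEP_qch specQCH

end Pool.Agent.Lib.MPf11a48.SH
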