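import Pool.Agent.Lib.MP_f11a48_ag.SH.ESpec

/-! # Project S0, part (e): module JET (helper47) -/

set_option autoImplicit false

open MvPolynomial Pool.Agent.Lib.MPf11a48.CM Filter Topology
open Pool.Agent.Lib.MPf11a48.AS Pool.Agent.Lib.MPf11a48.U.ConjM

namespace Pool.Agent.Lib.MPf11a48.SH

namespace JETM

variable {β : ℕ} {I Λ : Type} [Fintype I] [Fintype Λ]

theorem ana (D : QD β I Λ) (hD : D.Good) (z : Fin β → ℂ) : AnalyticAt ℂ (D.th D.o) z :=
  U.Osgood.analyticAt_of_differentiable (hD.good.diff D.o) z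

theorem ana_zeta (D : QD β I Λ) (hD : D.Good) (v z : Fin β → ℂ) (hz : D.th D.o z ≠ 0) :
    AnalyticAt ℂ (zeta D.toTH v) z := by
  have h1 : AnalyticAt ℂ (fun w => fderiv ℂ (D.th D.o) w v) z :=
    (ContinuousLinearMap.analyticAt (ContinuousLinearMap.apply ℂ ℂ v) _).comp (ana D hD z).fderiv
  exact h1.div (ana D hD z) hz

theorem zeta_zero (D : QD β I Λ) (hD : D.Good) (v : Fin β → ℂ) : zeta D.toTH v 0 = 0 := by
  have h1 : fderiv ℂ (D.th D.o) 0 v = 0 := by
    have h2 : HasFDerivAt (D.th D.o) (fderiv ℂ (D.th D.o) 0) 0 :=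
      (hD.good.diff D.o 0).hasFDerivAt
    have h3 : HasFDerivAt (fun z : Fin β → ℂ => -z) (-(ContinuousLinearMap.id ℂ (Fin β → ℂ))) 0 :=
      (hasFDerivAt_id 0).neg
    have h2' : HasFDerivAt (D.th D.o) (fderiv ℂ (D.th D.o) 0) (-(0 : Fin β → ℂ)) := by
      rwa [neg_zero]
    have h4 := h2'.comp 0 h3
    have h5 : (D.th D.o) ∘ (fun z : Fin β → ℂ => -z) = D.th D.o := by
      funext z
      exact hD.good.even z
    rw [h5] at h4
    have h6 := h4.unique h2
    have h7 := congrArg (fun L : (Fin β → ℂ) →L[ℂ] ℂ => L v) h6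
    simp only [ContinuousLinearMap.comp_apply, ContinuousLinearMap.neg_apply,
      ContinuousLinearMap.id_apply, map_neg] at h7
    have h8 : (2 : ℂ) * fderiv ℂ (D.th D.o) 0 v = 0 := by
      linear_combination -h7
    exact (mul_eq_zero.1 h8).resolve_left two_ne_zero
  unfold zeta
  rw [h1, zero_div]

theorem zeta_sum (D : QD β I Λ) (v z : Fin β → ℂ) :
    zeta D.toTH v z = ∑ j, v j * zeta D.toTH (Pi.single j 1) z := by
  have h : v = ∑ j, v j • (Pi.single j 1 : Fin β → ℂ) := by
    funext i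
    simp [Finset.sum_apply, Pi.single_apply]
  unfold zeta
  conv_lhs => rw [h]
  rw [map_sum, Finset.sum_div]
  refine Finset.sum_congr rfl fun j _ => ?_
  rw [map_smul, smul_eq_mul, mul_div_assoc]

theorem ev_ne (D : QD β I Λ) (hD : D.Good) {z : Fin β → ℂ} (hz : D.th D.o z ≠ 0) :
    ∀ᶠ w in 𝓝 z, D.th D.o w ≠ 0 :=
  (ana D hD z).continuousAt.eventually_ne hz

end JETM

open JETM in
theorem specJET (hQAC : SpecQAC) (hFQA : SpecFQA) (hTOR : SpecTOR) (hROO : SpecROO)
    (hRHQ : SpecRHQ) : SpecJET := by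
  intro β I Λ _ _ D hD hA hL t v hv
  obtain ⟨-, qc, qo, qg, -, qi, -, ql, -⟩ := hQAC (β := β) 0
  obtain ⟨-, rop, rog, -, -, -, rod⟩ := hROO
  have h0 : D.th D.o 0 ≠ 0 := hD.good.zero
  have hpt : AlgPt D.toTH 0 := ⟨h0, fun i => hA.f_value i⟩
  have hsum : ∀ (s : Finset (Fin β)) (F : Fin β → (Fin β → ℂ) → ℂ), (∀ j ∈ s, QA 0 (F j)) →
      QA (0 : Fin β → ℂ) fun z => ∑ j ∈ s, F j z :=
    fun s F h τ hτ n => Cj.sum s fun i hi => h i hi τ hτ n
  -- the logarithmic derivative
  have hz : QA (0 : Fin β → ℂ) (zeta D.toTH v) := by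
    refine qi _ (ana_zeta D hD v 0 h0) ?_ fun i => ?_
    · rw [zeta_zero D hD]
      exact zero_mem _
    · choose P hP1 hP2 using hL i
      have h1 : QA (0 : Fin β → ℂ) fun z => ∑ j, v j * eval (D.fv z) (P j) := by
        refine hsum _ _ fun j _ => ?_
        exact (qo _ _ (qc _ (hv j)) (hFQA D hD hA 0 hpt (P j) (hP1 j))).2.1
      refine qg _ _ ?_ h1
      filter_upwards [ev_ne D hD h0] with z hz
      have h2 : zeta D.toTH v = fun w => ∑ j, v j * zeta D.toTH (Pi.single j 1) w := by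
        funext w
        exact zeta_sum D v w
      have h3 : ∀ j ∈ Finset.univ, DifferentiableAt ℂ
          (fun w => v j * zeta D.toTH (Pi.single j 1) w) z := fun j _ =>
        ((ana_zeta D hD (Pi.single j 1) z hz).differentiableAt).const_mul _
      rw [h2, fderiv_fun_sum h3, ContinuousLinearMap.sum_apply]
      refine Finset.sum_congr rfl fun j _ => ?_
      rw [fderiv_const_mul ((ana_zeta D hD (Pi.single j 1) z hz).differentiableAt)]
      show v j * eval (D.fv z) (P j) = v j * fderiv ℂ (zeta D.toTH (Pi.single j 1)) z (Pi.single i 1)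
      rw [← hP2 j z hz]
      rfl
  have hzl := ql _ v hz hv
  -- the function itself on the line
  have hd1 : ∀ x : ℂ, HasDerivAt (fun x : ℂ => x • v) v x := by
    intro x
    simpa using (hasDerivAt_id x).smul_const v
  have hev : ∀ᶠ x : ℂ in 𝓝 0, D.th D.o (x • v) ≠ 0 := by
    have hc : ContinuousAt (fun x : ℂ => D.th D.o (x • v)) 0 := by
      have h1 := (hD.good.diff D.o).continuous
      exact (h1.comp (by fun_prop : Continuous fun x : ℂ => x • v)).continuousAt
    exact hc.eventually_ne (by simpa using h0)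
  have hT : QG fun x : ℂ => D.th D.o (x • v) / D.th D.o 0 := by
    refine rod _ (fun x : ℂ => zeta D.toTH v (0 + x • v)) ?_ ?_ hzl ?_
    · have h1 : AnalyticAt ℂ (fun x : ℂ => x • v) 0 := by fun_prop
      have h2 : AnalyticAt ℂ (fun x : ℂ => D.th D.o (x • v)) 0 :=
        AnalyticAt.comp_of_eq (ana D hD 0) h1 (by simp)
      exact h2.div analyticAt_const h0
    · simp only [zero_smul]
      rw [div_self h0]
      exact one_mem _
    · filter_upwards [hev] with x hx
      have h1 := ((ana D hD (x • v)).differentiableAt.hasFDerivAt.comp_hasDerivAt x (hd1 x))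
      have h2 : HasDerivAt (fun x : ℂ => D.th D.o (x • v) / D.th D.o 0)
          (fderiv ℂ (D.th D.o) (x • v) v / D.th D.o 0) x := h1.div_const _
      rw [h2.deriv, zero_add]
      unfold zeta
      field_simp
  have hvz : vq D.toTH (0 : Λ → ℚ) = 0 := by
    unfold vq
    simp
  have hR := hRHQ D hD hA hL 0 t (by rw [hvz]; exact h0) v hv
  rw [hvz] at hR
  refine rog _ _ ?_ (rop _ _ hR hT).2
  filter_upwards [hev] with x hx
  rw [zero_add]
  unfold rho
  field_simp

end Pool.Agent.Lib.MPf11a48.SH
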