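import Pool.Agent.Lib.MP_f11a48_ag.SH.EDefs

/-!
# MP_f11a48_ag, project S0, part (e), block A: values at torsion points (helper47)

Module `XXX`: file `Pool/Agent/Lib/MP_f11a48_ag/SH/EXxx.lean` (given in the table), which imports this
file, namespace `Pool.Agent.Lib.MPf11a48.SH`, theorem `specXXX (hYYY : SpecYYY) .. : SpecXXX` with the
hypotheses listed after `uses`, in this order; own lemmas in the namespace `XXXM`. All theorems of
project AS may be used directly (they are closed: `AS.AllM.bas`, `AS.AllM.srg`, `AS.AllM.frc`,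
`AS.AllM.tfv`, `AS.specAUT`, `AS.specLDC`, ..), and the calculus `Cj` of `U/Conj.lean` (namespace
`U.ConjM`: `Cj.base`, `Cj.mono`, `Cj.congr`, `Cj.const`, `Cj.add`, `Cj.mul`, `Cj.sum`, `Cj.eval`,
`iter_zero`, `eventually_zero`, `Ent`, `Osgood.analyticAt_of_differentiable`).

Notation: `T = th_o`, `e(x) = exp(2 π i x)`, `π i E(t, s) = pr D t s`.
-/

set_option autoImplicit false

open MvPolynomial Pool.Agent.Lib.MPf11a48.CM Filter Topology
open Pool.Agent.Lib.MPf11a48.AS Pool.Agent.Lib.MPf11a48.U.ConjM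

namespace Pool.Agent.Lib.MPf11a48.SH

/-! ## Calculus of algebraic Taylor coefficients -/

/-- **QAC** (200 lines; uses nothing): the calculus of `QA`.

Proof. `Cj` is used for the functions `z ↦ F (γ + z)` at `0`; `fderiv ℂ (fun z => F (γ + z)) z v =
fderiv ℂ F (γ + z) v`. (1) `Cj.base` with all `τ`: `τ (F γ) = F γ`, `specAUT` (1). (2)-(4) `Cj.const`,
`Cj.add`, `Cj.mul`, `Cj.congr`. (5) the second part of `Cj τ (n+1)` for `v` with `τ v = v`. (6) Induction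
on `n`: `fderiv F z v = ∑ v_j fderiv F z e_j`, the other function has `τ (v_j)`. (7) Induction on `n`:
`Cj τ n F F` implies `Cj τ (n+1) F F` by `D_v F = ∑ v_j F L_j` near `γ`. (8) `φ(s) = F(γ + s v)` is
analytic, and `φ^(k)(0) = (D_v ⋯ D_v F)(γ)`, which is in `Qbar` by (5), (1) (induction on `k`:
`deriv φ = ψ` near `0` for `ψ(s) = (D_v F)(γ + s v)`, `iteratedDeriv_succ'`). (9) clear
(`F (γ + z + w) = F (γ + w + z)`). -/
def SpecQAC : Prop :=
  ∀ {β : ℕ} (γ : Fin β → ℂ),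
    (∀ F, QA γ F → AnalyticAt ℂ F γ ∧ F γ ∈ Qbar) ∧
    (∀ c ∈ Qbar, QA γ fun _ => c) ∧
    (∀ F G, QA γ F → QA γ G → QA γ (fun z => F z + G z) ∧ QA γ (fun z => F z * G z) ∧
      QA γ (fun z => F z - G z)) ∧
    (∀ F G, (∀ᶠ z in 𝓝 γ, F z = G z) → QA γ F → QA γ G) ∧
    (∀ F v, QA γ F → QV v → QA γ fun z => fderiv ℂ F z v) ∧
    (∀ F, AnalyticAt ℂ F γ → F γ ∈ Qbar →
      (∀ j, QA γ fun z => fderiv ℂ F z (Pi.single j 1)) → QA γ F) ∧
    (∀ F, AnalyticAt ℂ F γ → F γ ∈ Qbar → ∀ L : Fin β → (Fin β → ℂ) → ℂ, (∀ j, QA γ (L j)) →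
      (∀ j, ∀ᶠ z in 𝓝 γ, fderiv ℂ F z (Pi.single j 1) = F z * L j z) → QA γ F) ∧
    (∀ F v, QA γ F → QV v → QG fun s => F (γ + s • v)) ∧
    ∀ F w, QA (γ + w) F → QA γ fun z => F (z + w)

/-- **DIV** (200 lines; uses QAC): division.

Proof. (1) Claim by induction on `n`, for all functions: `Cj τ n G G'` (translated to `γ`). Value: `α` is
analytic and not `0` near `γ`, so there is `v` such that `t ↦ α(γ + t v)` is not `0` near `0` (otherwise
`α = 0` on a ball: for `z` in a ball of analyticity `t ↦ α(γ + t (z - γ))` is analytic near `[0, 1]`).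
Let `k` be its order. From `CJ`: `d^j/dt^j α'(γ + t τv) (0) = τ (d^j/dt^j α(γ + t v) (0))` (induction on
`j` as in QAC (8)), the same for `b`. `specLDC` with `φ(t) = G(γ + t v)` and with `G'(γ + t τv)`:
`b_k = G(γ) α_k`, `b'_k = G'(γ) α'_k`, so `G'(γ) = τ(G(γ))` (`τ α_k ≠ 0`). Step: near `γ`,
`(D_v G) α² = (D_v b) α - b D_v α` and `(D_τv G') α'² = (D_τv b') α' - b' D_τv α'`; the functions on the
right are conjugate to all orders, and so are `α²`, `α'²`; `α²` is not `0` near `γ`. Induction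
hypothesis for `D_v G`, `D_τv G'`. (2) `F⁻¹ F = 1`. -/
def SpecDIV : Prop :=
  (∀ {β : ℕ} (τ : ℂ ≃+* ℂ) (γ : Fin β → ℂ) (G G' α α' b b' : (Fin β → ℂ) → ℂ),
    AnalyticAt ℂ G γ → AnalyticAt ℂ G' γ → CJ τ γ α α' → CJ τ γ b b' →
    (¬ ∀ᶠ z in 𝓝 γ, α z = 0) → (∀ᶠ z in 𝓝 γ, G z * α z = b z) →
    (∀ᶠ z in 𝓝 γ, G' z * α' z = b' z) → CJ τ γ G G') ∧
  ∀ {β : ℕ} (γ : Fin β → ℂ) (F : (Fin β → ℂ) → ℂ), QA γ F → F γ ≠ 0 → QA γ fun z => (F z)⁻¹

/-- **FQA** (120 lines; uses nothing): polynomials in the `f_i` at algebraic points.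

Proof. As `ConjM.step`, `ConjM.cj_f` at the point `γ` instead of `0`: by induction on `n` all
`f_i(γ + z)` are conjugate to themselves up to order `n`: `∂_j f_i = p_ij(f)` near `γ`
(`QD.Good.f_deriv`), `p_ij` over `Qbar` (`QD.Alg`). Then `Cj.eval`; `map τ P = P`
(`AS.CNJM.map_fix` or similar). -/
def SpecFQA : Prop :=
  ∀ {β : ℕ} {I Λ : Type} [Fintype I] [Fintype Λ] (D : QD β I Λ), D.Good → D.Alg →
    ∀ γ : Fin β → ℂ, AlgPt D.toTH γ → ∀ P : MvPolynomial I ℂ, (∀ m, P.coeff m ∈ Qbar) →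
      QA γ fun z => eval (D.fv z) P

/-- **APP** (250 lines; uses QAC, DIV, FQA): the algebraicity principle. A quotient `F` of polynomials
over `ℂ` in the `f_i` with algebraic Taylor coefficients at one algebraic point has algebraic Taylor
coefficients at all algebraic points where it is analytic.

Proof. Let `τ` be in `FixQ`, `a' = map τ a`, `b' = map τ b`. At `γ₀`: `F a(f) - b(f)` is `0` near `γ₀` and
conjugate to `F a'(f) - b'(f)` to all orders (`Cj.eval` with the `f_i`, FQA; `F` by hypothesis), so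
`F a'(f) = b'(f)` near `γ₀` (`eventually_zero`). So `a(f) b'(f) = b(f) a'(f)` near `γ₀`, and on `V'`
(identity theorem: the function times a power of `th_o` is entire, `Ent`, the union of the
translates: `Ent.eq_zero` is at `0`; use `AnalyticOnNhd.eqOn_zero_of_preconnected_of_eventuallyEq_zero`
for the entire function at `γ₀`). Near `γ`: `a(f) (F a'(f) - b'(f)) = b(f) a'(f) - a(f) b'(f) = 0`, and
`a(f)` is not `0` near `γ` (`a ∉ nf`, identity theorem), so `F a'(f) = b'(f)` near `γ` (the ring of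
analytic germs is a domain: `Orb.loc_mul` in `U/Orb.lean`). DIV (1) with `G = G' = F`. -/
def SpecAPP : Prop :=
  ∀ {β : ℕ} {I Λ : Type} [Fintype I] [Fintype Λ] (D : QD β I Λ), D.Good → D.Alg →
    ∀ γ₀ γ : Fin β → ℂ, AlgPt D.toTH γ₀ → AlgPt D.toTH γ → ∀ (F : (Fin β → ℂ) → ℂ)
      (a b : MvPolynomial I ℂ), a ∉ D.nf →
      (∀ᶠ z in 𝓝 γ₀, F z * eval (D.fv z) a = eval (D.fv z) b) →
      (∀ᶠ z in 𝓝 γ, F z * eval (D.fv z) a = eval (D.fv z) b) →
      QA γ₀ F → AnalyticAt ℂ F γ → QA γ F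

/-- **TOR** (40 lines; uses nothing): torsion points are algebraic.

Proof. `AllM.tfv` with a common denominator `q` of the `t_l`: `q • vq D t = D.vec x`. -/
def SpecTOR : Prop :=
  ∀ {β : ℕ} {I Λ : Type} [Fintype I] [Fintype Λ] (D : QD β I Λ), D.Good → D.Alg →
    ∀ t : Λ → ℚ, D.th D.o (vq D.toTH t) ≠ 0 → AlgPt D.toTH (vq D.toTH t)

/-- **GEN** (120 lines; uses nothing): generic torsion points.

Proof. The entire function `z ↦ ∏_{t ∈ T} th_o(z + vq t)` is not `0` (a product of entire functions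
`≠ 0`; `th_o(0) ≠ 0`; `AllM.bas` (3) or `Orb.ent_mul`), so it is `≠ 0` at some `z₁`, and near `z₁`; the
points `vq s` are dense: the `lat_l` are an `ℝ`-basis (`indep`, `card`), `z₁ = ∑ x_l lat_l`, `x_l` real,
approximate the `x_l` by rational numbers. -/
def SpecGEN : Prop :=
  ∀ {Z I Λ : Type} [Fintype Z] [Fintype I] [Fintype Λ] (D : TH Z I Λ), D.Good →
    ∀ T : Finset (Λ → ℚ), ∃ s : Λ → ℚ, ∀ t ∈ T, D.th D.o (vq D (s + t)) ≠ 0

/-! ## The functions `rho` -/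

/-- **RHO** (250 lines; uses nothing): the functional equations.

Proof. `vq`, `aq` are additive in `t`, and for integral `t = x`: `vq = D.vec x`, `aq = D.al x`. (1) Expand:
the exponent of `rho t z * rho s (z + vq t)` minus that of `rho (t+s) z` is
`-aq s (vq t) - (aq t (vq t) + aq s (vq s))/2 + aq (t+s) (vq (t+s))/2 = (aq t (vq s) - aq s (vq t))/2`.
(2) `aut`. (3) For integral `x`, `y`: by (1), (2) at a point with `th_o ≠ 0`,
`1 * 1 = exp(pr x y) * 1`. `pr` is additive in both arguments, so if `n t` is integral then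
`exp(pr x t)^n = exp(pr x (n t)) = 1`. (4) If `th_o(z + vq t) ≠ 0`: by (1), (2)
`rho t (z + vq x) = exp(pr x t) rho (x + t) z` and `rho t z = exp(pr t x) rho (t + x) z`, `pr t x = -pr x t`.
If `th_o(z + vq t) = 0` both sides are `0`. (5) `k = n`, `G(z) = (exp(..) th_o(z + vq t))^n`; periodicity by
(4), (3). The derivative `D_v (A)` of `A ∈ S`, `A T^k = G`, satisfies
`D_v A T^(k+1) = D_v G T - k G D_v T`, and is periodic. (6) Logarithmic derivative. (7) By (1) and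
`pr t (k t) = 0` the product is `rho (n t) z`; use (2). (8) differentiate `aut`. -/
def SpecRHO : Prop :=
  ∀ {β : ℕ} {I Λ : Type} [Fintype I] [Fintype Λ] (D : TH (Fin β) I Λ), D.Good →
    (∀ (t s : Λ → ℚ) z, D.th D.o z ≠ 0 → D.th D.o (z + vq D t) ≠ 0 →
      rho D t z * rho D s (z + vq D t) = Complex.exp (pr D t s) * rho D (t + s) z) ∧
    (∀ x : Λ → ℚ, IntV x → ∀ z, D.th D.o z ≠ 0 → rho D x z = 1) ∧
    (∀ x t : Λ → ℚ, IntV x → ∀ n : ℕ, IntV (fun l => (n : ℚ) * t l) →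
      Complex.exp (pr D x t) ^ n = 1) ∧
    (∀ x t : Λ → ℚ, IntV x → ∀ z, D.th D.o z ≠ 0 →
      rho D t (z + vq D x) = Complex.exp (2 * pr D x t) * rho D t z) ∧
    (∀ (t : Λ → ℚ) (n : ℕ), 1 ≤ n → IntV (fun l => (n : ℚ) * t l) →
      D.IsS (fun z => rho D t z ^ n) ∧
      ∀ v, D.IsS fun z => fderiv ℂ (fun w => rho D t w ^ n) z v) ∧
    (∀ (t : Λ → ℚ) z v, D.th D.o z ≠ 0 → D.th D.o (z + vq D t) ≠ 0 →
      fderiv ℂ (rho D t) z v =
        rho D t z * (zeta D v (z + vq D t) - zeta D v z - aq D t v)) ∧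
    (∀ (t : Λ → ℚ) (n : ℕ), 1 ≤ n → IntV (fun l => (n : ℚ) * t l) → ∀ z,
      (∀ k : ℕ, k ≤ n → D.th D.o (z + (k : ℂ) • vq D t) ≠ 0) →
      ∏ k ∈ Finset.range n, rho D t (z + (k : ℂ) • vq D t) = 1) ∧
    ∀ x : Λ → ℚ, IntV x → ∀ z v, D.th D.o z ≠ 0 → zeta D v (z + vq D x) = zeta D v z + aq D x v

/-- **LVT** (250 lines; uses QAC, FQA, APP, TOR, GEN, RHO): the differences of the logarithmic
derivatives at torsion points are algebraic.

Proof. Let `R(z) = zeta v (z + vq t) - zeta v z - aq t v`, `n ≥ 1` with `n t` integral. The derivative of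
`R` in a direction `e_i` is `P(f(z + vq t)) - P(f(z))`, `P = ∑ v_j P_ij` over `Qbar` (`LogD`, linearity in
`v`); so at a torsion point `γ` with `T(γ) ≠ 0`, `T(γ + vq t) ≠ 0` all first derivatives of `R` are `QA`
(FQA at `γ` and at `γ + vq t`, TOR; QAC (9)). Choose `s₀` with `T(vq (s₀ + k t)) ≠ 0` for `0 ≤ k ≤ n`
(GEN); `γ₀ = vq s₀`, `c = R(γ₀)`, `F = R - c`: `F(γ₀) = 0`, so `QA γ₀ F` (QAC (6)). With `g = rho t ^ n`:
`D_v g = n R g` where both `T(z)`, `T(z + vq t)` are `≠ 0` (RHO (6)), and `g a₁ = b₁`, `D_v g a₂ = b₂` with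
`a₁, a₂ ∉ nf` (`AllM.frc`, RHO (5)); so `F a = b` for `a = n b₁ a₂`, `b = b₂ a₁ - c n b₁ a₂`, and `a ∉ nf` as
`nf` is prime (`AllM.bas` (4)) and `b₁ ∉ nf` (`g a₁` is not `0` on `V'`). APP: `QA γ F` for all torsion
points `γ` with `T(γ) ≠ 0`, `T(γ + vq t) ≠ 0`. For `γ = γ₀ + k vq t`, `0 ≤ k < n`: `R(γ) - c ∈ Qbar`; and
`∑_{k<n} R(γ₀ + k vq t) = zeta v (γ₀ + n vq t) - zeta v γ₀ - n aq t v = 0` (RHO (8)). So `n c ∈ Qbar`,
`c ∈ Qbar`, and `R = F + c` is `QA` at `γ`. -/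
def SpecLVT : Prop :=
  ∀ {β : ℕ} {I Λ : Type} [Fintype I] [Fintype Λ] (D : QD β I Λ), D.Good → D.Alg → LogD D.toTH →
    ∀ s t : Λ → ℚ, D.th D.o (vq D.toTH s) ≠ 0 → D.th D.o (vq D.toTH s + vq D.toTH t) ≠ 0 →
    ∀ v, QV v → QA (vq D.toTH s) fun z =>
      zeta D.toTH v (z + vq D.toTH t) - zeta D.toTH v z - aq D.toTH t v

/-- **GQA** (200 lines; uses QAC, APP, TOR, GEN, RHO, LVT): the powers of `rho`.

Proof. `g = rho t ^ n`. Choose `s₀` with `T(vq (s₀ + k t)) ≠ 0` for `0 ≤ k ≤ n` (GEN); `γ₀ = vq s₀`,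
`c = g(γ₀) ≠ 0`, `F = g / c`. `D_j F = F n R_j` near `γ₀` (RHO (6)), `R_j` is `QA` (LVT), `F(γ₀) = 1`: `QA γ₀ F`
(QAC (7)). `F a = b` on `V'` (`AllM.frc`). APP at `γ₀ + k vq t`: `g(γ₀ + k vq t) / c ∈ Qbar`; the product over
`k < n` of the `g(γ₀ + k vq t)` is `1` (RHO (7)), so `c ^ n ∈ Qbar`, `c ∈ Qbar` (`Qbar` is algebraically
closed in `ℂ`). So `g = c F` is `QA` at `γ₀`, and by APP at `vq s`. -/
def SpecGQA : Prop :=
  ∀ {β : ℕ} {I Λ : Type} [Fintype I] [Fintype Λ] (D : QD β I Λ), D.Good → D.Alg → LogD D.toTH →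
    ∀ s t : Λ → ℚ, D.th D.o (vq D.toTH s) ≠ 0 → ∀ n : ℕ, 1 ≤ n →
    IntV (fun l => (n : ℚ) * t l) → QA (vq D.toTH s) fun z => rho D.toTH t z ^ n

/-- **ROO** (200 lines; uses nothing): germs of one variable.

Proof. Leibniz for `iteratedDeriv` (or: the Taylor series of a product is the product of the Taylor
series). (4) the reciprocal: `ψ φ = 1`, induction on `k`: `k`-th derivative of `ψ φ`. (5) `iteratedDeriv`
of `deriv`. (6) If `φ ^ n` is `0` near `0` so is `φ`. Otherwise `φ(s) = s^m ψ(s)`, `ψ` analytic,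
`ψ(0) ≠ 0`; the Taylor coefficients of `ψ^n` are those of `φ^n` shifted by `n m`, so `ψ^n` is `QG`;
`ψ(0)^n ∈ Qbar` so `ψ(0) ∈ Qbar`; `ψ' = ψ (ψ^n)' / (n ψ^n)`, and a solution of `ψ' = ψ χ`, `χ` in `QG`,
`ψ(0) ∈ Qbar`, is in `QG` (induction, (7)). The coefficients of `φ` are those of `ψ`, shifted by `m`. -/
def SpecROO : Prop :=
  (∀ c ∈ Qbar, QG fun _ => c) ∧
  (∀ φ ψ, QG φ → QG ψ → QG (fun s => φ s + ψ s) ∧ QG fun s => φ s * ψ s) ∧
  (∀ φ ψ : ℂ → ℂ, (∀ᶠ s in 𝓝 0, φ s = ψ s) → QG φ → QG ψ) ∧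
  (∀ φ, QG φ → φ 0 ≠ 0 → QG fun s => (φ s)⁻¹) ∧
  (∀ φ, QG φ → QG (deriv φ)) ∧
  (∀ (φ : ℂ → ℂ) (n : ℕ), 1 ≤ n → AnalyticAt ℂ φ 0 → (QG fun s => φ s ^ n) → QG φ) ∧
  ∀ φ χ : ℂ → ℂ, AnalyticAt ℂ φ 0 → φ 0 ∈ Qbar → QG χ →
    (∀ᶠ s in 𝓝 0, deriv φ s = φ s * χ s) → QG φ

/-- **RHQ** (80 lines; uses QAC, GQA, ROO): the Taylor coefficients of `rho` on lines are algebraic, also
where `rho` vanishes.

Proof. `n` a common denominator of `t`; GQA, QAC (8), ROO (6). -/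
def SpecRHQ : Prop :=
  ∀ {β : ℕ} {I Λ : Type} [Fintype I] [Fintype Λ] (D : QD β I Λ), D.Good → D.Alg → LogD D.toTH →
    ∀ s t : Λ → ℚ, D.th D.o (vq D.toTH s) ≠ 0 → ∀ v, QV v →
      QG fun x : ℂ => rho D.toTH t (vq D.toTH s + x • v)

/-- **JET** (120 lines; uses QAC, FQA, TOR, ROO, RHQ): RESULT OF BLOCK A. All jets at `0` of the normalised
translates `U_t T (z) = exp(-aq t z - aq t (vq t) / 2) T(z + vq t)` of `T = th_o` by torsion points are
algebraic multiples of the one number `T(0)`.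

Proof. `U_t T = rho t * T` where `T ≠ 0`, in particular near `0`. RHQ with `s = 0` for `rho t (x v)`. For
`T(x v) / T(0)`: the derivative is `T(x v)/T(0) * zeta v (x v)` and `zeta v` is `QA` at `0`: its first
derivatives are (`LogD`, linearity in `v`, FQA at the algebraic point `0`) and `zeta v 0 = 0` since `T` is
even (QAC (6)); QAC (8) and ROO (7). Product: ROO (2). -/
def SpecJET : Prop :=
  ∀ {β : ℕ} {I Λ : Type} [Fintype I] [Fintype Λ] (D : QD β I Λ), D.Good → D.Alg → LogD D.toTH →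
    ∀ (t : Λ → ℚ) (v : Fin β → ℂ), QV v →
      QG fun x : ℂ => Complex.exp (-(aq D.toTH t (x • v)) - aq D.toTH t (vq D.toTH t) / 2) *
        D.th D.o (x • v + vq D.toTH t) / D.th D.o 0

end Pool.Agent.Lib.MPf11a48.SH
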