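import Pool.Agent.Lib.MP_f11a48_ag.SH.Spec
import Pool.Agent.Lib.MP_f11a48_ag.SH.POL.Diag

/-!
# MP_f11a48_ag, PROJECT S0, part EX: existence of the family

* `darboux`: symplectic bases of non-degenerate alternating forms over a field.
* `approx`: `K` is dense in the product of the completions at the places `sg v`.
* `specEX`.
-/

set_option autoImplicit false

namespace Pool.Agent.Lib.MPf11a48.SH.EX

/-! ## Symplectic bases -/

section Darboux

variable {k : Type} [Field k]

theorem darboux_family : ∀ (N : ℕ) (V : Type) [AddCommGroup V] [Module k V]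
    [FiniteDimensional k V] (B : V →ₗ[k] V →ₗ[k] k), (∀ x, B x x = 0) →
    (∀ x, (∀ y, B x y = 0) → x = 0) → Module.finrank k V ≤ N →
    ∃ (n : ℕ) (e f : Fin n → V), Module.finrank k V = 2 * n ∧ (∀ i j, B (e i) (e j) = 0) ∧
      (∀ i j, B (f i) (f j) = 0) ∧ ∀ i j, B (e i) (f j) = if i = j then 1 else 0 := by
  intro N
  induction N with
  | zero =>
    intro V _ _ _ B _ _ hN
    refine ⟨0, Fin.elim0, Fin.elim0, by omega, fun i => i.elim0, fun i => i.elim0,
      fun i => i.elim0⟩
  | succ N ih =>
    intro V _ _ _ B halt hnd hN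
    by_cases hV : ∀ x : V, x = 0
    · have : Subsingleton V := ⟨fun x y => by rw [hV x, hV y]⟩
      refine ⟨0, Fin.elim0, Fin.elim0, ?_, fun i => i.elim0, fun i => i.elim0,
        fun i => i.elim0⟩
      rw [Module.finrank_zero_of_subsingleton]
    push Not at hV
    obtain ⟨e, he⟩ := hV
    have hy : ∃ y, B e y ≠ 0 := by
      by_contra hcon
      push Not at hcon
      exact he (hnd e hcon)
    obtain ⟨y, hy⟩ := hy
    obtain ⟨f, hef⟩ : ∃ f, B e f = 1 := ⟨(B e y)⁻¹ • y, by
      rw [map_smul, smul_eq_mul, inv_mul_cancel₀ hy]⟩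
    have hskew : ∀ x y, B x y = -B y x := by
      intro x y
      have h := halt (x + y)
      simp only [map_add, LinearMap.add_apply, halt, zero_add, add_zero] at h
      exact eq_neg_of_add_eq_zero_right h
    have hfe : B f e = -1 := by rw [hskew, hef]
    let Φ : V →ₗ[k] k × k := (B e).prod (B f)
    have hΦ : ∀ x, Φ x = (B e x, B f x) := fun x => rfl
    have hsurj : Function.Surjective Φ := by
      rintro ⟨a, b⟩
      refine ⟨a • f - b • e, ?_⟩
      rw [hΦ]
      simp [map_sub, hef, hfe, halt]
    have hdim : Module.finrank k V = 2 + Module.finrank k (LinearMap.ker Φ) := by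
      have h := LinearMap.finrank_range_add_finrank_ker Φ
      rw [LinearMap.range_eq_top.2 hsurj, finrank_top, Module.finrank_prod,
        Module.finrank_self] at h
      omega
    have hW : ∀ x : LinearMap.ker Φ, B e x = 0 ∧ B f x = 0 := by
      intro x
      have h := x.2
      rw [LinearMap.mem_ker, hΦ, Prod.mk_eq_zero] at h
      exact h
    obtain ⟨n, e', f', h1, h2, h3, h4⟩ := ih (LinearMap.ker Φ)
      (B.compl₁₂ (LinearMap.ker Φ).subtype (LinearMap.ker Φ).subtype)
      (fun x => by simp [halt]) (by
        intro x hx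
        have h5 : (x : V) = 0 := by
          refine hnd _ fun z => ?_
          -- z = z' + combination
          have hz : z - B e z • f + B f z • e ∈ LinearMap.ker Φ := by
            rw [LinearMap.mem_ker, hΦ, Prod.mk_eq_zero]
            constructor
            · simp [map_sub, map_add, hef, halt]
            · simp [map_sub, map_add, hfe, halt]
          have h6 := hx ⟨_, hz⟩
          have h7 : B x (z - B e z • f + B f z • e) = 0 := h6
          have h8 : B x f = 0 := by rw [hskew, (hW x).2, neg_zero]
          have h9 : B x e = 0 := by rw [hskew, (hW x).1, neg_zero]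
          rw [map_add, map_sub, map_smul, map_smul, h8, h9, smul_zero, smul_zero, sub_zero,
            add_zero] at h7
          exact h7
        exact Subtype.ext h5) (by omega)
    have h2' : ∀ i j, B (e' i : V) (e' j : V) = 0 := h2
    have h3' : ∀ i j, B (f' i : V) (f' j : V) = 0 := h3
    have h4' : ∀ i j, B (e' i : V) (f' j : V) = if i = j then 1 else 0 := h4
    have he' : ∀ x : LinearMap.ker Φ, B x e = 0 := fun x => by
      rw [hskew, (hW x).1, neg_zero]
    have hf' : ∀ x : LinearMap.ker Φ, B x f = 0 := fun x => by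
      rw [hskew, (hW x).2, neg_zero]
    refine ⟨n + 1, Fin.cons e fun i => (e' i : V), Fin.cons f fun i => (f' i : V), by omega,
      ?_, ?_, ?_⟩
    · intro i j
      refine Fin.cases ?_ (fun i => ?_) i <;> refine Fin.cases ?_ (fun j => ?_) j
      · simp [halt]
      · simp [(hW _).1]
      · simp [he']
      · simp [h2']
    · intro i j
      refine Fin.cases ?_ (fun i => ?_) i <;> refine Fin.cases ?_ (fun j => ?_) j
      · simp [halt]
      · simp [(hW _).2]
      · simp [hf']
      · simp [h3']
    · intro i j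
      refine Fin.cases ?_ (fun i => ?_) i <;> refine Fin.cases ?_ (fun j => ?_) j
      · simp [hef]
      · have : (0 : Fin (n + 1)) ≠ j.succ := (Fin.succ_ne_zero j).symm
        simp [(hW _).1, this]
      · simp [hf']
      · simp [h4', Fin.succ_inj]

/-- A non-degenerate alternating form has a symplectic basis. -/
theorem darboux {V : Type} [AddCommGroup V] [Module k V] [FiniteDimensional k V]
    (B : V →ₗ[k] V →ₗ[k] k) (halt : ∀ x, B x x = 0) (hnd : ∀ x, (∀ y, B x y = 0) → x = 0)
    {ι : Type} [Fintype ι] [DecidableEq ι] (hι : Module.finrank k V = 2 * Fintype.card ι) :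
    ∃ b : Module.Basis (ι ⊕ ι) k V, (∀ i j, B (b (Sum.inl i)) (b (Sum.inl j)) = 0) ∧
      (∀ i j, B (b (Sum.inr i)) (b (Sum.inr j)) = 0) ∧
      ∀ i j, B (b (Sum.inl i)) (b (Sum.inr j)) = if i = j then 1 else 0 := by
  obtain ⟨n, e₀, f₀, hn, h1, h2, h3⟩ := darboux_family (Module.finrank k V) V B halt hnd le_rfl
  have hn' : n = Fintype.card ι := by omega
  subst hn'
  let E := Fintype.equivFin ι
  let e : ι → V := fun i => e₀ (E i)
  let f : ι → V := fun i => f₀ (E i)
  have h1' : ∀ i j, B (e i) (e j) = 0 := fun i j => h1 _ _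
  have h2' : ∀ i j, B (f i) (f j) = 0 := fun i j => h2 _ _
  have h3' : ∀ i j, B (e i) (f j) = if i = j then 1 else 0 := fun i j => by
    show B (e₀ (E i)) (f₀ (E j)) = _
    rw [h3]
    simp [E.injective.eq_iff]
  have hli : LinearIndependent k (Sum.elim e f) := by
    rw [Fintype.linearIndependent_iff]
    intro g hg
    rw [Fintype.sum_sum_type] at hg
    simp only [Sum.elim_inl, Sum.elim_inr] at hg
    have hl : ∀ j, g (Sum.inl j) = 0 := by
      intro j
      have h := congrArg (fun x => B x (f j)) hg
      simpa [map_add, map_sum, LinearMap.add_apply, LinearMap.sum_apply, h3', h2'] using h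
    have hr : ∀ j, g (Sum.inr j) = 0 := by
      intro j
      have h := congrArg (fun x => B (e j) x) hg
      simpa [map_add, map_sum, h3', h1'] using h
    rintro (i | i)
    · exact hl i
    · exact hr i
  have hcard : Fintype.card (ι ⊕ ι) = Module.finrank k V := by
    rw [Fintype.card_sum, hι]
    ring
  let b : Module.Basis (ι ⊕ ι) k V := basisOfLinearIndependentOfCardEqFinrank' _ hli hcard
  have hb : ∀ i, b i = Sum.elim e f i := fun i => by
    show basisOfLinearIndependentOfCardEqFinrank' _ hli hcard i = _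
    rw [coe_basisOfLinearIndependentOfCardEqFinrank']
  refine ⟨b, fun i j => ?_, fun i j => ?_, fun i j => ?_⟩
  · rw [hb, hb]; exact h1' i j
  · rw [hb, hb]; exact h2' i j
  · rw [hb, hb]; exact h3' i j

end Darboux

/-! ## Approximation -/

section Approx

variable {K : Type} [Field K] [NumberField K] {V : Type} [Fintype V]

/-- the embeddings as a sum type -/
theorem card_emb {sg : V → K →+* ℂ} (hinj : Function.Injective sg)
    (hne : ∀ v w, sg v ≠ (starRingEnd ℂ).comp (sg w))
    (hall : ∀ s : K →+* ℂ, ∃ v, s = sg v ∨ s = (starRingEnd ℂ).comp (sg v)) :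
    Module.finrank ℚ K = 2 * Fintype.card V := by
  classical
  rw [← NumberField.Embeddings.card K ℂ]
  have h : Function.Bijective (Sum.elim sg fun v => (starRingEnd ℂ).comp (sg v)) := by
    constructor
    · rintro (v | v) (w | w) hvw
      · simp only [Sum.elim_inl] at hvw
        rw [hinj hvw]
      · exact absurd hvw (hne v w)
      · exact absurd hvw.symm (hne w v)
      · simp only [Sum.elim_inr] at hvw
        have h2 : POL.bar (sg v) = POL.bar (sg w) := hvw
        rw [hinj (POL.bar_inj h2)]
    · intro s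
      obtain ⟨v, hv | hv⟩ := hall s
      · exact ⟨Sum.inl v, hv.symm⟩
      · exact ⟨Sum.inr v, hv.symm⟩
  rw [← Fintype.card_of_bijective h, Fintype.card_sum]
  ring

/-- real combinations of a basis of `K` which vanish at all embeddings vanish -/
theorem real_indep {ι : Type} [Fintype ι] (b : Module.Basis ι ℚ K) (a : ι → ℝ)
    (ha : ∀ s : K →+* ℂ, ∑ j, (a j : ℂ) * s (b j) = 0) : a = 0 := by
  classical
  have h : ∀ y : K, ∑ j, a j * ((Algebra.trace ℚ K (y * b j) : ℚ) : ℝ) = 0 := by
    intro y
    have h1 : ∑ s : K →+* ℂ, s y * ∑ j, (a j : ℂ) * s (b j) = 0 := by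
      simp [ha]
    have h2 : ∑ j, (a j : ℂ) * ((Algebra.trace ℚ K (y * b j) : ℚ) : ℂ) = 0 := by
      rw [← h1]
      simp only [POL.trace_sum, Finset.mul_sum]
      rw [Finset.sum_comm]
      refine Finset.sum_congr rfl fun s _ => Finset.sum_congr rfl fun j _ => ?_
      rw [map_mul]
      ring
    have h3 : ((∑ j, a j * ((Algebra.trace ℚ K (y * b j) : ℚ) : ℝ) : ℝ) : ℂ) = 0 := by
      rw [← h2]
      push_cast
      rfl
    exact_mod_cast h3
  funext i
  have hnd := traceForm_nondegenerate ℚ K
  have h4 := h ((Algebra.traceForm ℚ K).dualBasis hnd b i)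
  have h5 : ∀ j, Algebra.trace ℚ K ((Algebra.traceForm ℚ K).dualBasis hnd b i * b j) =
      if j = i then 1 else 0 := fun j => by
    have := LinearMap.BilinForm.apply_dualBasis_left hnd b i j
    rw [Algebra.traceForm_apply] at this
    exact this
  simp only [h5] at h4
  have h6 : ∀ j, a j * (((if j = i then (1 : ℚ) else 0) : ℚ) : ℝ) = if j = i then a j else 0 := by
    intro j
    split_ifs <;> simp
  simp only [h6, Finset.sum_ite_eq', Finset.mem_univ, if_true] at h4
  exact h4

/-- `K` is dense in `ℂ^V`. -/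
theorem approx {sg : V → K →+* ℂ} (hinj : Function.Injective sg)
    (hne : ∀ v w, sg v ≠ (starRingEnd ℂ).comp (sg w))
    (hall : ∀ s : K →+* ℂ, ∃ v, s = sg v ∨ s = (starRingEnd ℂ).comp (sg v))
    (w : V → ℂ) {ε : ℝ} (hε : 0 < ε) : ∃ x : K, ∀ v, ‖sg v x - w v‖ < ε := by
  classical
  let b := Module.finBasis ℚ K
  let Φ : (Fin (Module.finrank ℚ K) → ℝ) →ₗ[ℝ] (V → ℂ) :=
    { toFun := fun a v => ∑ j, (a j : ℂ) * sg v (b j)
      map_add' := fun a a' => by
        funext v
        simp [add_mul, Finset.sum_add_distrib]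
      map_smul' := fun r a => by
        funext v
        simp [mul_assoc, Finset.mul_sum] }
  have hΦ : ∀ a v, Φ a v = ∑ j, (a j : ℂ) * sg v (b j) := fun a v => rfl
  have hI : Function.Injective Φ := by
    rw [injective_iff_map_eq_zero]
    intro a ha
    refine real_indep b a fun s => ?_
    obtain ⟨v, rfl | rfl⟩ := hall s
    · rw [← hΦ, ha]; rfl
    · have h1 : (starRingEnd ℂ) (∑ j, (a j : ℂ) * sg v (b j)) = 0 := by
        rw [← hΦ, ha]; simp
      rw [map_sum] at h1
      rw [← h1]
      refine Finset.sum_congr rfl fun j _ => ?_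
      rw [map_mul, Complex.conj_ofReal]
      rfl
  have hdim : Module.finrank ℝ (Fin (Module.finrank ℚ K) → ℝ) = Module.finrank ℝ (V → ℂ) := by
    rw [Module.finrank_fin_fun, Module.finrank_pi_fintype]
    simp [Complex.finrank_real_complex, card_emb hinj hne hall, mul_comm]
  have hS : Function.Surjective Φ :=
    (LinearMap.injective_iff_surjective_of_finrank_eq_finrank hdim).1 hI
  have hc : Continuous Φ := LinearMap.continuous_of_finiteDimensional Φ
  have hd : DenseRange fun q : Fin (Module.finrank ℚ K) → ℚ => fun j => (q j : ℝ) :=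
    DenseRange.piMap (fun _ => Rat.denseRange_cast (𝕜 := ℝ))
  have h1 : DenseRange (Φ ∘ fun q : Fin (Module.finrank ℚ K) → ℚ => fun j => (q j : ℝ)) :=
    hS.denseRange.comp hd hc
  obtain ⟨q, hq⟩ := h1.exists_dist_lt w hε
  refine ⟨∑ j, q j • b j, fun v => ?_⟩
  have h2 : sg v (∑ j, q j • b j) = Φ (fun j => (q j : ℝ)) v := by
    rw [hΦ, map_sum]
    refine Finset.sum_congr rfl fun j _ => ?_
    rw [Rat.smul_def, map_mul, map_ratCast]
    push_cast
    rfl
  rw [h2, ← dist_eq_norm, dist_comm]
  exact lt_of_le_of_lt (dist_le_pi_dist _ _ v) hq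

end Approx

/-! ## The theorem -/

theorem specEX : SpecEX := by
  intro K _ _ T _ _ n bar sg t0 hconj hinj hne hall
  classical
  have hbb : ∀ x, bar (bar x) = x := by
    intro x
    apply (sg (Sum.inl t0)).injective
    rw [hconj, hconj]
    simp
  -- the coefficient
  obtain ⟨x, hx⟩ := approx hinj hne hall (Sum.elim (fun _ => (-1 : ℂ)) (fun _ => 1))
    (ε := 1 / 2) (by norm_num)
  obtain ⟨N, hN, hNi⟩ : ∃ N : ℕ, 0 < N ∧ IsIntegral ℤ ((N : K) * (x + bar x)) := by
    obtain ⟨y, hy, hyi⟩ := exists_integral_multiples ℤ ℚ (L := K) {x + bar x}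
    have h1 := hyi (x + bar x) (by simp)
    rcases Int.natAbs_eq y with h | h
    · refine ⟨y.natAbs, Int.natAbs_pos.2 hy, ?_⟩
      rw [h, zsmul_eq_mul] at h1
      simpa using h1
    · refine ⟨y.natAbs, Int.natAbs_pos.2 hy, ?_⟩
      rw [h, neg_smul, zsmul_eq_mul] at h1
      have h2 := h1.neg
      simpa using h2
  have hNr : (0 : ℝ) < N := by exact_mod_cast hN
  have hcre : ∀ v, (sg v ((N : K) * (x + bar x))).re = N * (2 * (sg v x).re) := by
    intro v
    rw [map_mul, map_natCast, map_add, hconj]
    simp [two_mul]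
  -- the element `ξ`
  obtain ⟨y, hy⟩ := approx hinj hne hall (fun _ => Complex.I) (ε := 1 / 2) (by norm_num)
  have hξim : ∀ v, 0 < (sg v (y - bar y)).im := by
    intro v
    rw [map_sub, hconj]
    have h1 := (Complex.abs_im_le_norm _).trans_lt (hy v)
    rw [abs_lt] at h1
    simp only [Complex.sub_im, Complex.I_im] at h1
    simp only [Complex.sub_im, Complex.conj_im]
    linarith [h1.1]
  set c : K := (N : K) * (x + bar x) with hc
  set ξ : K := y - bar y with hξ
  have hcb : bar c = c := by
    rw [hc, map_mul, map_natCast, map_add, hbb, add_comm x]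
  have hξb : bar ξ = -ξ := by
    rw [hξ, map_sub, hbb]
    ring
  have hcT : ∀ t, (sg (Sum.inl t) c).re < 0 := by
    intro t
    rw [hcre]
    have h1 := (Complex.abs_re_le_norm _).trans_lt (hx (Sum.inl t))
    rw [abs_lt] at h1
    simp only [Complex.sub_re, Sum.elim_inl, Complex.neg_re, Complex.one_re] at h1
    have h2 : (sg (Sum.inl t) x).re < 0 := by linarith [h1.2]
    nlinarith
  have hcD : ∀ d, 0 < (sg (Sum.inr d) c).re := by
    intro d
    rw [hcre]
    have h1 := (Complex.abs_re_le_norm _).trans_lt (hx (Sum.inr d))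
    rw [abs_lt] at h1
    simp only [Complex.sub_re, Sum.elim_inr, Complex.one_re] at h1
    have h2 : 0 < (sg (Sum.inr d) x).re := by linarith [h1.1]
    positivity
  clear_value c ξ
  have hc0 : c ≠ 0 := by
    intro h
    have := hcT t0
    rw [h] at this
    simp at this
  have hξ0 : ξ ≠ 0 := by
    intro h
    have := hξim (Sum.inl t0)
    rw [h] at this
    simp at this
  -- the form
  let barA : K ≃ₐ[ℚ] K := AlgEquiv.ofRingEquiv (f := bar) (fun r => by simp)
  have hbarA : ∀ z, barA z = bar z := fun z => rfl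
  have htr : ∀ z, Algebra.trace ℚ K (bar z) = Algebra.trace ℚ K z := by
    intro z
    rw [← hbarA]
    exact Algebra.trace_eq_of_algEquiv barA z
  let B : (K × K) →ₗ[ℚ] (K × K) →ₗ[ℚ] ℚ := LinearMap.mk₂ ℚ (EE bar c ξ)
    (by intro l l' m
        simp only [EE, Prod.fst_add, Prod.snd_add]
        rw [← map_add (Algebra.trace ℚ K)]
        congr 1
        ring)
    (by intro r l m
        simp only [EE, Prod.smul_fst, Prod.smul_snd]
        rw [← map_smul (Algebra.trace ℚ K)]
        congr 1
        simp only [Rat.smul_def]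
        ring)
    (by intro l m m'
        simp only [EE, Prod.fst_add, Prod.snd_add]
        rw [← map_add (Algebra.trace ℚ K)]
        congr 1
        rw [map_add bar, map_add bar]
        ring)
    (by intro r l m
        simp only [EE, Prod.smul_fst, Prod.smul_snd]
        rw [← map_smul (Algebra.trace ℚ K)]
        congr 1
        simp only [Rat.smul_def, map_mul, map_ratCast]
        ring)
  have hB : ∀ l m, B l m = EE bar c ξ l m := fun l m => rfl
  have halt : ∀ l, B l l = 0 := by
    intro l
    rw [hB]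
    have h1 : bar (ξ * (l.1 * bar l.1 - c * l.2 * bar l.2)) =
        -(ξ * (l.1 * bar l.1 - c * l.2 * bar l.2)) := by
      simp only [map_mul, map_sub, hbb, hcb, hξb]
      ring
    have h2 := htr (ξ * (l.1 * bar l.1 - c * l.2 * bar l.2))
    rw [h1, map_neg] at h2
    show Algebra.trace ℚ K (ξ * (l.1 * bar l.1 - c * l.2 * bar l.2)) = 0
    linarith
  have htf : ∀ z : K, (∀ u : K, Algebra.trace ℚ K (z * u) = 0) → z = 0 := by
    intro z hz
    exact (traceForm_nondegenerate ℚ K).1 z hz
  have hnd : ∀ l, (∀ m, B l m = 0) → l = 0 := by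
    intro l hl
    have h1 : ξ * l.1 = 0 := by
      refine htf _ fun u => ?_
      have h := hl (bar u, 0)
      rw [hB] at h
      simp only [EE, hbb, map_zero, mul_zero, sub_zero] at h
      rw [← h]
      congr 1
      ring
    have h2 : -(ξ * c) * l.2 = 0 := by
      refine htf _ fun u => ?_
      have h := hl (0, bar u)
      rw [hB] at h
      simp only [EE, hbb, map_zero, mul_zero, zero_sub] at h
      rw [← h]
      congr 1
      ring
    refine Prod.ext ?_ ?_
    · rcases mul_eq_zero.1 h1 with h | h
      · exact absurd h hξ0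
      · exact h
    · rcases mul_eq_zero.1 h2 with h | h
      · rw [neg_eq_zero, mul_eq_zero] at h
        rcases h with h | h
        · exact absurd h hξ0
        · exact absurd h hc0
      · exact h
  have hdim : Module.finrank ℚ (K × K) = 2 * Fintype.card (CI T n) := by
    rw [Module.finrank_prod, card_emb hinj hne hall, Fintype.card_prod, Fintype.card_fin]
    ring
  obtain ⟨b, hb1, hb2, hb3⟩ := darboux B halt hnd hdim
  let F : Fam K T n :=
    { bar := bar, conj := hconj, sg := sg, sg_inj := hinj, sg_ne := hne, sg_all := hall,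
      t0 := t0, c := c, c_int := hNi, c_bar := hcb, c_T := hcT, c_D := hcD, ξ := ξ,
      ξ_bar := hξb, ξ_pos := hξim, b := b, b_ee := hb1, b_ff := hb2, b_ef := hb3 }
  exact ⟨F, rfl, rfl, rfl⟩

end Pool.Agent.Lib.MPf11a48.SH.EX
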