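import Pool.Agent.Lib.MP_f11a48_ag.SH.Spec
import Pool.Agent.Lib.MP_f11a48_ag.SH.TH.Ndg

/-!
# PROJECT S0, part NDG: non-degeneracy (from SIE)
-/

set_option autoImplicit false

open Filter Topology Matrix

namespace Pool.Agent.Lib.MPf11a48.SH

namespace NDGM

section mat

variable {E : Type*} [NormedAddCommGroup E] [NormedSpace ℂ E] {I : Type*} [Fintype I]
  [DecidableEq I]

theorem det_diff {M : E → Matrix I I ℂ} {z : E}
    (h : ∀ i j, DifferentiableAt ℂ (fun y => M y i j) z) :
    DifferentiableAt ℂ (fun y => (M y).det) z := by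
  simp only [Matrix.det_apply']
  refine DifferentiableAt.fun_sum fun σ _ => ?_
  refine (differentiableAt_const _).mul ?_
  exact (HasFDerivAt.finsetProd (u := Finset.univ) (g := fun i y => M y (σ i) i)
    fun i _ => (h (σ i) i).hasFDerivAt).differentiableAt

theorem inv_diff {M : E → Matrix I I ℂ} {z : E}
    (h : ∀ i j, DifferentiableAt ℂ (fun y => M y i j) z) (hz : (M z).det ≠ 0) (i j : I) :
    DifferentiableAt ℂ (fun y => (M y)⁻¹ i j) z := by
  have h1 : (fun y => (M y)⁻¹ i j) = fun y => ((M y).det)⁻¹ *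
      ((M y).updateRow j (Pi.single i 1)).det := by
    funext y
    rw [Matrix.inv_def, Ring.inverse_eq_inv', Matrix.smul_apply, smul_eq_mul,
      Matrix.adjugate_apply]
  rw [h1]
  refine ((det_diff h).inv hz).mul (det_diff fun k l => ?_)
  by_cases hk : k = j
  · subst hk
    simp only [Matrix.updateRow_self]
    exact differentiableAt_const _
  · simp only [Matrix.updateRow_ne hk]
    exact h k l

end mat

variable {K : Type} [Field K] [NumberField K] {T : Type} [Fintype T] [DecidableEq T] {n : ℕ}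
  (F : Fam K T n)

/-- independence of the embeddings -/
theorem ded (a b : T ⊕ Fin n → ℂ)
    (h : ∀ x : K, ∑ v, a v * F.sg v x + ∑ v, b v * (starRingEnd ℂ) (F.sg v x) = 0) :
    (∀ v, a v = 0) ∧ ∀ v, b v = 0 := by
  let χ : (T ⊕ Fin n) ⊕ (T ⊕ Fin n) → (K →* ℂ) := Sum.elim (fun v => (F.sg v : K →* ℂ))
    fun v => (((starRingEnd ℂ).comp (F.sg v) : K →+* ℂ) : K →* ℂ)
  have hinj : Function.Injective χ := by
    intro i j hij
    have hcoe : ∀ s t : K →+* ℂ, (s : K →* ℂ) = (t : K →* ℂ) → s = t := by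
      intro s t hst
      ext x
      exact DFunLike.congr_fun hst x
    rcases i with v | v <;> rcases j with w | w
    · rw [F.sg_inj (hcoe _ _ hij)]
    · exact absurd (hcoe _ _ hij) (F.sg_ne v w)
    · exact absurd (hcoe _ _ hij).symm (F.sg_ne w v)
    · have h1 : F.sg v = F.sg w := by
        have h2 := hcoe _ _ hij
        ext x
        have h3 := RingHom.congr_fun h2 x
        exact (starRingEnd ℂ).injective h3
      rw [F.sg_inj h1]
  have hli := (linearIndependent_monoidHom K ℂ).comp χ hinj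
  rw [Fintype.linearIndependent_iff] at hli
  have h1 := hli (Sum.elim a b) (by
    funext x
    rw [Finset.sum_apply, Fintype.sum_sum_type, Pi.zero_apply]
    exact h x)
  exact ⟨fun v => h1 (Sum.inl v), fun v => h1 (Sum.inr v)⟩

theorem isOpen_X : IsOpen F.X := by
  have h1 : F.X = ⋂ d, {z : Fin n → ℂ | ‖z d‖ ^ 2 < (F.sg (Sum.inr d) F.c).re} := by
    ext z
    simp [Fam.X]
  rw [h1]
  refine isOpen_iInter_of_finite fun d => isOpen_lt ?_ continuous_const
  fun_prop

/-- the derivative of the period map in the direction `v` -/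
noncomputable def dper (v : Fin n → ℂ) (l : K × K) : CI T n → ℂ := fun i =>
  match i with
  | (Sum.inl _, _) => 0
  | (Sum.inr d, j) => if j = 0 then -(v d * F.sg (Sum.inr d) l.2) else
      -(v d * (starRingEnd ℂ) (F.sg (Sum.inr d) l.1))

theorem per_hasFDerivAt (l : K × K) (i : CI T n) (z : Fin n → ℂ) :
    ∃ D : (Fin n → ℂ) →L[ℂ] ℂ, HasFDerivAt (fun y => F.per y l i) D z ∧
      ∀ v, D v = dper F v l i := by
  obtain ⟨w, j⟩ := i
  rcases w with t | d
  · refine ⟨0, ?_, fun v => rfl⟩
    exact hasFDerivAt_const _ _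
  · fin_cases j
    · refine ⟨-((F.sg (Sum.inr d) l.2) • (ContinuousLinearMap.proj d : (Fin n → ℂ) →L[ℂ] ℂ)),
        ?_, fun v => ?_⟩
      · have h1 : (fun y : Fin n → ℂ => F.per y l (Sum.inr d, (0 : Fin 2))) = fun y =>
            F.sg (Sum.inr d) l.1 +
              (-((F.sg (Sum.inr d) l.2) • (ContinuousLinearMap.proj d : (Fin n → ℂ) →L[ℂ] ℂ))) y := by
          funext y
          simp [Fam.per, Fam.perR, Fam.emb]
          ring
        exact h1 ▸ ((ContinuousLinearMap.hasFDerivAt _).const_add _)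
      · simp [dper]
        ring
    · refine ⟨-(((starRingEnd ℂ) (F.sg (Sum.inr d) l.1)) •
        (ContinuousLinearMap.proj d : (Fin n → ℂ) →L[ℂ] ℂ)), ?_, fun v => ?_⟩
      · have h1 : (fun y : Fin n → ℂ => F.per y l (Sum.inr d, (1 : Fin 2))) = fun y =>
            F.sg (Sum.inr d) F.c * (starRingEnd ℂ) (F.sg (Sum.inr d) l.2) +
              (-(((starRingEnd ℂ) (F.sg (Sum.inr d) l.1)) •
                (ContinuousLinearMap.proj d : (Fin n → ℂ) →L[ℂ] ℂ))) y := by
          funext y
          simp [Fam.per, Fam.perR, Fam.emb]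
          ring
        exact h1 ▸ ((ContinuousLinearMap.hasFDerivAt _).const_add _)
      · simp [dper]
        ring

theorem per_add (z : Fin n → ℂ) (l m : K × K) (i : CI T n) :
    F.per z (l + m) i = F.per z l i + F.per z m i := by
  obtain ⟨w, j⟩ := i
  rcases w with t | d
  · by_cases hj : j = 0 <;> simp [Fam.per, Fam.perR, Fam.emb, hj]
  · by_cases hj : j = 0 <;> simp [Fam.per, Fam.perR, Fam.emb, hj] <;> ring

theorem sg_rat (s : K →+* ℂ) (q : ℚ) (x : K) : s (q • x) = (q : ℂ) * s x := by
  rw [Algebra.smul_def, map_mul]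
  congr 1
  simp

theorem per_smul (z : Fin n → ℂ) (q : ℚ) (l : K × K) (i : CI T n) :
    F.per z (q • l) i = q * F.per z l i := by
  obtain ⟨w, j⟩ := i
  rcases w with t | d
  · by_cases hj : j = 0 <;> simp [Fam.per, Fam.perR, Fam.emb, hj, sg_rat]
  · by_cases hj : j = 0 <;> simp [Fam.per, Fam.perR, Fam.emb, hj, sg_rat] <;> ring

theorem dper_add (v : Fin n → ℂ) (l m : K × K) (i : CI T n) :
    dper F v (l + m) i = dper F v l i + dper F v m i := by
  obtain ⟨w, j⟩ := i
  rcases w with t | d
  · simp [dper]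
  · by_cases hj : j = 0 <;> simp [dper, hj] <;> ring

theorem dper_smul (v : Fin n → ℂ) (q : ℚ) (l : K × K) (i : CI T n) :
    dper F v (q • l) i = q * dper F v l i := by
  obtain ⟨w, j⟩ := i
  rcases w with t | d
  · simp [dper]
  · by_cases hj : j = 0 <;> simp [dper, hj, sg_rat] <;> ring

/-- no complex linear map commutes with the variation -/
theorem no_linear (z v : Fin n → ℂ) (N : Matrix (CI T n) (CI T n) ℂ)
    (h : ∀ k, dper F v (F.b k) = N *ᵥ F.per z (F.b k)) : v = 0 := by
  -- all rational vectors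
  have hall : ∀ (l : K × K) (i : CI T n), dper F v l i = ∑ j, N i j * F.per z l j := by
    intro l i
    let A : K × K →ₗ[ℚ] ℂ :=
      { toFun := fun l => dper F v l i
        map_add' := fun l m => dper_add F v l m i
        map_smul' := fun q l => by
          rw [dper_smul F v q l i, RingHom.id_apply, Rat.smul_def] }
    let B : K × K →ₗ[ℚ] ℂ :=
      { toFun := fun l => ∑ j, N i j * F.per z l j
        map_add' := fun l m => by
          rw [← Finset.sum_add_distrib]
          refine Finset.sum_congr rfl fun j _ => ?_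
          rw [per_add]
          ring
        map_smul' := fun q l => by
          rw [RingHom.id_apply, Rat.smul_def, Finset.mul_sum]
          refine Finset.sum_congr rfl fun j _ => ?_
          rw [per_smul]
          ring }
    have hAB : A = B := by
      refine F.b.ext fun k => ?_
      show dper F v (F.b k) i = ∑ j, N i j * F.per z (F.b k) j
      rw [h k]
      rfl
    exact LinearMap.congr_fun hAB l
  funext d
  set r : CI T n := (Sum.inr d, 0) with hr
  -- the vectors `(x, 0)`
  have h1 := ded F (fun w => N r (w, 0)) (fun w => match w with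
    | Sum.inl _ => 0
    | Sum.inr d' => -(N r (Sum.inr d', 1) * z d')) (fun x => by
      have h2 := hall (x, 0) r
      have h3 : dper F v (x, 0) r = 0 := by simp [dper, hr]
      rw [h3] at h2
      refine Eq.trans ?_ h2.symm
      rw [Fintype.sum_prod_type, ← Finset.sum_add_distrib]
      refine Finset.sum_congr rfl fun w _ => ?_
      rw [Fin.sum_univ_two]
      rcases w with t | d'
      · simp [Fam.per, Fam.perR, Fam.emb]
      · simp [Fam.per, Fam.perR, Fam.emb]
        ring)
  -- the vectors `(0, x)`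
  have h4 := ded F (fun w => match w with
    | Sum.inl t => N r (Sum.inl t, 1)
    | Sum.inr d' => -(N r (Sum.inr d', 0) * z d') + if d' = d then v d else 0) (fun w => match w with
    | Sum.inl _ => 0
    | Sum.inr d' => N r (Sum.inr d', 1) * F.sg (Sum.inr d') F.c) (fun x => by
      have h2 := hall (0, x) r
      have h3 : dper F v (0, x) r = -(v d * F.sg (Sum.inr d) x) := by simp [dper, hr]
      rw [h3] at h2
      have h5 : ∑ j, N r j * F.per z (0, x) j + v d * F.sg (Sum.inr d) x = 0 := by
        rw [← h2]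
        ring
      refine Eq.trans ?_ h5
      rw [Fintype.sum_prod_type]
      have h6 : v d * F.sg (Sum.inr d) x = ∑ w : T ⊕ Fin n, (match w with
          | Sum.inl _ => 0
          | Sum.inr d' => (if d' = d then v d else 0) * F.sg (Sum.inr d') x) := by
        rw [Fintype.sum_sum_type]
        simp
      rw [h6, ← Finset.sum_add_distrib, ← Finset.sum_add_distrib]
      refine Finset.sum_congr rfl fun w _ => ?_
      rw [Fin.sum_univ_two]
      rcases w with t | d'
      · simp [Fam.per, Fam.perR, Fam.emb]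
      · by_cases hd : d' = d
        · simp [Fam.per, Fam.perR, Fam.emb, hd]
          ring
        · simp [Fam.per, Fam.perR, Fam.emb, hd]
          ring)
  have h7 := h4.1 (Sum.inr d)
  have h8 := h1.1 (Sum.inr d)
  simp only [if_true] at h7
  rw [h8, zero_mul, neg_zero, zero_add] at h7
  exact h7

/-- the point with the coordinates `p = 0` and `q` -/
noncomputable def uq (q : CI T n → ℚ) : K × K := F.b.equivFun.symm (Sum.elim q 0)

theorem pc_uq (q : CI T n → ℚ) : F.pc (uq F q) = 0 := by
  funext i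
  have h1 : F.b.repr (uq F q) (Sum.inr i) = 0 := by
    rw [← Module.Basis.equivFun_apply, uq, LinearEquiv.apply_symm_apply]
    rfl
  show ((F.b.repr (uq F q) (Sum.inr i) : ℚ) : ℝ) = 0
  rw [h1, Rat.cast_zero]

theorem qc_uq (q : CI T n → ℚ) : F.qc (uq F q) = TH.qr q := by
  funext i
  have h1 : F.b.repr (uq F q) (Sum.inl i) = q i := by
    rw [← Module.Basis.equivFun_apply, uq, LinearEquiv.apply_symm_apply]
    rfl
  show ((F.b.repr (uq F q) (Sum.inl i) : ℚ) : ℝ) = _
  rw [h1]
  rfl

theorem Kl_uq (z : Fin n → ℂ) (q : CI T n → ℚ) :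
    F.Kl z (uq F q) = TH.Kl (F.tau z) 0 (TH.qr q) := by
  rw [Fam.Kl, pc_uq, qc_uq]

theorem KD_uq (z : Fin n → ℂ) (q : CI T n → ℚ) (w : CI T n → ℂ) :
    F.KD z (uq F q) w = TH.KD (F.tau z) 0 (TH.qr q) ((F.Ome z)⁻¹ *ᵥ w) := by
  rw [Fam.KD, pc_uq, qc_uq]
  rfl

end NDGM

open NDGM in
theorem specNDG (hSIE : SpecSIE) : SpecNDG := by
  intro K _ _ T _ _ n F z hz
  obtain ⟨hu, hsym, hHH⟩ := hSIE K T n F z hz
  have hdet : (F.Ome z).det ≠ 0 := hu.ne_zero
  refine ⟨?_, ?_, ?_⟩
  · obtain ⟨q, hq⟩ := TH.exists_rat_ne hHH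
    exact ⟨uq F q, by rw [Kl_uq]; exact hq⟩
  · by_contra hcon
    push Not at hcon
    obtain ⟨a, b, hab, h1⟩ := TH.ndg_det hHH
      ((F.Ome z)⁻¹ *ᵥ Pi.single (Sum.inl F.t0, (0 : Fin 2)) 1)
      ((F.Ome z)⁻¹ *ᵥ Pi.single (Sum.inl F.t0, (1 : Fin 2)) 1) (fun q r => by
        have h2 := hcon (uq F q) (uq F r)
        rw [Fam.HD, KD_uq, KD_uq, KD_uq, KD_uq] at h2
        exact sub_eq_zero.1 h2)
    have h3 : (F.Ome z)⁻¹ *ᵥ (a • (Pi.single (Sum.inl F.t0, (0 : Fin 2)) 1 : CI T n → ℂ) +
        b • (Pi.single (Sum.inl F.t0, (1 : Fin 2)) 1 : CI T n → ℂ)) = 0 := by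
      rw [Matrix.mulVec_add, Matrix.mulVec_smul, Matrix.mulVec_smul]
      exact h1
    have h4 := congrArg (fun w => F.Ome z *ᵥ w) h3
    simp only [Matrix.mulVec_mulVec, Matrix.mul_nonsing_inv _ hu, Matrix.one_mulVec,
      Matrix.mulVec_zero] at h4
    have h5 := congrFun h4 (Sum.inl F.t0, (0 : Fin 2))
    have h6 := congrFun h4 (Sum.inl F.t0, (1 : Fin 2))
    simp at h5 h6
    rcases hab with h | h
    · exact h h5
    · exact h h6
  · intro u₀ hu₀ v hv
    -- the derivative of `tau`
    have hOme : ∀ i j, DifferentiableAt ℂ (fun y => F.Ome y i j) z := by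
      intro i j
      obtain ⟨D, hD, -⟩ := per_hasFDerivAt F (F.b (Sum.inl j)) i z
      exact hD.differentiableAt
    have hOmf : ∀ i j, DifferentiableAt ℂ (fun y => F.Omf y i j) z := by
      intro i j
      obtain ⟨D, hD, -⟩ := per_hasFDerivAt F (F.b (Sum.inr j)) i z
      exact hD.differentiableAt
    have htau : ∀ i j, DifferentiableAt ℂ (fun y => F.tau y i j) z := by
      intro i j
      have h1 : (fun y => F.tau y i j) = fun y => ∑ k, (F.Ome y)⁻¹ i k * F.Omf y k j := by
        funext y
        rw [Fam.tau, Matrix.mul_apply]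
      rw [h1]
      exact DifferentiableAt.fun_sum fun k _ => (inv_diff hOme hdet i k).mul (hOmf k j)
    let tf : (Fin n → ℂ) → (CI T n → CI T n → ℂ) := fun y => F.tau y
    have htf : DifferentiableAt ℂ tf z :=
      differentiableAt_pi.2 fun i => differentiableAt_pi.2 fun j => htau i j
    set σ : CI T n → CI T n → ℂ := fderiv ℂ tf z v with hσ
    have hσe : ∀ i j, fderiv ℂ (fun y => F.tau y i j) z v = σ i j := by
      intro i j
      have h1 : HasFDerivAt (fun y => tf y i j)
          (((ContinuousLinearMap.proj j : (CI T n → ℂ) →L[ℂ] ℂ).comp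
            (ContinuousLinearMap.proj i : (CI T n → CI T n → ℂ) →L[ℂ] (CI T n → ℂ))).comp
            (fderiv ℂ tf z)) z :=
        ((ContinuousLinearMap.proj j : (CI T n → ℂ) →L[ℂ] ℂ).comp
          (ContinuousLinearMap.proj i : (CI T n → CI T n → ℂ) →L[ℂ] (CI T n → ℂ))).hasFDerivAt.comp
          z htf.hasFDerivAt
      have h2 : HasFDerivAt (fun y => F.tau y i j) _ z := h1
      rw [h2.fderiv]
      rfl
    -- near `z`
    have hX : ∀ᶠ y in 𝓝 z, y ∈ F.X := (isOpen_X F).mem_nhds hz
    -- symmetry of `sigma`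
    have hσs : ∀ i j, σ i j = σ j i := by
      intro i j
      rw [← hσe, ← hσe]
      have h1 : (fun y => F.tau y i j) =ᶠ[𝓝 z] fun y => F.tau y j i := by
        filter_upwards [hX] with y hy
        have h2 := (hSIE K T n F y hy).2.1
        calc F.tau y i j = (F.tau y)ᵀ j i := rfl
          _ = F.tau y j i := by rw [h2]
      rw [h1.fderiv_eq]
    -- `sigma` vanishes
    have hder : ∀ q : CI T n → ℚ, fderiv ℂ (fun y => F.Kl y (uq F q)) z v =
        TH.KT (F.tau z) 0 (TH.qr q) σ := by
      intro q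
      have h1 : (fun y => F.Kl y (uq F q)) = fun y =>
          (fun P : TH.PP (CI T n) => TH.Ks P.1 0 P.2) (tf y, TH.rc (TH.qr q)) := by
        funext y
        rw [Kl_uq, TH.Kl_zero]
        show _ = TH.Ks (tf y) 0 (TH.rc (TH.qr q))
        rw [TH.Ks_zero]
      have h2 : HasFDerivAt (fun y => ((tf y, TH.rc (TH.qr q)) : TH.PP (CI T n)))
          ((fderiv ℂ tf z).prod 0) z := htf.hasFDerivAt.prodMk (hasFDerivAt_const _ _)
      have h3 := (TH.hasFDerivAt_Ks 0 (tf z, TH.rc (TH.qr q)) hHH).comp z h2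
      rw [h1]
      have h4 : HasFDerivAt (fun y =>
          (fun P : TH.PP (CI T n) => TH.Ks P.1 0 P.2) (tf y, TH.rc (TH.qr q))) _ z := h3
      rw [h4.fderiv, ContinuousLinearMap.comp_apply, TH.DK_apply _ _ hHH, TH.KT_zero]
      rfl
    have hσa := TH.ndg_tau hHH σ (F.Kl z u₀) (fderiv ℂ (fun y => F.Kl y u₀) z v) hu₀ (fun q => by
      have h1 := hv (uq F q)
      rw [hder, Kl_uq] at h1
      rw [mul_comm, h1])
    have hσ0 : ∀ i j, σ i j = 0 := by
      intro i j
      have h1 := hσa i j
      rw [← hσs i j] at h1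
      have h2 : (2 : ℂ) * σ i j = 0 := by
        rw [two_mul]
        exact h1
      exact (mul_eq_zero.1 h2).resolve_left two_ne_zero
    -- the variation of the periods
    set DE : Matrix (CI T n) (CI T n) ℂ := Matrix.of fun i j => dper F v (F.b (Sum.inl j)) i
      with hDE
    have hf : ∀ i j, dper F v (F.b (Sum.inr j)) i = (DE * F.tau z) i j := by
      intro i j
      have h1 : (fun y => ∑ k, F.Ome y i k * F.tau y k j) =ᶠ[𝓝 z] fun y => F.Omf y i j := by
        filter_upwards [hX] with y hy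
        have h2 := (hSIE K T n F y hy).1
        rw [← Matrix.mul_apply, Fam.tau, ← Matrix.mul_assoc, Matrix.mul_nonsing_inv _ h2,
          Matrix.one_mul]
      have h3 : HasFDerivAt (fun y => ∑ k, F.Ome y i k * F.tau y k j)
          (∑ k, (F.Ome z i k • fderiv ℂ (fun y => F.tau y k j) z +
            F.tau z k j • fderiv ℂ (fun y => F.Ome y i k) z)) z := by
        refine HasFDerivAt.fun_sum fun k _ => ?_
        exact (hOme i k).hasFDerivAt.mul (htau k j).hasFDerivAt
      obtain ⟨D, hD, hDv⟩ := per_hasFDerivAt F (F.b (Sum.inr j)) i z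
      have h4 : HasFDerivAt (fun y => F.Omf y i j) D z := hD
      have h5 := (h4.congr_of_eventuallyEq h1).unique h3
      rw [← hDv, h5, _root_.sum_apply, Matrix.mul_apply]
      refine Finset.sum_congr rfl fun k _ => ?_
      rw [_root_.add_apply, _root_.smul_apply, _root_.smul_apply, hσe, hσ0, smul_zero, zero_add, smul_eq_mul]
      obtain ⟨D', hD', hDv'⟩ := per_hasFDerivAt F (F.b (Sum.inl k)) i z
      have h6 : HasFDerivAt (fun y => F.Ome y i k) D' z := hD'
      rw [h6.fderiv, hDv']
      show _ = dper F v (F.b (Sum.inl k)) i * F.tau z k j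
      ring
    refine no_linear F z v (DE * (F.Ome z)⁻¹) fun k => ?_
    rcases k with j | j
    · funext i
      have h1 : (DE * (F.Ome z)⁻¹) * F.Ome z = DE := by
        rw [Matrix.mul_assoc, Matrix.nonsing_inv_mul _ hu, Matrix.mul_one]
      have h2 := congrFun (congrFun h1 i) j
      rw [Matrix.mul_apply] at h2
      exact h2.symm
    · funext i
      rw [hf i j]
      have h1 : (DE * (F.Ome z)⁻¹) * F.Omf z = DE * F.tau z := by
        rw [Matrix.mul_assoc]
        rfl
      have h2 := congrFun (congrFun h1 i) j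
      rw [Matrix.mul_apply] at h2
      rw [← h2]
      rfl

end Pool.Agent.Lib.MPf11a48.SH
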